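import Pool.Agent.Q220.VL.Deform

set_option autoImplicit false
set_option linter.unusedSectionVars false
set_option linter.unusedSimpArgs false
set_option linter.unusedVariables false

/-!
# Words with two blocks of a set of generators
-/

namespace Pool.Agent.Q220.VL

open Pool.Agent.Helper741 CoxeterSystem

variable {B : Type*} [Fintype B] [DecidableEq B] {M : CoxeterMatrix B}

/-- The parabolic subgroup of the Coxeter group. -/
def subW (M : CoxeterMatrix B) (V : Set B) : Subgroup M.Group :=
  Subgroup.closure (M.toCoxeterSystem.simple '' V)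

lemma simple_mem_subW {V : Set B} {i : B} (h : i ∈ V) : M.toCoxeterSystem.simple i ∈ subW M V :=
  Subgroup.subset_closure ⟨i, h, rfl⟩

lemma subW_mono {U V : Set B} (h : U ⊆ V) : subW M U ≤ subW M V :=
  Subgroup.closure_mono (Set.image_mono h)

@[simp] lemma toW_gen (i : B) : toW M (Artin.gen M i) = M.toCoxeterSystem.simple i :=
  Artin.lift_gen _ _ i

lemma toW_mem {V : Set B} {x : Artin M} (h : x ∈ sub M V) : toW M x ∈ subW M V := by
  induction h using Subgroup.closure_induction with
  | mem x hx => obtain ⟨t, ht, rfl⟩ := hx; rw [toW_gen]; exact simple_mem_subW ht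
  | one => rw [map_one]; exact one_mem _
  | mul x y _ _ hx hy => rw [map_mul]; exact mul_mem hx hy
  | inv x _ hx => rw [map_inv]; exact inv_mem hx

/-- An element of the parabolic subgroup only changes the coordinates in `V`. -/
lemma geo_coord {V : Set B} {w : M.Group} (h : w ∈ subW M V) {t : B} (ht : t ∉ V) (v : B → ℝ) :
    geo M.toCoxeterSystem w v t = v t := by
  induction h using Subgroup.closure_induction generalizing v with
  | mem x hx =>
    obtain ⟨s, hs, rfl⟩ := hx
    have h3 : t ≠ s := fun h => ht (h ▸ hs)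
    rw [geo_simple, sg_apply]
    simp [ee, Pi.single_apply, h3]
  | one => simp
  | mul x y _ _ hx hy => rw [map_mul, Module.End.mul_apply, hx, hy]
  | inv x _ hx =>
    have := hx (geo M.toCoxeterSystem x⁻¹ v)
    rw [geo_apply_inv] at this
    exact this.symm

/-- The complementary set of generators. -/
abbrev cm (V : Finset B) : {b : B // b ∉ V} ↪ B := Function.Embedding.subtype _

lemma range_par_cm (V : Finset B) : (par M (cm V)).range = sub M {b | b ∉ V} := by
  apply le_antisymm
  · rintro _ ⟨x, rfl⟩
    induction x using Artin.induction with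
    | one => rw [map_one]; exact one_mem _
    | gen a => rw [par_gen]; exact gen_mem_sub a.2
    | mul x y hx hy => rw [map_mul]; exact mul_mem hx hy
    | inv x hx => rw [map_inv]; exact inv_mem hx
  · rw [sub, Subgroup.closure_le]
    rintro _ ⟨b, hb, rfl⟩
    exact ⟨Artin.gen _ ⟨b, hb⟩, par_gen M (cm V) ⟨b, hb⟩⟩

lemma parW_mem (V : Finset B) (w : (comap M (cm V)).Group) :
    parW M (cm V) w ∈ subW M {b | b ∉ V} := by
  induction w using (comap M (cm V)).toCoxeterSystem.simple_induction_left with
  | one => rw [map_one]; exact one_mem _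
  | mul_simple_left w i ih =>
    rw [map_mul, parW_simple]
    exact mul_mem (simple_mem_subW i.2) ih

/-- The block of `V` only moves the state. -/
lemma act_block (V : Finset B) {h : Artin M} (hh : h ∈ sub M (V : Set B)) :
    ∀ p : St M (cm V), p.1.1 ∈ subW M (V : Set B) →
      (act M (cm V) h p).1.1 = toW M h * p.1.1 ∧ (act M (cm V) h p).2 = p.2 := by
  have key : ∀ (d : {b : B // b ∉ V} → Artin (comap M (cm V))) (i : B), i ∈ V →
      ∀ p : St M (cm V), p.1.1 ∈ subW M (V : Set B) →
        (step d i p).1.1 = M.toCoxeterSystem.simple i * p.1.1 ∧ (step d i p).2 = p.2 := by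
    intro d i hi p hp
    have hno : ¬ ∃ a, geo M.toCoxeterSystem p.1.1 (ee (cm V a)) = ee i := by
      rintro ⟨a, ha⟩
      have h1 := congrFun ha (cm V a)
      rw [geo_coord hp (t := cm V a) (by simpa using a.2)] at h1
      have h2 : cm V a ≠ i := by
        intro h
        exact a.2 (by rw [← h] at hi; exact hi)
      simp [ee, Pi.single_apply, h2] at h1
      exact h2 (by simpa using h1)
    rw [step_neg d hno]
    exact ⟨rfl, rfl⟩
  have hmem : ∀ y ∈ sub M (V : Set B), ∀ p : St M (cm V), p.1.1 ∈ subW M (V : Set B) →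
      toW M y * p.1.1 ∈ subW M (V : Set B) := fun y hy p hp => mul_mem (toW_mem hy) hp
  induction hh using Subgroup.closure_induction_left with
  | one => intro p _; simp
  | mul_left x hx y hy ih =>
    obtain ⟨i, hi, rfl⟩ := hx
    intro p hp
    obtain ⟨h1, h2⟩ := ih p hp
    rw [map_mul, Equiv.Perm.mul_apply, act_gen, perm_apply]
    obtain ⟨h3, h4⟩ := key (Artin.gen _) i hi (act M (cm V) y p) (by rw [h1]; exact hmem y hy p hp)
    exact ⟨by rw [h3, h1, map_mul, toW_gen, mul_assoc], by rw [h4, h2]⟩
  | inv_mul_cancel x hx y hy ih =>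
    obtain ⟨i, hi, rfl⟩ := hx
    intro p hp
    obtain ⟨h1, h2⟩ := ih p hp
    rw [map_mul, Equiv.Perm.mul_apply, map_inv, act_gen, perm_symm_apply]
    obtain ⟨h3, h4⟩ := key (fun a => (Artin.gen _ a)⁻¹) i hi (act M (cm V) y p)
      (by rw [h1]; exact hmem y hy p hp)
    exact ⟨by rw [h3, h1, map_mul, map_inv, toW_gen, M.toCoxeterSystem.inv_simple, mul_assoc],
      by rw [h4, h2]⟩

/-- The other generators, starting from the state `v₀`: the outputs are generators whose root is
fixed by `v₀`. -/
lemma act_rest (V : Finset B) {v₀ : M.Group} (hv₀ : v₀ ∈ subW M (V : Set B))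
    (x : Artin (comap M (cm V))) :
    ∀ (p : St M (cm V)) (w : (comap M (cm V)).Group), p.1.1 = parW M (cm V) w * v₀ →
      ∃ w' : (comap M (cm V)).Group,
        (act M (cm V) (par M (cm V) x) p).1.1 = parW M (cm V) w' * v₀ ∧
        ∃ c ∈ sub (comap M (cm V)) {t | geo M.toCoxeterSystem v₀ (ee (cm V t)) = ee (cm V t)},
          (act M (cm V) (par M (cm V) x) p).2 = c * p.2 := by
  have key : ∀ (d : {b : B // b ∉ V} → Artin (comap M (cm V)))
      (hd : ∀ t, geo M.toCoxeterSystem v₀ (ee (cm V t)) = ee (cm V t) →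
        d t ∈ sub (comap M (cm V)) {t | geo M.toCoxeterSystem v₀ (ee (cm V t)) = ee (cm V t)})
      (i : {b : B // b ∉ V}) (p : St M (cm V)) (w : (comap M (cm V)).Group),
      p.1.1 = parW M (cm V) w * v₀ →
      ∃ (w' : (comap M (cm V)).Group),
        (step d (cm V i) p).1.1 = parW M (cm V) w' * v₀ ∧
        ∃ c ∈ sub (comap M (cm V)) {t | geo M.toCoxeterSystem v₀ (ee (cm V t)) = ee (cm V t)},
          (step d (cm V i) p).2 = c * p.2 := by
    intro d hd i p w hp
    by_cases h : ∃ a, geo M.toCoxeterSystem p.1.1 (ee (cm V a)) = ee (cm V i)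
    · obtain ⟨a, ha⟩ := h
      rw [step_pos _ ha]
      refine ⟨w, hp, d a, ?_, rfl⟩
      apply hd
      rw [hp, map_mul, Module.End.mul_apply] at ha
      funext b
      by_cases hb : b ∈ V
      · have h1 := congrFun ha b
        rw [geo_coord (parW_mem V w) (t := b) (by simpa using hb)] at h1
        rw [h1]
        have h2 : b ≠ cm V i := fun h => i.2 (by rw [h] at hb; exact hb)
        have h3 : b ≠ cm V a := fun h => a.2 (by rw [h] at hb; exact hb)
        rw [ee, ee, Pi.single_eq_of_ne h2, Pi.single_eq_of_ne h3]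
      · exact geo_coord hv₀ (by simpa using hb) _
    · rw [step_neg _ h]
      refine ⟨(comap M (cm V)).toCoxeterSystem.simple i * w, ?_, 1, one_mem _, by simp⟩
      change M.toCoxeterSystem.simple (cm V i) * p.1.1 = _
      rw [map_mul, parW_simple, hp, mul_assoc]
  have hx : x ∈ Subgroup.closure (Set.range (Artin.gen (comap M (cm V)))) := by
    rw [Artin.closure_range_gen]; trivial
  induction hx using Subgroup.closure_induction_left with
  | one =>
    intro p w hp
    exact ⟨w, by simpa using hp, 1, one_mem _, by simp⟩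
  | mul_left x hx y _ ih =>
    obtain ⟨a, rfl⟩ := hx
    intro p w hp
    obtain ⟨w1, h1, c1, hc1, e1⟩ := ih p w hp
    rw [map_mul, map_mul, Equiv.Perm.mul_apply, par_gen, act_gen, perm_apply]
    obtain ⟨w2, h2, c2, hc2, e2⟩ := key _ (fun t ht => gen_mem_sub ht) a _ w1 h1
    exact ⟨w2, h2, c2 * c1, mul_mem hc2 hc1, by rw [e2, e1, mul_assoc]⟩
  | inv_mul_cancel x hx y _ ih =>
    obtain ⟨a, rfl⟩ := hx
    intro p w hp
    obtain ⟨w1, h1, c1, hc1, e1⟩ := ih p w hp
    rw [map_mul, map_mul, Equiv.Perm.mul_apply, map_inv, par_gen, map_inv, act_gen,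
      perm_symm_apply]
    obtain ⟨w2, h2, c2, hc2, e2⟩ := key _ (fun t ht => inv_mem (gen_mem_sub ht)) a _ w1 h1
    exact ⟨w2, h2, c2 * c1, mul_mem hc2 hc1, by rw [e2, e1, mul_assoc]⟩

/-- A positive coordinate makes a root positive. -/
lemma nonneg_of_coord {v : M.Group} {i j : B} (h : 0 < geo M.toCoxeterSystem v (ee i) j) :
    0 ≤ geo M.toCoxeterSystem v (ee i) := by
  rcases nonneg_or_nonpos M.toCoxeterSystem v i with h1 | h1
  · exact h1
  · exfalso
    have := h1 j
    simp only [Pi.zero_apply] at this
    linarith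

/-- The stabilizer of a simple root outside `V`. -/
lemma mem_of_fixed (V : Set B) {t : B} (ht : t ∉ V) (n : ℕ) :
    ∀ v : M.Group, M.toCoxeterSystem.length v ≤ n → v ∈ subW M V →
      geo M.toCoxeterSystem v (ee t) = ee t → v ∈ subW M {s | s ∈ V ∧ M s t = 2} := by
  induction n with
  | zero =>
    intro v hv _ _
    have : v = 1 := M.toCoxeterSystem.length_eq_zero_iff.mp (by omega)
    rw [this]; exact one_mem _
  | succ n ih =>
    intro v hv hvV hfix
    by_cases h1 : v = 1
    · rw [h1]; exact one_mem _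
    obtain ⟨s, hs⟩ := M.toCoxeterSystem.exists_rightDescent_of_ne_one h1
    have hs' : M.toCoxeterSystem.length (v * M.toCoxeterSystem.simple s) + 1 =
        M.toCoxeterSystem.length v := M.toCoxeterSystem.isRightDescent_iff.mp hs
    have hsV : s ∈ V := by
      by_contra hsV
      have h2 := geo_nonpos M.toCoxeterSystem v s (by omega)
      have h3 := h2 s
      rw [geo_coord hvV hsV] at h3
      simp at h3
      linarith
    set v' := v * M.toCoxeterSystem.simple s with hv'
    have hv'V : v' ∈ subW M V := mul_mem hvV (simple_mem_subW hsV)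
    have hvv : v = v' * M.toCoxeterSystem.simple s := by
      rw [hv', M.toCoxeterSystem.simple_mul_simple_cancel_right]
    have hst : s ≠ t := fun h => ht (h ▸ hsV)
    have hpos1 : 0 ≤ geo M.toCoxeterSystem v' (ee s) := by
      apply geo_nonneg
      rw [← hvv]; omega
    have hpos2 : 0 ≤ geo M.toCoxeterSystem v' (ee t) := by
      apply nonneg_of_coord (j := t)
      rw [geo_coord hv'V ht]
      simp
    rw [hvv, map_mul, Module.End.mul_apply, geo_simple, sg_ee, map_add, map_smul] at hfix
    have hcc : 0 ≤ cc M t s := cc_nonneg (Ne.symm hst)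
    have hboth : ∀ b, b ≠ t → geo M.toCoxeterSystem v' (ee t) b = 0 ∧
        2 * cc M t s * geo M.toCoxeterSystem v' (ee s) b = 0 := by
      intro b hb
      have h4 := congrFun hfix b
      simp only [Pi.add_apply, Pi.smul_apply, smul_eq_mul] at h4
      have h5 : (ee t : B → ℝ) b = 0 := Pi.single_eq_of_ne hb _
      rw [h5] at h4
      have h6 := hpos1 b
      have h7 := hpos2 b
      simp only [Pi.zero_apply] at h6 h7
      have h8 : 0 ≤ 2 * cc M t s * geo M.toCoxeterSystem v' (ee s) b := by positivity
      constructor <;> linarith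
    have hfix' : geo M.toCoxeterSystem v' (ee t) = ee t := by
      funext b
      by_cases hb : b = t
      · subst hb; exact geo_coord hv'V ht _
      · rw [(hboth b hb).1]; simp [ee, Pi.single_apply, hb]
    have hst2 : M s t = 2 := by
      by_contra hne
      have h4 := cc_ne_zero (M := M) (Ne.symm hst) (by rw [M.symmetric]; exact hne)
      apply geo_ee_ne_zero M.toCoxeterSystem v' s
      funext b
      by_cases hb : b = t
      · subst hb
        rw [geo_coord hv'V ht]
        simp [ee, Pi.single_apply, Ne.symm hst]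
      · have h5 := (hboth b hb).2
        rcases mul_eq_zero.mp h5 with h6 | h6
        · exfalso; apply h4; linarith
        · exact h6
    have h6 := ih v' (by omega) hv'V hfix'
    rw [hvv]
    exact mul_mem h6 (simple_mem_subW ⟨hsV, hst2⟩)

/-- The element lies in no proper parabolic subgroup of the parabolic subgroup of `V`. -/
def Full (M : CoxeterMatrix B) (V : Finset B) (w : M.Group) : Prop :=
  ∀ V' : Finset B, V' ⊂ V → w ∉ subW M (V' : Set B)

lemma Full.inv {V : Finset B} {w : M.Group} (h : Full M V w) : Full M V w⁻¹ :=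
  fun V' hV' hw => h V' hV' (by simpa using inv_mem hw)

/-- The generators outside `V` which commute with all generators in `V` by a relation. -/
def perp (M : CoxeterMatrix B) (V : Finset B) : Set B := {t | t ∉ V ∧ ∀ s ∈ V, M s t = 2}

lemma Full.perp_of_fixed {V : Finset B} {w : M.Group} (h : Full M V w)
    (hw : w ∈ subW M (V : Set B)) {t : B} (ht : t ∉ V)
    (hfix : geo M.toCoxeterSystem w (ee t) = ee t) : t ∈ perp M V := by
  refine ⟨ht, ?_⟩
  intro s hs
  by_contra hne
  have h1 := mem_of_fixed (M := M) (V : Set B) (t := t) (by simpa using ht) _ w le_rfl hw hfix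
  refine h (V.filter fun s => M s t = 2) ?_ ?_
  · rw [Finset.ssubset_iff_of_subset (Finset.filter_subset _ _)]
    exact ⟨s, hs, by simp [hne]⟩
  · refine subW_mono ?_ h1
    intro b hb
    simpa using hb

lemma commute_block {V : Finset B} {z g : Artin M} (hz : z ∈ sub M (perp M V))
    (hg : g ∈ sub M (V : Set B)) : Commute g z := by
  induction hg using Subgroup.closure_induction with
  | mem x hx =>
    obtain ⟨s, hs, rfl⟩ := hx
    apply commute_of_mem_sub_lk
    refine sub_mono ?_ hz
    intro t ht
    exact ht.2 s hs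
  | one => exact Commute.one_left _
  | mul x y _ _ hx hy => exact hx.mul_left hy
  | inv x _ hx => exact hx.inv_left

lemma eq_one_of_both {V : Finset B} {w : M.Group} (h1 : w ∈ subW M (V : Set B))
    (h2 : w ∈ subW M {b | b ∉ V}) : w = 1 := by
  apply geo_injective M.toCoxeterSystem
  apply LinearMap.ext
  intro v
  rw [map_one, Module.End.one_apply]
  funext b
  by_cases hb : b ∈ V
  · exact geo_coord h2 (by simpa using hb) v
  · exact geo_coord h1 (by simpa using hb) v

/-- The two parabolic subgroups have trivial intersection. -/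
lemma eq_one_of_mem {V : Finset B} {y : Artin M} (h1 : y ∈ sub M (V : Set B))
    (h2 : y ∈ sub M {b | b ∉ V}) : y = 1 := by
  rw [← range_par_cm] at h2
  obtain ⟨y', rfl⟩ := h2
  have h3 := act_par M (cm V) y' 1
  have h4 := (act_block V h1 (base M (cm V), 1) (by simp [base, one_mem])).2
  rw [h3] at h4
  simp only [mul_one] at h4
  rw [h4, map_one]

/-- **Two blocks.** -/
theorem two_blocks {V : Finset B} {g h x : Artin M} (hg : g ∈ sub M (V : Set B))
    (hh : h ∈ sub M (V : Set B)) (hx : x ∈ sub M {b | b ∉ V})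
    (hfull : Full M V (toW M g) ∨ Full M V (toW M h)) (hmem : g * x * h ∈ sub M {b | b ∉ V}) :
    h = g⁻¹ ∧ x ∈ sub M (perp M V) := by
  rw [← range_par_cm] at hx hmem
  obtain ⟨x', rfl⟩ := hx
  obtain ⟨z', hz⟩ := hmem
  have h1 := act_par M (cm V) z' 1
  rw [hz, mul_one, map_mul, map_mul, Equiv.Perm.mul_apply, Equiv.Perm.mul_apply] at h1
  have hb : (base M (cm V)).1 ∈ subW M (V : Set B) := by simp [base, one_mem]
  obtain ⟨a1, a2⟩ := act_block V hh (base M (cm V), 1) hb
  obtain ⟨b1, b2⟩ := act_block V (inv_mem hg) (base M (cm V), z') hb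
  have h2 : act M (cm V) (par M (cm V) x') (act M (cm V) h (base M (cm V), 1)) =
      act M (cm V) g⁻¹ (base M (cm V), z') := by
    rw [map_inv, ← h1]
    exact (Equiv.symm_apply_apply _ _).symm
  have hv₀ : toW M h ∈ subW M (V : Set B) := toW_mem hh
  obtain ⟨w', c1, c, hc, c2⟩ := act_rest V hv₀ x' (act M (cm V) h (base M (cm V), 1)) 1
    (by rw [a1]; simp [base])
  rw [h2] at c1 c2
  rw [b1] at c1
  rw [b2, a2] at c2
  simp only [base, mul_one] at c1 c2
  -- the states agree
  have e1 : parW M (cm V) w' = toW M g⁻¹ * (toW M h)⁻¹ := by rw [c1]; group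
  have e2 : parW M (cm V) w' = 1 := by
    apply eq_one_of_both (V := V)
    · rw [e1]; exact mul_mem (toW_mem (inv_mem hg)) (inv_mem hv₀)
    · exact parW_mem V w'
  rw [e2, one_mul] at c1
  have hfull' : Full M V (toW M h) := by
    rcases hfull with h3 | h3
    · rw [← c1, map_inv]; exact h3.inv
    · exact h3
  have hzperp : par M (cm V) z' ∈ sub M (perp M V) := by
    rw [c2]
    clear c2
    induction hc using Subgroup.closure_induction with
    | mem y hy =>
      obtain ⟨t, ht, rfl⟩ := hy
      rw [par_gen]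
      exact gen_mem_sub (hfull'.perp_of_fixed hv₀ t.2 ht)
    | one => rw [map_one]; exact one_mem _
    | mul x y _ _ hx hy => rw [map_mul]; exact mul_mem hx hy
    | inv x _ hx => rw [map_inv]; exact inv_mem hx
  have hzT : par M (cm V) z' ∈ sub M {b | b ∉ V} := sub_mono (fun t ht => ht.1) hzperp
  have e3 : par M (cm V) x' = par M (cm V) z' * (g⁻¹ * h⁻¹) := by
    have hcom : g⁻¹ * par M (cm V) z' = par M (cm V) z' * g⁻¹ :=
      (commute_block hzperp (inv_mem hg)).eq
    rw [← mul_assoc, ← hcom, hz]
    group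
  have e4 : g⁻¹ * h⁻¹ = 1 := by
    apply eq_one_of_mem (V := V)
    · exact mul_mem (inv_mem hg) (inv_mem hh)
    · have e5 : g⁻¹ * h⁻¹ = (par M (cm V) z')⁻¹ * par M (cm V) x' := by rw [e3]; group
      rw [e5]
      apply mul_mem (inv_mem hzT)
      rw [← range_par_cm]
      exact ⟨x', rfl⟩
  refine ⟨?_, ?_⟩
  · have h5 : h * g = 1 := by rw [← mul_inv_rev] at e4; exact inv_eq_one.mp e4
    exact eq_inv_of_mul_eq_one_left h5
  · rw [e3, e4, mul_one]; exact hzperp

end Pool.Agent.Q220.VL
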