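import Pool.Agent.Q220.VL.Two

set_option autoImplicit false
set_option linter.unusedSectionVars false
set_option linter.unusedSimpArgs false
set_option linter.unusedVariables false

/-!
# A deformation of the geometric representation

For every real number `r` the Artin group acts on `ℝ ^ B`, a generator as a reflection with the
eigenvalue `- exp (2 r)`. For `r = 0` this is the geometric representation of the Coxeter group.
-/

namespace Pool.Agent.Q220.VL

open Pool.Agent.Helper741 CoxeterSystem Real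

variable {B : Type*} [Fintype B] [DecidableEq B] (M : CoxeterMatrix B)

/-- The deformed coroot. -/
noncomputable def pcr (r : ℝ) (i : B) : Module.Dual ℝ (B → ℝ) :=
  exp r • coroot M i + (1 - exp r) ^ 2 • LinearMap.proj i

lemma pcr_self (r : ℝ) (i : B) : pcr M r i (ee i) = 1 + exp r ^ 2 := by
  simp [pcr]
  ring

lemma pcr_ne (r : ℝ) {i j : B} (h : i ≠ j) : pcr M r i (ee j) = -2 * exp r * cc M i j := by
  simp [pcr, h]
  ring

/-- The deformed reflection. -/
noncomputable def df (r : ℝ) (i : B) : Module.End ℝ (B → ℝ) :=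
  Module.preReflection (ee i) (pcr M r i)

lemma df_apply (r : ℝ) (i : B) (v : B → ℝ) : df M r i v = v - pcr M r i v • ee i := rfl

/-- The inverse. -/
noncomputable def dfi (r : ℝ) (i : B) : Module.End ℝ (B → ℝ) :=
  Module.preReflection (ee i) ((exp r ^ 2)⁻¹ • pcr M r i)

lemma dfi_apply (r : ℝ) (i : B) (v : B → ℝ) :
    dfi M r i v = v - ((exp r ^ 2)⁻¹ * pcr M r i v) • ee i := rfl

lemma dfi_df (r : ℝ) (i : B) (v : B → ℝ) : dfi M r i (df M r i v) = v := by
  have h : exp r ≠ 0 := (exp_pos r).ne'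
  rw [dfi_apply, df_apply, map_sub, map_smul, pcr_self, sub_sub, ← add_smul]
  have e : pcr M r i v + (exp r ^ 2)⁻¹ * (pcr M r i v - pcr M r i v • (1 + exp r ^ 2)) = 0 := by
    rw [smul_eq_mul]
    field_simp
    ring
  rw [e, zero_smul, sub_zero]

lemma df_dfi (r : ℝ) (i : B) (v : B → ℝ) : df M r i (dfi M r i v) = v := by
  have h : exp r ≠ 0 := (exp_pos r).ne'
  rw [dfi_apply, df_apply, map_sub, map_smul, pcr_self, sub_sub, ← add_smul]
  have e : (exp r ^ 2)⁻¹ * pcr M r i v +
      (pcr M r i v - ((exp r ^ 2)⁻¹ * pcr M r i v) • (1 + exp r ^ 2)) = 0 := by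
    rw [smul_eq_mul]
    field_simp
    ring
  rw [e, zero_smul, sub_zero]

/-- The deformed reflection as a unit. -/
noncomputable def dfu (r : ℝ) (i : B) : (Module.End ℝ (B → ℝ))ˣ where
  val := df M r i
  inv := dfi M r i
  val_inv := LinearMap.ext fun v => df_dfi M r i v
  inv_val := LinearMap.ext fun v => dfi_df M r i v

lemma df_ee_self (r : ℝ) (i : B) : df M r i (ee i) = (-exp r ^ 2) • ee i := by
  rw [df_apply, pcr_self]
  module

lemma df_ee (r : ℝ) {i j : B} (h : i ≠ j) :
    df M r i (ee j) = ee j + (2 * exp r * cc M i j) • ee i := by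
  rw [df_apply, pcr_ne M r h]
  module

lemma alt_df (r : ℝ) {x y : B} (h : x ≠ y) (k : ℕ) :
    alt (df M r x) (df M r y) k (ee (if Even k then x else y)) =
      (exp r ^ k * qs (cc M x y) (k + 1)) • ee x +
        (exp r ^ k / exp r * qs (cc M x y) k) • ee y := by
  have hp : exp r ≠ 0 := (exp_pos r).ne'
  induction k generalizing x y with
  | zero => simp
  | succ k ih =>
    rw [alt_succ, Module.End.mul_apply]
    have e1 : (if Even (k + 1) then x else y) = (if Even k then y else x) := by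
      by_cases hk : Even k
      · have hk1 : ¬ Even (k + 1) := by simpa [Nat.even_add_one] using hk
        rw [if_pos hk, if_neg hk1]
      · have hk1 : Even (k + 1) := by simpa [Nat.even_add_one] using hk
        rw [if_neg hk, if_pos hk1]
    rw [e1, ih h.symm, map_add, map_smul, map_smul, df_ee M r h, df_ee_self, cc_symm M y x]
    have e2 : exp r ^ (k + 1) * qs (cc M x y) (k + 1 + 1) =
        exp r ^ k * qs (cc M x y) (k + 1) * (2 * exp r * cc M x y) +
          exp r ^ k / exp r * qs (cc M x y) k * (-exp r ^ 2) := by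
      rw [qs_add_two]
      field_simp
      ring
    have e3 : exp r ^ (k + 1) / exp r * qs (cc M x y) (k + 1) =
        exp r ^ k * qs (cc M x y) (k + 1) := by
      rw [pow_succ]
      field_simp
    rw [e2, e3]
    module

lemma alt_fix (r : ℝ) (x y : B) {v : B → ℝ} (hx : pcr M r x v = 0) (hy : pcr M r y v = 0) (k : ℕ) :
    alt (df M r x) (df M r y) k v = v := by
  induction k generalizing x y with
  | zero => simp
  | succ k ih =>
    rw [alt_succ, Module.End.mul_apply, ih y x hy hx, df_apply, hx, zero_smul, sub_zero]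

lemma qs_m {x y : B} (h : x ≠ y) (h0 : M x y ≠ 0) :
    qs (cc M x y) (M x y) = 0 ∧ qs (cc M x y) (M x y + 1) = -1 ∧
      qs (cc M x y) (M x y - 1) = 1 := by
  have hs := sin_pos_of_ne M h h0
  have hm : (M x y : ℝ) ≠ 0 := by exact_mod_cast h0
  have h2 := two_le_of_ne M h h0
  have hc : ∀ z : ℝ, z * sin (π / (M x y : ℝ)) = 0 → z = 0 := fun z hz =>
    (mul_eq_zero.mp hz).resolve_right hs.ne'
  refine ⟨?_, ?_, ?_⟩
  · have h1 := qs_sin (π / (M x y : ℝ)) (M x y)
    have h3 : ((M x y : ℕ) : ℝ) * (π / (M x y : ℝ)) = π := by field_simp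
    rw [h3, sin_pi] at h1
    exact hc _ h1
  · have h1 := qs_sin (π / (M x y : ℝ)) (M x y + 1)
    have h3 : ((M x y + 1 : ℕ) : ℝ) * (π / (M x y : ℝ)) = π / (M x y : ℝ) + π := by
      push_cast; field_simp; ring
    rw [h3, sin_add_pi] at h1
    have := hc (qs (cc M x y) (M x y + 1) + 1) (by rw [add_mul, one_mul]; unfold cc; linarith)
    linarith
  · have h1 := qs_sin (π / (M x y : ℝ)) (M x y - 1)
    have h3 : ((M x y - 1 : ℕ) : ℝ) * (π / (M x y : ℝ)) = π - π / (M x y : ℝ) := by
      rw [Nat.cast_sub (by omega)]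
      field_simp
      push_cast
      ring
    rw [h3, sin_pi_sub] at h1
    have := hc (qs (cc M x y) (M x y - 1) - 1) (by rw [sub_mul, one_mul]; unfold cc; linarith)
    linarith

lemma alt_first (r : ℝ) {x y : B} (h : x ≠ y) (h0 : M x y ≠ 0) :
    alt (df M r x) (df M r y) (M x y) (ee (if Even (M x y) then x else y)) =
      (-exp r ^ (M x y)) • ee x := by
  obtain ⟨q1, q2, -⟩ := qs_m M h h0
  rw [alt_df M r h, q1, q2]
  module

lemma alt_second (r : ℝ) {x y : B} (h : x ≠ y) (h0 : M x y ≠ 0) :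
    alt (df M r x) (df M r y) (M x y) (ee (if Even (M x y) then y else x)) =
      (-exp r ^ (M x y)) • ee y := by
  obtain ⟨q1, -, q3⟩ := qs_m M h h0
  have h2 := two_le_of_ne M h h0
  have hp : exp r ≠ 0 := (exp_pos r).ne'
  obtain ⟨k, hk⟩ : ∃ k, M x y = k + 1 := ⟨M x y - 1, by omega⟩
  have e0 : (if Even (k + 1) then y else x) = (if Even k then x else y) := by
    by_cases hk : Even k
    · have hk1 : ¬ Even (k + 1) := by simpa [Nat.even_add_one] using hk
      rw [if_pos hk, if_neg hk1]
    · have hk1 : Even (k + 1) := by simpa [Nat.even_add_one] using hk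
      rw [if_neg hk, if_pos hk1]
  rw [hk] at q1 q3 ⊢
  simp only [Nat.add_sub_cancel] at q3
  have e1 : (if Even k then df M r x else df M r y) = df M r (if Even k then x else y) := by
    split_ifs <;> rfl
  rw [alt_succ', e1, Module.End.mul_apply, e0, df_ee_self, map_smul, alt_df M r h, q1, q3]
  have e2 : exp r ^ (k + 1) = exp r ^ 2 * (exp r ^ k / exp r) := by
    rw [pow_succ]
    field_simp
  rw [e2]
  module

lemma df_rel (r : ℝ) (x y : B) :
    alt (df M r x) (df M r y) (M x y) = alt (df M r y) (df M r x) (M x y) := by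
  by_cases h : x = y
  · subst h; rfl
  by_cases h0 : M x y = 0
  · rw [h0, alt_zero, alt_zero]
  have h0' : M y x ≠ 0 := by rwa [M.symmetric]
  have hp : 0 < exp r := exp_pos r
  apply LinearMap.ext
  intro v
  have hs := sin_pos_of_ne M h h0
  have hc1 : cc M x y ^ 2 < 1 := by
    have : sin (π / (M x y : ℝ)) ^ 2 + cc M x y ^ 2 = 1 := sin_sq_add_cos_sq _
    nlinarith
  set c := cc M x y with hc
  set p := exp r with hpd
  have hD : 0 < (1 + p ^ 2) ^ 2 - (2 * p * c) ^ 2 := by
    have h3 : p ^ 2 * c ^ 2 ≤ p ^ 2 * 1 := by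
      apply mul_le_mul_of_nonneg_left hc1.le (by positivity)
    have h4 : p ^ 2 * c ^ 2 < p ^ 2 * 1 := by
      apply mul_lt_mul_of_pos_left hc1 (by positivity)
    nlinarith [sq_nonneg (1 - p ^ 2)]
  set P := pcr M r x v with hP
  set R := pcr M r y v with hR
  set a := ((1 + p ^ 2) * P + 2 * p * c * R) / ((1 + p ^ 2) ^ 2 - (2 * p * c) ^ 2) with ha
  set b := (2 * p * c * P + (1 + p ^ 2) * R) / ((1 + p ^ 2) ^ 2 - (2 * p * c) ^ 2) with hb
  set v' := v - a • ee x - b • ee y with hv'
  have ha' : a * ((1 + p ^ 2) ^ 2 - (2 * p * c) ^ 2) = (1 + p ^ 2) * P + 2 * p * c * R :=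
    div_mul_cancel₀ _ hD.ne'
  have hb' : b * ((1 + p ^ 2) ^ 2 - (2 * p * c) ^ 2) = 2 * p * c * P + (1 + p ^ 2) * R :=
    div_mul_cancel₀ _ hD.ne'
  have e1 : pcr M r x v' = 0 := by
    rw [hv', map_sub, map_sub, map_smul, map_smul, pcr_self, pcr_ne M r h, ← hP, ← hc, ← hpd,
      smul_eq_mul, smul_eq_mul]
    apply mul_left_cancel₀ hD.ne'
    linear_combination (-(1 + p ^ 2)) * ha' + (2 * p * c) * hb'
  have e2 : pcr M r y v' = 0 := by
    rw [hv', map_sub, map_sub, map_smul, map_smul, pcr_self, pcr_ne M r (Ne.symm h), cc_symm M y x,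
      ← hR, ← hc, ← hpd, smul_eq_mul, smul_eq_mul]
    apply mul_left_cancel₀ hD.ne'
    linear_combination (2 * p * c) * ha' + (-(1 + p ^ 2)) * hb'
  have hv : v = v' + a • ee x + b • ee y := by rw [hv']; abel
  have hboth : ∀ z, z = x ∨ z = y → alt (df M r x) (df M r y) (M x y) (ee z) =
      alt (df M r y) (df M r x) (M x y) (ee z) := by
    have f1 := alt_first M r h h0
    have f2 := alt_second M r h h0
    have g1 := alt_first M r (Ne.symm h) h0'
    have g2 := alt_second M r (Ne.symm h) h0'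
    rw [M.symmetric y x] at g1 g2
    by_cases hm : Even (M x y)
    · rw [if_pos hm] at f1 f2 g1 g2
      rintro z (rfl | rfl)
      · rw [f1, g2]
      · rw [f2, g1]
    · rw [if_neg hm] at f1 f2 g1 g2
      rintro z (rfl | rfl)
      · rw [f2, g1]
      · rw [f1, g2]
  rw [hv, map_add, map_add, map_add, map_add, map_smul, map_smul, map_smul, map_smul,
    alt_fix M r x y e1 e2, alt_fix M r y x e2 e1, hboth x (Or.inl rfl), hboth y (Or.inr rfl)]

/-- The deformed representation. -/
noncomputable def dr (r : ℝ) : Artin M →* (Module.End ℝ (B → ℝ))ˣ :=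
  Artin.lift (dfu M r) fun i j => by
    apply Units.ext
    have h : ∀ a b : (Module.End ℝ (B → ℝ))ˣ, ∀ m, ((alt a b m : (Module.End ℝ (B → ℝ))ˣ) :
        Module.End ℝ (B → ℝ)) = alt (a : Module.End ℝ (B → ℝ)) b m := fun a b m =>
      map_alt (Units.coeHom (Module.End ℝ (B → ℝ))) a b m
    rw [h, h]
    exact df_rel M r i j

@[simp] lemma dr_gen (r : ℝ) (i : B) : dr M r (Artin.gen M i) = dfu M r i := Artin.lift_gen _ _ i

/-- The action on vectors. -/
noncomputable def ap (r : ℝ) (x : Artin M) (v : B → ℝ) : B → ℝ :=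
  ((dr M r x : (Module.End ℝ (B → ℝ))ˣ) : Module.End ℝ (B → ℝ)) v

variable {M}

lemma ap_one (r : ℝ) (v : B → ℝ) : ap M r 1 v = v := by simp [ap]

lemma ap_mul (r : ℝ) (x y : Artin M) (v : B → ℝ) : ap M r (x * y) v = ap M r x (ap M r y v) := by
  simp [ap, map_mul]

lemma ap_inv_ap (r : ℝ) (x : Artin M) (v : B → ℝ) : ap M r x⁻¹ (ap M r x v) = v := by
  rw [← ap_mul, inv_mul_cancel, ap_one]

lemma ap_ap_inv (r : ℝ) (x : Artin M) (v : B → ℝ) : ap M r x (ap M r x⁻¹ v) = v := by
  rw [← ap_mul, mul_inv_cancel, ap_one]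

lemma ap_smul (r : ℝ) (x : Artin M) (a : ℝ) (v : B → ℝ) : ap M r x (a • v) = a • ap M r x v :=
  map_smul _ _ _

lemma ap_add (r : ℝ) (x : Artin M) (v w : B → ℝ) : ap M r x (v + w) = ap M r x v + ap M r x w :=
  map_add _ _ _

lemma ap_gen (r : ℝ) (i : B) (v : B → ℝ) : ap M r (Artin.gen M i) v = df M r i v := by
  simp [ap, dfu]

lemma ap_gen_inv (r : ℝ) (i : B) (v : B → ℝ) : ap M r (Artin.gen M i)⁻¹ v = dfi M r i v := by
  simp [ap, dfu]

/-- Eigenvectors. -/
lemma ap_zpow (r : ℝ) (x : Artin M) {μ : ℝ} (hμ : μ ≠ 0) {v : B → ℝ} (h : ap M r x v = μ • v)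
    (c : ℤ) : ap M r (x ^ c) v = μ ^ c • v := by
  induction c using Int.induction_on with
  | zero => simp [ap_one]
  | succ k ih => rw [zpow_add_one, ap_mul, h, ap_smul, ih, smul_smul, zpow_add_one₀ hμ, mul_comm]
  | pred k ih =>
    have h1 : ap M r x⁻¹ v = μ⁻¹ • v := by
      have h2 : ap M r x⁻¹ (ap M r x v) = ap M r x⁻¹ (μ • v) := by rw [h]
      rw [ap_inv_ap, ap_smul] at h2
      conv_rhs => rw [h2]
      rw [smul_smul, inv_mul_cancel₀ hμ, one_smul]
    rw [zpow_sub_one, ap_mul, h1, ap_smul, ih, smul_smul, zpow_sub_one₀ hμ, mul_comm]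

/-- A power of a generator. -/
lemma ap_gen_zpow (r : ℝ) (i : B) (c : ℤ) (v : B → ℝ) :
    ap M r (Artin.gen M i ^ c) v =
      v + (pcr M r i v / (1 + exp r ^ 2) * ((-exp r ^ 2) ^ c - 1)) • ee i := by
  have hp : 0 < exp r := exp_pos r
  have hpos : (1 + exp r ^ 2) ≠ 0 := by positivity
  have hμ : (-exp r ^ 2) ≠ 0 := by
    have : 0 < exp r ^ 2 := by positivity
    linarith
  set β := pcr M r i v / (1 + exp r ^ 2) with hβ
  have e1 : ap M r (Artin.gen M i) (v - β • ee i) = (1 : ℝ) • (v - β • ee i) := by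
    rw [ap_gen, df_apply, one_smul]
    have : pcr M r i (v - β • ee i) = 0 := by
      rw [map_sub, map_smul, pcr_self, hβ, smul_eq_mul]
      field_simp
      ring
    rw [this, zero_smul, sub_zero]
  have e2 : ap M r (Artin.gen M i) (ee i) = (-exp r ^ 2) • ee i := by
    rw [ap_gen, df_ee_self]
  have e3 := ap_zpow r _ one_ne_zero e1 c
  have e4 := ap_zpow r _ hμ e2 c
  have hv : v = (v - β • ee i) + β • ee i := by abel
  conv_lhs => rw [hv]
  rw [ap_add, ap_smul, e3, e4, one_zpow]
  module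

lemma neg_zpow_ne_one {r : ℝ} (hr : r ≠ 0) {c : ℤ} (hc : c ≠ 0) : (-exp r ^ 2) ^ c ≠ 1 := by
  intro h
  have h1 : |(-exp r ^ 2) ^ c| = 1 := by rw [h, abs_one]
  rw [abs_zpow, abs_neg, abs_of_pos (by positivity : (0 : ℝ) < exp r ^ 2), ← exp_nat_mul] at h1
  have h2 : exp (((2 : ℕ) : ℝ) * r) ≠ 1 := by
    rw [Ne, exp_eq_one_iff]
    apply mul_ne_zero
    · norm_num
    · exact hr
  exact hc ((zpow_eq_one_iff_right₀ (exp_pos _).le h2).mp h1)

/-- The generators other than `s` do not change the coordinate `s`. -/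
lemma ap_coord (r : ℝ) {s : B} {x : Artin M} (hx : x ∈ sub M {b | b ≠ s}) (v : B → ℝ) :
    ap M r x v s = v s := by
  induction hx using Subgroup.closure_induction generalizing v with
  | mem x hx =>
    obtain ⟨t, ht, rfl⟩ := hx
    have h3 : s ≠ t := fun h => ht h.symm
    rw [ap_gen, df_apply]
    simp [ee, Pi.single_apply, h3]
  | one => rw [ap_one]
  | mul x y _ _ hx hy => rw [ap_mul, hx, hy]
  | inv x _ hx =>
    have := hx (ap M r x⁻¹ v)
    rw [ap_ap_inv] at this
    exact this.symm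

/-- The Coxeter group as a quotient. -/
noncomputable def toW (M : CoxeterMatrix B) : Artin M →* M.Group :=
  Artin.lift M.toCoxeterSystem.simple fun i j =>
    alt_comm_of_pow (M.toCoxeterSystem.simple_mul_simple_self i)
      (M.toCoxeterSystem.simple_mul_simple_self j) (M.toCoxeterSystem.simple_mul_simple_pow i j)

lemma ap_zero (x : Artin M) (v : B → ℝ) : ap M 0 x v = geo M.toCoxeterSystem (toW M x) v := by
  have h : dr M 0 = (geo M.toCoxeterSystem).toHomUnits.comp (toW M) := by
    apply Artin.hom_ext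
    intro i
    apply Units.ext
    rw [dr_gen]
    apply LinearMap.ext
    intro v
    change df M 0 i v = geo M.toCoxeterSystem (toW M (Artin.gen M i)) v
    rw [toW, Artin.lift_gen, geo_simple, sg_apply, df_apply]
    simp [pcr]
  rw [ap, h]
  rfl

lemma continuous_pcr (i : B) {u : ℝ → B → ℝ} (hu : Continuous u) :
    Continuous fun r => pcr M r i (u r) := by
  have h : (fun r => pcr M r i (u r)) = fun r => exp r * (∑ j, -2 * cc M i j * u r j) +
      (1 - exp r) ^ 2 * u r i := by
    funext r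
    simp only [pcr, LinearMap.add_apply, LinearMap.smul_apply, smul_eq_mul, LinearMap.proj_apply,
      coroot_apply]
  rw [h]
  have hu' : ∀ j, Continuous fun r => u r j := fun j => (continuous_apply j).comp hu
  have := hu' i
  fun_prop

lemma continuous_ap (x : Artin M) : ∀ {u : ℝ → B → ℝ}, Continuous u →
    Continuous fun r => ap M r x (u r) := by
  have hx : x ∈ Subgroup.closure (Set.range (Artin.gen M)) := by
    rw [Artin.closure_range_gen]; trivial
  induction hx using Subgroup.closure_induction_left with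
  | one =>
    intro u hu
    simp only [ap_one]
    exact hu
  | mul_left x hx y _ ih =>
    obtain ⟨i, rfl⟩ := hx
    intro u hu
    have h1 := ih hu
    simp only [ap_mul, ap_gen, df_apply]
    exact h1.sub ((continuous_pcr i h1).smul continuous_const)
  | inv_mul_cancel x hx y _ ih =>
    obtain ⟨i, rfl⟩ := hx
    intro u hu
    have h1 := ih hu
    simp only [ap_mul, ap_gen_inv, dfi_apply]
    have h2 : Continuous fun r : ℝ => (exp r ^ 2)⁻¹ := by
      apply Continuous.inv₀
      · fun_prop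
      · intro r; positivity
    exact h1.sub ((h2.mul (continuous_pcr i h1)).smul continuous_const)

lemma cc_nonneg {i j : B} (h : i ≠ j) : 0 ≤ cc M i j := by
  unfold cc
  apply cos_nonneg_of_mem_Icc
  constructor
  · have : 0 ≤ π / (M i j : ℝ) := by positivity
    linarith [pi_pos]
  · by_cases h0 : M i j = 0
    · rw [h0]
      simp
      positivity
    · have h2 := two_le_of_ne M h h0
      have h2' : (2 : ℝ) ≤ (M i j : ℝ) := by exact_mod_cast h2
      exact div_le_div_of_nonneg_left pi_pos.le (by norm_num) h2'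

/-- **The commutator of a power of `s` with an element in which `t` has one syllable.** -/
theorem not_commute {s t : B} (hst : s ≠ t) (h2 : M s t ≠ 2) {y₀ y₁ : Artin M}
    (h₀ : y₀ ∈ sub M {b | b ≠ s ∧ b ≠ t}) (h₁ : y₁ ∈ sub M {b | b ≠ s ∧ b ≠ t}) {a c : ℤ}
    (ha : a ≠ 0) (hc : c ≠ 0) :
    ¬ Commute (Artin.gen M s ^ a) (y₀ * Artin.gen M t ^ c * y₁) := by
  intro hcomm
  have hs0 : y₀ ∈ sub M {b | b ≠ s} := sub_mono (fun b hb => hb.1) h₀
  have ht0 : y₀ ∈ sub M {b | b ≠ t} := sub_mono (fun b hb => hb.2) h₀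
  have hs1 : y₁ ∈ sub M {b | b ≠ s} := sub_mono (fun b hb => hb.1) h₁
  have ht1 : y₁ ∈ sub M {b | b ≠ t} := sub_mono (fun b hb => hb.2) h₁
  have key : ∀ r : ℝ, r ≠ 0 → pcr M r t (ap M r y₁ (ee s)) = 0 := by
    intro r hr
    have hp : 0 < exp r := exp_pos r
    have hpos : (1 + exp r ^ 2) ≠ 0 := by positivity
    have hμ : (-exp r ^ 2) ≠ 0 := by
      have : 0 < exp r ^ 2 := by positivity
      linarith
    set u := ap M r (y₀ * Artin.gen M t ^ c * y₁) (ee s) with hu
    -- `u` is an eigenvector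
    have e1 : ap M r (Artin.gen M s ^ a) u = (-exp r ^ 2) ^ a • u := by
      rw [hu, ← ap_mul, hcomm.eq, ap_mul, ap_zpow r _ hμ (by rw [ap_gen, df_ee_self]) a, ap_smul]
    rw [ap_gen_zpow] at e1
    have e2 : u t = 0 := by
      have h3 := congrFun e1 t
      simp only [Pi.add_apply, Pi.smul_apply, ee, Pi.single_apply, (Ne.symm hst), if_false,
        smul_eq_mul, mul_zero, add_zero] at h3
      have h4 := neg_zpow_ne_one hr ha
      have h5 : (1 - (-exp r ^ 2) ^ a) * u t = 0 := by
        rw [sub_mul, one_mul]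
        exact sub_eq_zero.mpr h3
      exact (mul_eq_zero.mp h5).resolve_left (sub_ne_zero.mpr (Ne.symm h4))
    rw [hu, ap_mul, ap_mul, ap_coord r ht0, ap_gen_zpow] at e2
    have e3 : ap M r y₁ (ee s) t = 0 := by
      rw [ap_coord r ht1]
      simp [ee, Pi.single_apply, Ne.symm hst]
    simp only [Pi.add_apply, Pi.smul_apply, e3, zero_add, ee, Pi.single_eq_same, smul_eq_mul,
      mul_one] at e2
    rcases mul_eq_zero.mp e2 with h3 | h3
    · rw [div_eq_zero_iff] at h3
      exact h3.resolve_right hpos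
    · exact absurd (sub_eq_zero.mp h3) (neg_zpow_ne_one hr hc)
  -- the limit
  have hcont : Continuous fun r => pcr M r t (ap M r y₁ (ee s)) :=
    continuous_pcr t (continuous_ap y₁ continuous_const)
  have h0 : pcr M 0 t (ap M 0 y₁ (ee s)) = 0 := by
    have h3 : Filter.Tendsto (fun r => pcr M r t (ap M r y₁ (ee s))) (nhdsWithin 0 {0}ᶜ)
        (nhds (pcr M 0 t (ap M 0 y₁ (ee s)))) :=
      (hcont.tendsto 0).mono_left nhdsWithin_le_nhds
    have h4 : Filter.Tendsto (fun r => pcr M r t (ap M r y₁ (ee s))) (nhdsWithin 0 {0}ᶜ)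
        (nhds 0) := by
      apply tendsto_const_nhds.congr'
      filter_upwards [self_mem_nhdsWithin] with r hr
      exact (key r hr).symm
    exact tendsto_nhds_unique h3 h4
  have hsc := ap_coord 0 hs1 (ee s)
  have htc := ap_coord 0 ht1 (ee s)
  rw [ap_zero] at h0 hsc htc
  set u := geo M.toCoxeterSystem (toW M y₁) (ee s) with hu
  have hss : u s = 1 := by rw [hsc]; simp
  have hut : u t = 0 := by rw [htc]; simp [Ne.symm hst]
  have hnn : 0 ≤ u := by
    rcases nonneg_or_nonpos M.toCoxeterSystem (toW M y₁) s with h3 | h3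
    · exact h3
    · exfalso
      have := h3 s
      rw [← hu, hss] at this
      simp at this
      linarith
  have h5 : coroot M t u = 0 := by
    have : pcr M 0 t u = coroot M t u := by simp [pcr]
    rw [← this]; exact h0
  rw [coroot_apply] at h5
  have h6 : ∑ j, -2 * cc M t j * u j ≤ -2 * cc M t s * u s := by
    rw [← Finset.add_sum_erase _ _ (Finset.mem_univ s)]
    have : ∑ j ∈ Finset.univ.erase s, -2 * cc M t j * u j ≤ 0 := by
      apply Finset.sum_nonpos
      intro j _
      by_cases hj : j = t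
      · subst hj; rw [hut, mul_zero]
      · have h7 := cc_nonneg (M := M) (Ne.symm hj)
        have h8 := hnn j
        simp only [Pi.zero_apply] at h8
        nlinarith [mul_nonneg h7 h8]
    linarith
  rw [h5, hss] at h6
  have h7 := cc_nonneg (M := M) (Ne.symm hst)
  have h8 := cc_ne_zero (M := M) (Ne.symm hst) (by rw [M.symmetric]; exact h2)
  have h9 : 0 < cc M t s := lt_of_le_of_ne h7 (Ne.symm h8)
  linarith

end Pool.Agent.Q220.VL
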