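import Pool.Agent.Q220.VL.Par

set_option autoImplicit false
set_option linter.unusedSectionVars false
set_option linter.unusedSimpArgs false
set_option linter.unusedVariables false

/-!
# Van der Lek's theorem for infinite sets of generators
-/

namespace Pool.Agent.Q220.VL

open Pool.Agent.Helper741 CoxeterSystem

variable {A B : Type*} [DecidableEq B] (M : CoxeterMatrix B)

/-- A finite set of generators. -/
abbrev subS (S : Finset B) : {b : B // b ∈ S} ↪ B := Function.Embedding.subtype _

/-- The evaluation in the Artin group of a finite set of generators. -/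
def evalS (S : Finset B) : FreeGroup B →* Artin (comap M (subS S)) :=
  FreeGroup.lift fun b => if h : b ∈ S then Artin.gen _ ⟨b, h⟩ else 1

lemma evalS_of {S : Finset B} {b : B} (h : b ∈ S) :
    evalS M S (FreeGroup.of b) = Artin.gen _ ⟨b, h⟩ := by
  simp [evalS, h]

/-- The words which are trivial for all large finite sets of generators. -/
def kern : Subgroup (FreeGroup B) where
  carrier := {z | ∃ S₀ : Finset B, ∀ S : Finset B, S₀ ⊆ S → evalS M S z = 1}
  one_mem' := ⟨∅, fun S _ => map_one _⟩
  mul_mem' := by
    rintro x y ⟨S₁, h₁⟩ ⟨S₂, h₂⟩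
    refine ⟨S₁ ∪ S₂, fun S hS => ?_⟩
    rw [map_mul, h₁ S (Finset.subset_union_left.trans hS),
      h₂ S (Finset.subset_union_right.trans hS), mul_one]
  inv_mem' := by
    rintro x ⟨S₁, h₁⟩
    refine ⟨S₁, fun S hS => ?_⟩
    rw [map_inv, h₁ S hS, inv_one]

instance kern_normal : (kern M).Normal where
  conj_mem := by
    rintro x ⟨S₁, h₁⟩ g
    refine ⟨S₁, fun S hS => ?_⟩
    rw [map_mul, map_mul, h₁ S hS, mul_one, map_inv, mul_inv_cancel]

lemma rel_mem_kern (i j : B) :
    alt (FreeGroup.of i) (FreeGroup.of j) (M i j) *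
      (alt (FreeGroup.of j) (FreeGroup.of i) (M i j))⁻¹ ∈ kern M := by
  refine ⟨{i, j}, fun S hS => ?_⟩
  have hi : i ∈ S := hS (by simp)
  have hj : j ∈ S := hS (by simp)
  rw [map_mul, map_inv, map_alt, map_alt, evalS_of M hi, evalS_of M hj, mul_inv_eq_one]
  exact Artin.rel (M := comap M (subS S)) ⟨i, hi⟩ ⟨j, hj⟩

/-- **Van der Lek's theorem** for an arbitrary set of generators. -/
theorem par_injective' [Fintype A] [DecidableEq A] (f : A ↪ B) : Function.Injective (par M f) := by
  rw [injective_iff_map_eq_one]
  intro x hx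
  obtain ⟨z, rfl⟩ := PresentedGroup.mk_surjective _ x
  have h1 : par M f (PresentedGroup.mk _ z) =
      (PresentedGroup.mk _ (FreeGroup.map f z) : Artin M) := by
    have h2 : (par M f).comp (PresentedGroup.mk _) =
        (PresentedGroup.mk _).comp (FreeGroup.map f) := by
      apply FreeGroup.ext_hom
      intro a
      change par M f (Artin.gen (comap M f) a) = PresentedGroup.mk _ (FreeGroup.map f (FreeGroup.of a))
      rw [par_gen, FreeGroup.map.of]
      rfl
    exact DFunLike.congr_fun h2 z
  rw [h1, PresentedGroup.mk_eq_one_iff] at hx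
  have h2 : FreeGroup.map f z ∈ kern M := by
    refine (Subgroup.normalClosure_le_normal (N := kern M) ?_) hx
    rintro _ ⟨⟨i, j⟩, rfl⟩
    exact rel_mem_kern M i j
  obtain ⟨S₀, hS₀⟩ := h2
  set S := S₀ ∪ Finset.univ.image f with hS
  have hfS : ∀ a, f a ∈ S := fun a => Finset.mem_union_right _ (Finset.mem_image_of_mem f (Finset.mem_univ a))
  have h3 := hS₀ S Finset.subset_union_left
  let f' : A ↪ {b : B // b ∈ S} := ⟨fun a => ⟨f a, hfS a⟩, fun a b h => f.injective (congrArg Subtype.val h)⟩
  have h4 : par (comap M (subS S)) f' (PresentedGroup.mk _ z) = evalS M S (FreeGroup.map f z) := by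
    have h5 : (par (comap M (subS S)) f').comp (PresentedGroup.mk _) =
        (evalS M S).comp (FreeGroup.map f) := by
      apply FreeGroup.ext_hom
      intro a
      change par (comap M (subS S)) f' (Artin.gen (comap (comap M (subS S)) f') a) =
        evalS M S (FreeGroup.map f (FreeGroup.of a))
      rw [par_gen, FreeGroup.map.of, evalS_of M (hfS a)]
      rfl
    exact DFunLike.congr_fun h5 z
  rw [h3] at h4
  exact (injective_iff_map_eq_one _).mp (par_injective (comap M (subS S)) f') _ h4

end Pool.Agent.Q220.VL
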