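import Pool.Agent.Helper741.Garside

set_option autoImplicit false
set_option linter.unusedSectionVars false
set_option linter.unusedSimpArgs false
set_option linter.unusedVariables false

/-!
# Parabolic subgroups of Artin groups (van der Lek's theorem)

For an embedding `f : A ↪ B` the Artin group of the restriction of a Coxeter matrix to `A` embeds
into the Artin group of the matrix. The proof is a representation of the Artin group by
permutations of the product of the set of the minimal coset representatives with the smaller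
Artin group.
-/

namespace Pool.Agent.Q220.VL

open Pool.Agent.Helper741 CoxeterSystem

variable {A B : Type*}

/-- The restriction of a Coxeter matrix along an embedding. -/
def comap (M : CoxeterMatrix B) (f : A ↪ B) : CoxeterMatrix A where
  M := Matrix.of fun a b => M (f a) (f b)
  isSymm := by
    ext a b
    exact M.symmetric _ _
  diagonal a := M.diagonal _
  off_diagonal a b h := M.off_diagonal _ _ (f.injective.ne h)

lemma comap_apply (M : CoxeterMatrix B) (f : A ↪ B) (a b : A) : comap M f a b = M (f a) (f b) := rfl

variable (M : CoxeterMatrix B) (f : A ↪ B)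

/-- The homomorphism of the Artin groups. -/
def par : Artin (comap M f) →* Artin M :=
  Artin.lift (fun a => Artin.gen M (f a)) fun a b => by
    rw [comap_apply]
    exact Artin.rel (f a) (f b)

@[simp] lemma par_gen (a : A) : par M f (Artin.gen (comap M f) a) = Artin.gen M (f a) :=
  Artin.lift_gen _ _ a

/-- The homomorphism of the Coxeter groups. -/
noncomputable def parW : (comap M f).Group →* M.Group :=
  (comap M f).toCoxeterSystem.lift ⟨fun a => M.toCoxeterSystem.simple (f a), fun a b => by
    rw [comap_apply]
    exact M.toCoxeterSystem.simple_mul_simple_pow _ _⟩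

@[simp] lemma parW_simple (a : A) :
    parW M f ((comap M f).toCoxeterSystem.simple a) = M.toCoxeterSystem.simple (f a) :=
  (comap M f).toCoxeterSystem.lift_apply_simple _ a

variable [Fintype A] [DecidableEq A] [Fintype B] [DecidableEq B]

/-- Extension by zero. -/
noncomputable def ext : (A → ℝ) →ₗ[ℝ] (B → ℝ) :=
  ∑ a, (LinearMap.proj a : (A → ℝ) →ₗ[ℝ] ℝ).smulRight (ee (f a) : B → ℝ)

lemma ext_apply (v : A → ℝ) : ext f v = ∑ a, v a • (ee (f a) : B → ℝ) := by
  simp [ext, LinearMap.sum_apply]

@[simp] lemma ext_ee (a : A) : ext f (ee a) = ee (f a) := by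
  rw [ext_apply, Finset.sum_eq_single a]
  · simp
  · intro b _ hb
    simp [ee, Pi.single_apply, hb]
  · simp

lemma sg_ext (a : A) (v : A → ℝ) : sg M (f a) (ext f v) = ext f (sg (comap M f) a v) := by
  have h : sg M (f a) ∘ₗ ext f = ext f ∘ₗ sg (comap M f) a := by
    apply LinearMap.pi_ext'
    intro b
    apply LinearMap.ext_ring
    change sg M (f a) (ext f (ee b)) = ext f (sg (comap M f) a (ee b))
    rw [ext_ee, sg_ee, sg_ee, map_add, map_smul, ext_ee, ext_ee]
    rfl
  exact LinearMap.congr_fun h v

lemma geo_parW (y : (comap M f).Group) (v : A → ℝ) :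
    geo M.toCoxeterSystem (parW M f y) (ext f v) =
      ext f (geo (comap M f).toCoxeterSystem y v) := by
  induction y using (comap M f).toCoxeterSystem.simple_induction_left generalizing v with
  | one => simp
  | mul_simple_left w i ih =>
    rw [map_mul, parW_simple, map_mul, map_mul, Module.End.mul_apply, Module.End.mul_apply, ih,
      geo_simple, geo_simple, sg_ext]

/-- The minimal coset representatives. -/
def IsMin (v : M.Group) : Prop := ∀ a, 0 ≤ geo M.toCoxeterSystem v (ee (f a))

variable {M f}

lemma isMin_one : IsMin M f 1 := by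
  intro a
  rw [map_one, Module.End.one_apply]
  exact ee_nonneg _

lemma IsMin.ext_nonneg {v : M.Group} (hv : IsMin M f v) {u : A → ℝ} (hu : 0 ≤ u) :
    0 ≤ geo M.toCoxeterSystem v (ext f u) := by
  rw [ext_apply, map_sum]
  apply Finset.sum_nonneg
  intro a _
  rw [map_smul]
  exact smul_nonneg (hu a) (hv a)

lemma IsMin.ext_nonpos {v : M.Group} (hv : IsMin M f v) {u : A → ℝ} (hu : u ≤ 0) :
    geo M.toCoxeterSystem v (ext f u) ≤ 0 := by
  have h := hv.ext_nonneg (neg_nonneg.mpr hu)
  rw [map_neg, map_neg] at h
  exact neg_nonneg.mp h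

/-- Every root is positive or negative. -/
lemma nonneg_or_nonpos {C : Type*} [Fintype C] [DecidableEq C] {N : CoxeterMatrix C} {W : Type*}
    [Group W] (cs : CoxeterSystem N W) (w : W) (i : C) :
    0 ≤ geo cs w (ee i) ∨ geo cs w (ee i) ≤ 0 := by
  rw [geo_nonneg_iff, geo_nonpos_iff]
  rcases cs.length_mul_simple w i with h1 | h1 <;> omega

/-- Uniqueness of the factorization. -/
lemma IsMin.unique {v₁ v₂ : M.Group} (h₁ : IsMin M f v₁) (h₂ : IsMin M f v₂)
    {y₁ y₂ : (comap M f).Group} (h : v₁ * parW M f y₁ = v₂ * parW M f y₂) : v₁ = v₂ ∧ y₁ = y₂ := by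
  have key : y₁ * y₂⁻¹ = 1 := by
    apply eq_one_of_geo (comap M f).toCoxeterSystem
    intro a
    rcases nonneg_or_nonpos (comap M f).toCoxeterSystem (y₁ * y₂⁻¹) a with h3 | h3
    · exact h3
    · exfalso
      have e : v₂ = v₁ * parW M f (y₁ * y₂⁻¹) := by
        rw [map_mul, ← mul_assoc, h, mul_assoc, ← map_mul, mul_inv_cancel, map_one, mul_one]
      have h4 := h₂ a
      rw [e, map_mul, Module.End.mul_apply, ← ext_ee f a, geo_parW] at h4
      have h5 := h₁.ext_nonpos h3
      have h6 := le_antisymm h5 h4
      rw [← geo_parW, ← Module.End.mul_apply, ← map_mul, ext_ee] at h6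
      exact geo_ee_ne_zero _ _ _ h6
  have hy : y₁ = y₂ := mul_inv_eq_one.mp key
  subst hy
  exact ⟨mul_right_cancel h, rfl⟩

/-- **Deodhar's lemma**. -/
lemma IsMin.deodhar {v : M.Group} (hv : IsMin M f v) (i : B)
    (h : ¬ ∃ a, geo M.toCoxeterSystem v (ee (f a)) = ee i) :
    IsMin M f (M.toCoxeterSystem.simple i * v) := by
  intro a
  rcases nonneg_or_nonpos M.toCoxeterSystem (M.toCoxeterSystem.simple i * v) (f a) with h3 | h3
  · exact h3
  exfalso
  apply h
  refine ⟨a, ?_⟩
  set β := geo M.toCoxeterSystem v (ee (f a)) with hβ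
  have h4 : 0 ≤ β := hv a
  rw [map_mul, Module.End.mul_apply, geo_simple, ← hβ, sg_apply] at h3
  have h5 : ∀ j, j ≠ i → β j = 0 := by
    intro j hj
    have h6 := h3 j
    simp only [Pi.sub_apply, Pi.smul_apply, ee, Pi.single_apply, hj, if_false, smul_eq_mul,
      mul_zero, sub_zero, Pi.zero_apply] at h6
    exact le_antisymm h6 (h4 j)
  have h7 : β = β i • ee i := by
    ext j
    by_cases hj : j = i
    · subst hj; simp
    · simp [h5 j hj, ee, Pi.single_apply, hj]
  have h8 : bil M β β = 2 := by
    rw [hβ, bil_geo, bil_ee_left, coroot_ee, cc_self]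
    norm_num
  rw [h7, bil_smul_left, bil_smul_right, bil_ee_left, coroot_ee, cc_self] at h8
  have h9 : β i = 1 := by
    have h10 : 0 ≤ β i := h4 i
    nlinarith
  rw [h7, h9, one_smul]

lemma conj_simple_of_geo_eq {v : M.Group} {i j : B}
    (h : geo M.toCoxeterSystem v (ee j) = ee i) :
    M.toCoxeterSystem.simple i * v = v * M.toCoxeterSystem.simple j := by
  have h1 : v * M.toCoxeterSystem.simple j * v⁻¹ = M.toCoxeterSystem.simple i := by
    apply geo_injective M.toCoxeterSystem
    apply LinearMap.ext
    intro u
    rw [geo_conj_simple, h, bil_ee_left, geo_simple, sg_apply]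
  rw [← h1]
  group

variable (M f)

/-- The set on which the Artin group acts. -/
abbrev St : Type _ := {v : M.Group // IsMin M f v} × Artin (comap M f)

variable {M f}

lemma geo_ee_unique {v : M.Group} {i : B} {a b : A}
    (ha : geo M.toCoxeterSystem v (ee (f a)) = ee i)
    (hb : geo M.toCoxeterSystem v (ee (f b)) = ee i) : a = b := by
  have h := geo_injective_apply M.toCoxeterSystem v (ha.trans hb.symm)
  apply f.injective
  by_contra hne
  have h2 := congrFun h (f a)
  simp [ee, Pi.single_apply, hne] at h2

open Classical in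
/-- The step of a generator, with `g` instead of the generator `a`. -/
noncomputable def step (c : A → Artin (comap M f)) (i : B) (p : St M f) : St M f :=
  if h : ∃ a, geo M.toCoxeterSystem p.1.1 (ee (f a)) = ee i then (p.1, c h.choose * p.2)
  else (⟨M.toCoxeterSystem.simple i * p.1.1, p.1.2.deodhar i h⟩, p.2)

lemma step_pos (c : A → Artin (comap M f)) {i : B} {p : St M f} {a : A}
    (h : geo M.toCoxeterSystem p.1.1 (ee (f a)) = ee i) : step c i p = (p.1, c a * p.2) := by
  have h' : ∃ a, geo M.toCoxeterSystem p.1.1 (ee (f a)) = ee i := ⟨a, h⟩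
  rw [step, dif_pos h', geo_ee_unique h'.choose_spec h]

lemma step_neg (c : A → Artin (comap M f)) {i : B} {p : St M f}
    (h : ¬ ∃ a, geo M.toCoxeterSystem p.1.1 (ee (f a)) = ee i) :
    step c i p = (⟨M.toCoxeterSystem.simple i * p.1.1, p.1.2.deodhar i h⟩, p.2) := by
  rw [step, dif_neg h]

/-- After a move to a new representative, the next step moves back. -/
lemma not_exists_of_move {v : M.Group} (hv : IsMin M f v) {i : B} :
    ¬ ∃ a, geo M.toCoxeterSystem (M.toCoxeterSystem.simple i * v) (ee (f a)) = ee i := by
  rintro ⟨a, ha⟩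
  rw [map_mul, Module.End.mul_apply, geo_simple] at ha
  have h1 : geo M.toCoxeterSystem v (ee (f a)) = - ee i := by
    rw [← sg_sg M i (geo M.toCoxeterSystem v (ee (f a))), ha, sg_ee_self]
  have h2 := hv a
  rw [h1] at h2
  have h3 := h2 i
  simp [ee] at h3
  linarith

lemma step_step (c d : A → Artin (comap M f)) (hcd : ∀ a, d a * c a = 1) (i : B) (p : St M f) :
    step d i (step c i p) = p := by
  by_cases h : ∃ a, geo M.toCoxeterSystem p.1.1 (ee (f a)) = ee i
  · obtain ⟨a, ha⟩ := h
    rw [step_pos c ha, step_pos (a := a) d (by exact ha)]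
    ext1
    · rfl
    · change d a * (c a * p.2) = p.2
      rw [← mul_assoc, hcd, one_mul]
  · rw [step_neg c h, step_neg d (by exact not_exists_of_move p.1.2)]
    ext1
    · apply Subtype.ext
      change M.toCoxeterSystem.simple i * (M.toCoxeterSystem.simple i * p.1.1) = p.1.1
      rw [M.toCoxeterSystem.simple_mul_simple_cancel_left]
    · rfl

variable (M f)

/-- The permutation of a generator. -/
noncomputable def perm (i : B) : Equiv.Perm (St M f) where
  toFun := step (Artin.gen (comap M f)) i
  invFun := step (fun a => (Artin.gen (comap M f) a)⁻¹) i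
  left_inv := step_step _ _ (fun a => inv_mul_cancel _) i
  right_inv := step_step _ _ (fun a => mul_inv_cancel _) i

variable {M f}

lemma perm_apply (i : B) (p : St M f) : perm M f i p = step (Artin.gen (comap M f)) i p := rfl

lemma perm_symm_apply (i : B) (p : St M f) :
    (perm M f i)⁻¹ p = step (fun a => (Artin.gen (comap M f) a)⁻¹) i p := rfl

/-- The run of a reduced word. -/
lemma run (ω : List B) (hω : M.toCoxeterSystem.IsReduced ω) (p : St M f) :
    ∃ y : (comap M f).Group,
      M.toCoxeterSystem.wordProd ω * p.1.1 = ((ω.map (perm M f)).prod p).1.1 * parW M f y ∧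
      ((ω.map (perm M f)).prod p).2 = sec (comap M f).toCoxeterSystem y * p.2 := by
  induction ω with
  | nil =>
    refine ⟨1, by simp, ?_⟩
    have h1 : sec (comap M f).toCoxeterSystem 1 = 1 := by
      have := sec_eq (comap M f).toCoxeterSystem [] (by simp [CoxeterSystem.IsReduced])
      simpa using this
    rw [h1, one_mul]
    rfl
  | cons i ω ih =>
    obtain ⟨y, hy1, hy2⟩ := ih (by simpa using hω.drop 1)
    rw [List.map_cons, List.prod_cons, Equiv.Perm.mul_apply, perm_apply]
    set q := (ω.map (perm M f)).prod p with hq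
    by_cases h : ∃ a, geo M.toCoxeterSystem q.1.1 (ee (f a)) = ee i
    · obtain ⟨a, ha⟩ := h
      rw [step_pos _ ha]
      refine ⟨(comap M f).toCoxeterSystem.simple a * y, ?_, ?_⟩
      · rw [M.toCoxeterSystem.wordProd_cons, mul_assoc, hy1, ← mul_assoc, conj_simple_of_geo_eq ha,
          map_mul, parW_simple, mul_assoc]
      · change Artin.gen (comap M f) a * q.2 = _
        rw [hy2, ← mul_assoc]
        congr 1
        symm
        apply sec_simple_mul
        by_contra hcon
        -- the negative root
        have h1 : geo (comap M f).toCoxeterSystem y⁻¹ (ee a) ≤ 0 := by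
          rw [geo_nonpos_iff]
          have e1 : (comap M f).toCoxeterSystem.length (y⁻¹ * (comap M f).toCoxeterSystem.simple a) =
              (comap M f).toCoxeterSystem.length ((comap M f).toCoxeterSystem.simple a * y) := by
            rw [← (comap M f).toCoxeterSystem.length_inv, mul_inv_rev, inv_inv,
              (comap M f).toCoxeterSystem.inv_simple]
          rw [e1, (comap M f).toCoxeterSystem.length_inv]
          rcases (comap M f).toCoxeterSystem.length_simple_mul y a with h2 | h2 <;> omega
        have h2 : 0 ≤ geo M.toCoxeterSystem (M.toCoxeterSystem.wordProd ω)⁻¹ (ee i) := by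
          rw [geo_nonneg_iff]
          have e1 : M.toCoxeterSystem.length ((M.toCoxeterSystem.wordProd ω)⁻¹ *
              M.toCoxeterSystem.simple i) = M.toCoxeterSystem.length
                (M.toCoxeterSystem.wordProd (i :: ω)) := by
            rw [← M.toCoxeterSystem.length_inv, mul_inv_rev, inv_inv,
              M.toCoxeterSystem.inv_simple, M.toCoxeterSystem.wordProd_cons]
          rw [e1, hω.eq, M.toCoxeterSystem.length_inv]
          have h3 := M.toCoxeterSystem.length_wordProd_le ω
          simp only [List.length_cons]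
          omega
        have h3 : p.1.1 * parW M f y⁻¹ = (M.toCoxeterSystem.wordProd ω)⁻¹ * q.1.1 := by
          rw [map_inv]
          have := congrArg (fun z => (M.toCoxeterSystem.wordProd ω)⁻¹ * z * (parW M f y)⁻¹) hy1
          simp only [mul_assoc, mul_inv_cancel, mul_one, inv_mul_cancel_left] at this
          exact this
        have h4 : geo M.toCoxeterSystem p.1.1
            (ext f (geo (comap M f).toCoxeterSystem y⁻¹ (ee a))) =
            geo M.toCoxeterSystem (M.toCoxeterSystem.wordProd ω)⁻¹ (ee i) := by
          rw [← geo_parW, ← Module.End.mul_apply, ← map_mul, h3, ext_ee, map_mul,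
            Module.End.mul_apply, ha]
        have h5 := p.1.2.ext_nonpos h1
        rw [h4] at h5
        exact geo_ee_ne_zero _ _ _ (le_antisymm h5 h2)
    · rw [step_neg _ h]
      refine ⟨y, ?_, hy2⟩
      rw [M.toCoxeterSystem.wordProd_cons, mul_assoc, hy1, mul_assoc]

lemma perm_rel (i j : B) :
    alt (perm M f i) (perm M f j) (M i j) = alt (perm M f j) (perm M f i) (M i j) := by
  by_cases hij : i = j
  · subst hij; rfl
  by_cases h0 : M i j = 0
  · rw [h0, alt_zero, alt_zero]
  apply Equiv.ext
  intro p
  rw [← aw_prod, ← aw_prod]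
  have r1 : M.toCoxeterSystem.IsReduced (aw i j (M i j)) :=
    isReduced_aw M.toCoxeterSystem hij (Or.inr le_rfl)
  have r2 : M.toCoxeterSystem.IsReduced (aw j i (M i j)) :=
    isReduced_aw M.toCoxeterSystem (Ne.symm hij) (Or.inr (by rw [M.symmetric]))
  obtain ⟨y1, a1, b1⟩ := run (M := M) (f := f) _ r1 p
  obtain ⟨y2, a2, b2⟩ := run (M := M) (f := f) _ r2 p
  have e : M.toCoxeterSystem.wordProd (aw i j (M i j)) =
      M.toCoxeterSystem.wordProd (aw j i (M i j)) := by
    rw [wordProd_aw, wordProd_aw]
    exact alt_comm_of_pow (M.toCoxeterSystem.simple_mul_simple_self i)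
      (M.toCoxeterSystem.simple_mul_simple_self j) (M.toCoxeterSystem.simple_mul_simple_pow i j)
  have h1 : (((aw i j (M i j)).map (perm M f)).prod p).1.1 * parW M f y1 =
      (((aw j i (M i j)).map (perm M f)).prod p).1.1 * parW M f y2 := by
    rw [← a1, ← a2, e]
  obtain ⟨u1, u2⟩ := IsMin.unique (((aw i j (M i j)).map (perm M f)).prod p).1.2
    (((aw j i (M i j)).map (perm M f)).prod p).1.2 h1
  apply Prod.ext
  · exact Subtype.ext u1
  · rw [b1, b2, u2]

variable (M f)

/-- The representation of the Artin group by permutations. -/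
noncomputable def act : Artin M →* Equiv.Perm (St M f) :=
  Artin.lift (perm M f) perm_rel

@[simp] lemma act_gen (i : B) : act M f (Artin.gen M i) = perm M f i := Artin.lift_gen _ _ i

/-- The base point. -/
def base : {v : M.Group // IsMin M f v} := ⟨1, isMin_one⟩

lemma act_par (x g : Artin (comap M f)) :
    act M f (par M f x) (base M f, g) = (base M f, x * g) := by
  induction x using Artin.induction generalizing g with
  | one => simp
  | gen a =>
    rw [par_gen, act_gen, perm_apply, step_pos (a := a)]
    simp [base]
  | mul x y hx hy => rw [map_mul, map_mul, Equiv.Perm.mul_apply, hy, hx, mul_assoc]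
  | inv x hx =>
    rw [map_inv, map_inv, Equiv.Perm.inv_eq_iff_eq, hx, mul_inv_cancel_left]

/-- **Van der Lek's theorem**. -/
theorem par_injective : Function.Injective (par M f) := by
  rw [injective_iff_map_eq_one]
  intro x hx
  have h := act_par M f x 1
  rw [hx, map_one, Equiv.Perm.one_apply, mul_one] at h
  exact (congrArg Prod.snd h).symm

end Pool.Agent.Q220.VL
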