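import Pool.Agent.Q220.VL.Par

set_option autoImplicit false
set_option linter.unusedSectionVars false
set_option linter.unusedSimpArgs false
set_option linter.unusedVariables false

/-!
# Words with two syllables of a generator
-/

namespace Pool.Agent.Q220.VL

open Pool.Agent.Helper741 CoxeterSystem

variable {B : Type*} [Fintype B] [DecidableEq B] (M : CoxeterMatrix B)

/-- The subgroup generated by the generators in the set `U`. -/
def sub (U : Set B) : Subgroup (Artin M) := Subgroup.closure (Artin.gen M '' U)

variable {M}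

lemma gen_mem_sub {U : Set B} {i : B} (h : i ∈ U) : Artin.gen M i ∈ sub M U :=
  Subgroup.subset_closure ⟨i, h, rfl⟩

lemma sub_mono {U V : Set B} (h : U ⊆ V) : sub M U ≤ sub M V :=
  Subgroup.closure_mono (Set.image_mono h)

/-- The embedding of the set of the generators other than `s`. -/
abbrev om (s : B) : {b : B // b ≠ s} ↪ B := Function.Embedding.subtype _

lemma range_par_om (s : B) : (par M (om s)).range = sub M {b | b ≠ s} := by
  apply le_antisymm
  · rintro _ ⟨x, rfl⟩
    induction x using Artin.induction with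
    | one => rw [map_one]; exact one_mem _
    | gen a => rw [par_gen]; exact gen_mem_sub a.2
    | mul x y hx hy => rw [map_mul]; exact mul_mem hx hy
    | inv x hx => rw [map_inv]; exact inv_mem hx
  · rw [sub, Subgroup.closure_le]
    rintro _ ⟨b, hb, rfl⟩
    exact ⟨Artin.gen _ ⟨b, hb⟩, par_gen M (om s) ⟨b, hb⟩⟩

lemma exists_par {s : B} {x : Artin M} (h : x ∈ sub M {b | b ≠ s}) :
    ∃ x', par M (om s) x' = x := by
  rw [← range_par_om] at h
  exact h

lemma no_first (s : B) : ¬ ∃ a : {b : B // b ≠ s}, geo M.toCoxeterSystem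
    (base M (om s)).1 (ee (om s a)) = ee s := by
  rintro ⟨a, ha⟩
  simp only [base, map_one, Module.End.one_apply] at ha
  have h2 := congrFun ha s
  have h3 : s ≠ om s a := fun h => a.2 h.symm
  simp [ee, Pi.single_apply, h3] at h2
  exact h3 h2

/-- The state after one odd syllable. -/
def stS (s : B) : {v : M.Group // IsMin M (om s) v} :=
  ⟨M.toCoxeterSystem.simple s * (base M (om s)).1, (base M (om s)).2.deodhar s (no_first s)⟩

lemma act_s (s : B) (g : Artin (comap M (om s))) :
    act M (om s) (Artin.gen M s) (base M (om s), g) = (stS s, g) := by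
  rw [act_gen, perm_apply, step_neg _ (by exact no_first s)]
  rfl

lemma act_s' (s : B) (g : Artin (comap M (om s))) :
    act M (om s) (Artin.gen M s) (stS s, g) = (base M (om s), g) := by
  rw [act_gen, perm_apply, step_neg _ (by exact not_exists_of_move (base M (om s)).2)]
  ext1
  · apply Subtype.ext
    change M.toCoxeterSystem.simple s * (M.toCoxeterSystem.simple s * 1) = 1
    rw [mul_one, M.toCoxeterSystem.simple_mul_simple_self]
  · rfl

lemma act_pow_even (s : B) (g : Artin (comap M (om s))) {a : ℤ} (ha : Even a) :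
    act M (om s) (Artin.gen M s ^ a) (base M (om s), g) = (base M (om s), g) ∧
    act M (om s) (Artin.gen M s ^ a) (stS s, g) = (stS s, g) := by
  obtain ⟨b, rfl⟩ := ha
  rw [← two_mul, zpow_mul, map_zpow]
  have h1 : ∀ (p : St M (om s)) (σ : Equiv.Perm (St M (om s))), σ p = p → (σ ^ b) p = p := by
    intro p σ h
    exact Equiv.Perm.zpow_apply_eq_self_of_apply_eq_self h b
  constructor
  · apply h1
    have : (Artin.gen M s ^ (2 : ℤ)) = Artin.gen M s * Artin.gen M s := by
      rw [zpow_ofNat, pow_two]
    rw [this, map_mul, Equiv.Perm.mul_apply, act_s, act_s']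
  · apply h1
    have : (Artin.gen M s ^ (2 : ℤ)) = Artin.gen M s * Artin.gen M s := by
      rw [zpow_ofNat, pow_two]
    rw [this, map_mul, Equiv.Perm.mul_apply, act_s', act_s]

lemma act_pow_odd (s : B) (g : Artin (comap M (om s))) {a : ℤ} (ha : Odd a) :
    act M (om s) (Artin.gen M s ^ a) (base M (om s), g) = (stS s, g) ∧
    act M (om s) (Artin.gen M s ^ a) (stS s, g) = (base M (om s), g) := by
  obtain ⟨b, rfl⟩ := ha
  have h := act_pow_even (M := M) s g (a := 2 * b) (even_two_mul b)
  rw [add_comm, zpow_add, zpow_one, map_mul, Equiv.Perm.mul_apply, Equiv.Perm.mul_apply, h.1, h.2]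
  exact ⟨act_s s g, act_s' s g⟩

lemma stS_ne_base (s : B) : (stS s : {v : M.Group // IsMin M (om s) v}) ≠ base M (om s) := by
  intro h
  have h1 := congrArg Subtype.val h
  simp only [stS, base, mul_one] at h1
  have h2 := congrArg (fun w => geo M.toCoxeterSystem w (ee s)) h1
  simp only [geo_simple, map_one, Module.End.one_apply] at h2
  rw [sg_ee_self] at h2
  have h3 := congrFun h2 s
  simp [ee] at h3
  linarith

lemma lenHom_eq_zero {s : B} {a : ℤ} (h : Artin.gen M s ^ a = 1) : a = 0 := by
  have h1 : lenHom M (Artin.gen M s ^ a) = 1 := by rw [h, (lenHom M).map_one]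
  rw [(lenHom M).map_zpow, lenHom_gen, ← ofAdd_zsmul, smul_eq_mul, mul_one] at h1
  exact Multiplicative.ofAdd.injective h1

/-- A nontrivial power of a generator is not a product of the other generators. -/
lemma pow_mem_sub {s : B} {a : ℤ} (h : Artin.gen M s ^ a ∈ sub M {b | b ≠ s}) : a = 0 := by
  obtain ⟨x', hx⟩ := exists_par h
  have h1 := act_par M (om s) x' 1
  rw [hx, mul_one] at h1
  rcases Int.even_or_odd a with ha | ha
  · rw [(act_pow_even s 1 ha).1] at h1
    have h2 := congrArg Prod.snd h1
    simp only at h2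
    rw [← h2, map_one] at hx
    exact lenHom_eq_zero hx.symm
  · rw [(act_pow_odd s 1 ha).1] at h1
    exact absurd (congrArg Prod.fst h1) (stS_ne_base s)

/-- The coordinate `s` of the vectors `w v` for `w` in the parabolic subgroup. -/
lemma geo_parW_coord (s : B) (w : (comap M (om s)).Group) (v : B → ℝ) :
    geo M.toCoxeterSystem (parW M (om s) w) v s = v s := by
  induction w using (comap M (om s)).toCoxeterSystem.simple_induction_left generalizing v with
  | one => simp
  | mul_simple_left w i ih =>
    rw [map_mul, parW_simple, map_mul, Module.End.mul_apply, geo_simple, sg_apply]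
    have h3 : s ≠ om s i := fun h => i.2 h.symm
    simp only [Pi.sub_apply, Pi.smul_apply, ee, Pi.single_apply, h3, if_false, smul_zero, sub_zero]
    exact ih v

/-- The states after an odd syllable and the generators other than `s`: the outputs commute
with `s`. -/
lemma act_from_s (s : B) (x : Artin (comap M (om s))) :
    ∀ (p : St M (om s)) (w : (comap M (om s)).Group),
      p.1.1 = parW M (om s) w * M.toCoxeterSystem.simple s →
      ∃ (w' : (comap M (om s)).Group),
        (act M (om s) (par M (om s) x) p).1.1 = parW M (om s) w' * M.toCoxeterSystem.simple s ∧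
        ∃ c ∈ sub (comap M (om s)) {t | M s (om s t) = 2},
          (act M (om s) (par M (om s) x) p).2 = c * p.2 := by
  have key : ∀ (d : {b : B // b ≠ s} → Artin (comap M (om s)))
      (hd : ∀ t, M s (om s t) = 2 → d t ∈ sub (comap M (om s)) {t | M s (om s t) = 2})
      (i : {b : B // b ≠ s})
      (p : St M (om s)) (w : (comap M (om s)).Group),
      p.1.1 = parW M (om s) w * M.toCoxeterSystem.simple s →
      ∃ (w' : (comap M (om s)).Group),
        (step d (om s i) p).1.1 = parW M (om s) w' * M.toCoxeterSystem.simple s ∧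
        ∃ c ∈ sub (comap M (om s)) {t | M s (om s t) = 2}, (step d (om s i) p).2 = c * p.2 := by
    intro d hd i p w hp
    by_cases h : ∃ a, geo M.toCoxeterSystem p.1.1 (ee (om s a)) = ee (om s i)
    · obtain ⟨a, ha⟩ := h
      rw [step_pos _ ha]
      refine ⟨w, hp, d a, ?_, rfl⟩
      apply hd
      by_contra h2
      rw [hp, map_mul, Module.End.mul_apply, geo_simple, sg_ee] at ha
      have h3 := congrFun ha s
      rw [geo_parW_coord] at h3
      have h4 : s ≠ om s a := fun h => a.2 h.symm
      have h5 : s ≠ om s i := fun h => i.2 h.symm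
      simp only [Pi.add_apply, Pi.smul_apply, ee, Pi.single_apply, h4, h5, if_false, if_true,
        smul_eq_mul, mul_one, zero_add, if_pos rfl] at h3
      have h6 := cc_ne_zero (M := M) (i := om s a) (j := s) (Ne.symm h4)
        (by rw [M.symmetric]; exact h2)
      apply h6
      linarith
    · rw [step_neg _ h]
      refine ⟨(comap M (om s)).toCoxeterSystem.simple i * w, ?_, 1, one_mem _, by simp⟩
      change M.toCoxeterSystem.simple (om s i) * p.1.1 = _
      rw [map_mul, parW_simple, hp, mul_assoc]
  have hx : x ∈ Subgroup.closure (Set.range (Artin.gen (comap M (om s)))) := by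
    rw [Artin.closure_range_gen]; trivial
  induction hx using Subgroup.closure_induction_left with
  | one =>
    intro p w hp
    exact ⟨w, by simpa using hp, 1, one_mem _, by simp⟩
  | mul_left x hx y _ ih =>
    obtain ⟨a, rfl⟩ := hx
    intro p w hp
    obtain ⟨w1, h1, c1, hc1, e1⟩ := ih p w hp
    rw [map_mul, map_mul, Equiv.Perm.mul_apply, par_gen, act_gen, perm_apply]
    obtain ⟨w2, h2, c2, hc2, e2⟩ := key _ (fun t ht => gen_mem_sub ht) a _ w1 h1
    exact ⟨w2, h2, c2 * c1, mul_mem hc2 hc1, by rw [e2, e1, mul_assoc]⟩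
  | inv_mul_cancel x hx y _ ih =>
    obtain ⟨a, rfl⟩ := hx
    intro p w hp
    obtain ⟨w1, h1, c1, hc1, e1⟩ := ih p w hp
    rw [map_mul, map_mul, Equiv.Perm.mul_apply, map_inv, par_gen, map_inv, act_gen,
      perm_symm_apply]
    obtain ⟨w2, h2, c2, hc2, e2⟩ := key _ (fun t ht => inv_mem (gen_mem_sub ht)) a _ w1 h1
    exact ⟨w2, h2, c2 * c1, mul_mem hc2 hc1, by rw [e2, e1, mul_assoc]⟩

lemma gen_comm_of_two {s t : B} (h : M s t = 2) : Commute (Artin.gen M s) (Artin.gen M t) := by
  have := Artin.rel (M := M) s t
  rw [h, alt_two, alt_two] at this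
  exact this

/-- The generators which commute with `s` by a relation. -/
def lk (M : CoxeterMatrix B) (s : B) : Set B := {t | M s t = 2}

lemma ne_of_mem_lk {s t : B} (h : t ∈ lk M s) : t ≠ s := by
  rintro rfl
  have : M t t = 2 := h
  rw [M.diagonal] at this
  omega

lemma lk_subset (s : B) : lk M s ⊆ {b | b ≠ s} := fun _ h => ne_of_mem_lk h

lemma commute_of_mem_sub_lk {s : B} {x : Artin M} (h : x ∈ sub M (lk M s)) :
    Commute (Artin.gen M s) x := by
  induction h using Subgroup.closure_induction with
  | mem x hx => obtain ⟨t, ht, rfl⟩ := hx; exact gen_comm_of_two ht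
  | one => exact Commute.one_right _
  | mul x y _ _ hx hy => exact hx.mul_right hy
  | inv x _ hx => exact hx.inv_right

lemma par_mem_lk {s : B} {c : Artin (comap M (om s))}
    (hc : c ∈ sub (comap M (om s)) {t | M s (om s t) = 2}) : par M (om s) c ∈ sub M (lk M s) := by
  induction hc using Subgroup.closure_induction with
  | mem x hx =>
    obtain ⟨t, ht, rfl⟩ := hx
    rw [par_gen]
    exact gen_mem_sub ht
  | one => rw [map_one]; exact one_mem _
  | mul x y _ _ hx hy => rw [map_mul]; exact mul_mem hx hy
  | inv x _ hx => rw [map_inv]; exact inv_mem hx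

/-- **Two syllables, one of the exponents odd.** -/
theorem two_odd {s : B} {x : Artin M} {a b : ℤ} (hab : ¬ (Even a ∧ Even b))
    (hx : x ∈ sub M {t | t ≠ s}) (h : Artin.gen M s ^ a * x * Artin.gen M s ^ b ∈
      sub M {t | t ≠ s}) : a + b = 0 ∧ x ∈ sub M (lk M s) := by
  obtain ⟨x', rfl⟩ := exists_par hx
  obtain ⟨z', hz⟩ := exists_par h
  have h1 := act_par M (om s) z' 1
  rw [hz, mul_one, map_mul, map_mul, Equiv.Perm.mul_apply, Equiv.Perm.mul_apply] at h1
  have h2 : act M (om s) (par M (om s) x') (act M (om s) (Artin.gen M s ^ b) (base M (om s), 1)) =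
      (act M (om s) (Artin.gen M s ^ a))⁻¹ (base M (om s), z') := by
    rw [← h1]
    exact (Equiv.symm_apply_apply _ _).symm
  rw [← map_inv, ← zpow_neg] at h2
  rcases Int.even_or_odd a with ha | ha
  · -- a even, b odd
    exfalso
    have hb : Odd b := by
      rw [← Int.not_even_iff_odd]
      exact fun hb => hab ⟨ha, hb⟩
    rw [(act_pow_odd s 1 hb).1, (act_pow_even s z' ha.neg).1] at h2
    obtain ⟨w', h3, -⟩ := act_from_s s x' (stS s, 1) 1 (by simp [stS, base])
    rw [h2] at h3
    have h4 := congrArg (fun w => geo M.toCoxeterSystem w (ee s) s) h3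
    simp only [base, map_one, Module.End.one_apply] at h4
    rw [map_mul, Module.End.mul_apply, geo_parW_coord, geo_simple, sg_ee_self] at h4
    simp [ee] at h4
    linarith
  · rcases Int.even_or_odd b with hb | hb
    · -- a odd, b even
      exfalso
      rw [(act_pow_even s 1 hb).1, (act_pow_odd s z' ha.neg).1, act_par] at h2
      exact stS_ne_base s (congrArg Prod.fst h2).symm
    · -- both odd
      rw [(act_pow_odd s 1 hb).1, (act_pow_odd s z' ha.neg).1] at h2
      obtain ⟨w', h3, c, hc, h5⟩ := act_from_s s x' (stS s, 1) 1 (by simp [stS, base])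
      rw [h2] at h5
      simp only [mul_one] at h5
      subst h5
      have hz2 := par_mem_lk hc
      have hcomm := commute_of_mem_sub_lk hz2
      -- `s ^ a x s ^ b = z`, `z` commutes with `s`
      have e1 : par M (om s) x' = par M (om s) z' * Artin.gen M s ^ (-(a + b)) := by
        have e2 : par M (om s) x' = Artin.gen M s ^ (-a) * par M (om s) z' *
            Artin.gen M s ^ (-b) := by
          rw [hz]; group
        rw [e2, (hcomm.zpow_left (-a)).eq, mul_assoc, ← zpow_add]
        congr 2
        ring
      have e3 : Artin.gen M s ^ (-(a + b)) ∈ sub M {t | t ≠ s} := by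
        have e4 : Artin.gen M s ^ (-(a + b)) = (par M (om s) z')⁻¹ * par M (om s) x' := by
          rw [e1]; group
        rw [e4]
        exact mul_mem (inv_mem (sub_mono (lk_subset s) hz2)) hx
      have e5 := pow_mem_sub e3
      refine ⟨by omega, ?_⟩
      rw [e1, e5, zpow_zero, mul_one]
      exact hz2

lemma lenHom_pow_mul {s : B} {x : Artin M} {a b : ℤ}
    (h : Artin.gen M s ^ a * x * Artin.gen M s ^ b = x) : a + b = 0 := by
  have h1 : lenHom M (Artin.gen M s ^ a * x * Artin.gen M s ^ b) = lenHom M x := by rw [h]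
  rw [(lenHom M).map_mul, (lenHom M).map_mul, (lenHom M).map_zpow, (lenHom M).map_zpow,
    lenHom_gen, ← ofAdd_zsmul, ← ofAdd_zsmul, mul_comm (Multiplicative.ofAdd _) (lenHom M x),
    mul_assoc, mul_eq_left, ← ofAdd_add] at h1
  have h2 := Multiplicative.ofAdd.injective h1
  simp only [smul_eq_mul, mul_one] at h2
  exact h2

/-- **Two syllables with even exponents.** -/
theorem two_even {s : B} {x : Artin M} {a b : ℤ} (ha : Even a) (hb : Even b)
    (hx : x ∈ sub M {t | t ≠ s}) (h : Artin.gen M s ^ a * x * Artin.gen M s ^ b ∈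
      sub M {t | t ≠ s}) : a + b = 0 ∧ Commute (Artin.gen M s ^ a) x := by
  obtain ⟨x', rfl⟩ := exists_par hx
  obtain ⟨z', hz⟩ := exists_par h
  have h1 := act_par M (om s) z' 1
  rw [hz, mul_one, map_mul, map_mul, Equiv.Perm.mul_apply, Equiv.Perm.mul_apply,
    (act_pow_even s 1 hb).1, act_par, mul_one, (act_pow_even s _ ha).1] at h1
  have h2 : x' = z' := congrArg Prod.snd h1
  subst h2
  have h3 := lenHom_pow_mul hz.symm
  refine ⟨h3, ?_⟩
  have h4 : b = -a := by omega
  rw [h4, zpow_neg] at hz
  change Artin.gen M s ^ a * par M (om s) x' = par M (om s) x' * Artin.gen M s ^ a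
  conv_rhs => rw [hz]
  group

end Pool.Agent.Q220.VL
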