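import Pool.Agent.Q220.VL.TwoGen
import Pool.Agent.Q220.VL.Two

set_option autoImplicit false
set_option linter.unusedSectionVars false
set_option linter.unusedSimpArgs false
set_option linter.unusedVariables false

/-!
# The two word problems are many-one equivalent
-/

namespace Pool.Agent.Q220.VL

open Pool.Agent.Helper741 CoxeterSystem

/-- The element of the Artin group of the rows `L` which is given by a word; letters whose number is
too large are skipped. -/
def wordValue (L : List (List ℕ)) (w : List (ℕ × Bool)) : Artin (mat L) :=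
  (w.map fun p => if h : p.1 < L.length then
    (if p.2 then Artin.gen (mat L) ⟨p.1, h⟩ else (Artin.gen (mat L) ⟨p.1, h⟩)⁻¹) else 1).prod

/-- The uniform word problem. -/
def UWP (x : List (List ℕ) × List (ℕ × Bool)) : Prop := wordValue x.1 x.2 = 1

/-- The value of a word in the group with two generators. -/
def ev (v : List (Bool × Bool)) : GG := PresentedGroup.mk relators (FreeGroup.mk v)

/-- The word problem of the group with two generators. -/
def WPG (v : List (Bool × Bool)) : Prop := ev v = 1

/-! ### Values -/

lemma ev_nil : ev [] = 1 := by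
  unfold ev
  rw [← FreeGroup.one_eq_mk, map_one]

lemma ev_append (v w : List (Bool × Bool)) : ev (v ++ w) = ev v * ev w := by
  unfold ev
  rw [← FreeGroup.mul_mk, map_mul]

lemma ev_cons (p : Bool × Bool) (v : List (Bool × Bool)) : ev (p :: v) = ev [p] * ev v := by
  rw [← ev_append]; rfl

lemma ev_s : ev [(true, true)] = sG := rfl
lemma ev_t : ev [(false, true)] = tG := rfl
lemma ev_s' : ev [(true, false)] = sG⁻¹ := by
  have h : ev [(true, false)] * ev [(true, true)] = 1 := by
    rw [← ev_append]
    change PresentedGroup.mk relators (FreeGroup.mk [(true, false), (true, true)]) = 1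
    have : (FreeGroup.mk [(true, false), (true, true)] : FreeGroup Bool) = 1 := by
      rw [FreeGroup.one_eq_mk]
      apply Quot.sound
      exact @FreeGroup.Red.Step.not Bool [] [] true false
    rw [this, map_one]
  exact eq_inv_of_mul_eq_one_left h
lemma ev_t' : ev [(false, false)] = tG⁻¹ := by
  have h : ev [(false, false)] * ev [(false, true)] = 1 := by
    rw [← ev_append]
    change PresentedGroup.mk relators (FreeGroup.mk [(false, false), (false, true)]) = 1
    have : (FreeGroup.mk [(false, false), (false, true)] : FreeGroup Bool) = 1 := by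
      rw [FreeGroup.one_eq_mk]
      apply Quot.sound
      exact @FreeGroup.Red.Step.not Bool [] [] false false
    rw [this, map_one]
  exact eq_inv_of_mul_eq_one_left h

/-- Constant lists. -/
def rep (n : ℕ) (p : Bool × Bool) : List (Bool × Bool) := (List.range n).map fun _ => p

lemma ev_rep (n : ℕ) (p : Bool × Bool) : ev (rep n p) = ev [p] ^ n := by
  induction n with
  | zero => simp [rep, ev_nil]
  | succ n ih =>
    have : rep (n + 1) p = rep n p ++ [p] := by simp [rep, List.range_succ]
    rw [this, ev_append, ih, pow_succ]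

/-! ### The first reduction -/

/-- The word of a letter. -/
def letter (L : List (List ℕ)) (p : ℕ × Bool) : List (Bool × Bool) :=
  if p.1 < L.length then rep (pos L p.1) (false, true) ++ (true, p.2) :: rep (pos L p.1) (false, false)
  else []

/-- The first reduction. -/
def red₁ (x : List (List ℕ) × List (ℕ × Bool)) : List (Bool × Bool) := x.2.flatMap (letter x.1)

lemma ev_letter (L : List (List ℕ)) (p : ℕ × Bool) :
    ev (letter L p) = beta L (if h : p.1 < L.length then
      (if p.2 then Artin.gen (mat L) ⟨p.1, h⟩ else (Artin.gen (mat L) ⟨p.1, h⟩)⁻¹) else 1) := by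
  unfold letter
  by_cases h : p.1 < L.length
  · rw [if_pos h, dif_pos h, ev_append, ev_cons, ev_rep, ev_rep, ev_t, ev_t']
    obtain ⟨i, b⟩ := p
    cases b
    · rw [ev_s', if_neg (by simp), map_inv, beta_gen]
      group
    · rw [ev_s, if_pos rfl, beta_gen]
      group
  · rw [if_neg h, dif_neg h, ev_nil, map_one]

lemma ev_red₁ (x : List (List ℕ) × List (ℕ × Bool)) : ev (red₁ x) = beta x.1 (wordValue x.1 x.2) := by
  obtain ⟨L, w⟩ := x
  unfold red₁ wordValue
  simp only
  induction w with
  | nil => simp [ev_nil]
  | cons p w ih => rw [List.flatMap_cons, ev_append, ih, ev_letter, List.map_cons, List.prod_cons,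
      map_mul]

lemma red₁_spec (x : List (List ℕ) × List (ℕ × Bool)) : UWP x ↔ WPG (red₁ x) := by
  unfold UWP WPG
  rw [ev_red₁, ← map_one (beta x.1)]
  exact ⟨fun h => by rw [h], fun h => beta_injective x.1 h⟩

/-! ### The second reduction -/

/-- One step of the conversion: the current position and the output. -/
def stp (σ : ℕ × List (ℕ × Bool)) (p : Bool × Bool) : ℕ × List (ℕ × Bool) :=
  if p.1 then (σ.1, σ.2 ++ [(σ.1, p.2)]) else (if p.2 then σ.1 + 1 else σ.1 - 1, σ.2)

/-- The value in the Artin group over the integers. -/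
def valueZ (w : List (ℕ × Bool)) : Artin toepl :=
  (w.map fun p => if p.2 then Artin.gen toepl (p.1 : ℤ) else (Artin.gen toepl (p.1 : ℤ))⁻¹).prod

lemma valueZ_append (v w : List (ℕ × Bool)) : valueZ (v ++ w) = valueZ v * valueZ w := by
  simp [valueZ]

lemma foldl_stp (v : List (Bool × Bool)) : ∀ (a : ℕ) (out : List (ℕ × Bool)), v.length ≤ a →
    ∃ (b : ℕ) (out' : List (ℕ × Bool)), v.foldl stp (a, out) = (b, out ++ out') ∧
      (∀ p ∈ out', p.1 ≤ a + v.length) ∧
      psi (valueZ out') * tG ^ (b : ℤ) = tG ^ (a : ℤ) * ev v := by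
  induction v with
  | nil =>
    intro a out _
    exact ⟨a, [], by simp, by simp, by simp [valueZ, ev_nil]⟩
  | cons p v ih =>
    intro a out ha
    rw [List.length_cons] at ha
    obtain ⟨x, e⟩ := p
    rw [List.foldl_cons, ev_cons]
    cases x
    · -- a letter `t`
      cases e
      · obtain ⟨b, out', h1, h2, h3⟩ := ih (a - 1) out (by omega)
        refine ⟨b, out', by rw [← h1]; rfl, fun p hp => ?_, ?_⟩
        · have := h2 p hp
          rw [List.length_cons]
          omega
        · rw [h3, ev_t', ← mul_assoc]
          congr 1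
          rw [← zpow_sub_one]
          congr 1
          omega
      · obtain ⟨b, out', h1, h2, h3⟩ := ih (a + 1) out (by omega)
        refine ⟨b, out', by rw [← h1]; rfl, fun p hp => ?_, ?_⟩
        · have := h2 p hp
          rw [List.length_cons]
          omega
        · rw [h3, ev_t, ← mul_assoc]
          congr 1
    · -- a letter `s`
      obtain ⟨b, out', h1, h2, h3⟩ := ih a (out ++ [(a, e)]) (by omega)
      refine ⟨b, (a, e) :: out', ?_, ?_, ?_⟩
      · have : stp (a, out) (true, e) = (a, out ++ [(a, e)]) := rfl
        rw [this, h1]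
        simp
      · intro p hp
        rw [List.length_cons]
        rcases List.mem_cons.mp hp with rfl | hp
        · simp only; omega
        · have := h2 p hp
          omega
      · have e1 : valueZ ((a, e) :: out') = valueZ [(a, e)] * valueZ out' := by
          rw [← valueZ_append]; rfl
        rw [e1, map_mul, mul_assoc, h3, ← mul_assoc, ← mul_assoc]
        congr 1
        cases e
        · rw [ev_s']
          simp only [valueZ, List.map_cons, List.map_nil, List.prod_cons, List.prod_nil, mul_one]
          rw [if_neg (by simp), map_inv, psi_gen]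
          group
        · rw [ev_s]
          simp only [valueZ, List.map_cons, List.map_nil, List.prod_cons, List.prod_nil, mul_one]
          rw [if_pos trivial, psi_gen]
          group

/-- The rows of the Toeplitz matrix. -/
def toepRows (N : ℕ) : List (List ℕ) :=
  (List.range (2 * N + 1)).map fun i => (List.range (2 * N + 1)).map fun j => mu (j - i)

lemma toepRows_length (N : ℕ) : (toepRows N).length = 2 * N + 1 := by simp [toepRows]

lemma entry_toepRows {N i j : ℕ} (hi : i < 2 * N + 1) (hj : j < 2 * N + 1) :
    entry (toepRows N) i j = mu (j - i) := by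
  have h : ((toepRows N).getD i []).getD j 0 = mu (j - i) := by
    simp [toepRows, List.getD_eq_getElem?_getD, hi, hj]
  unfold entry
  rw [h, if_neg (mu_ne_one _)]

/-- The embedding of an interval. -/
def fN (N : ℕ) : Fin (toepRows N).length ↪ ℤ :=
  ⟨fun i => (i.1 : ℤ), fun i j h => by
    have h' : (i.1 : ℤ) = (j.1 : ℤ) := h
    exact Fin.ext (by exact_mod_cast h')⟩

lemma mat_toepRows (N : ℕ) : mat (toepRows N) = comap toepl (fN N) := by
  apply ext_matrix
  intro i j
  rw [comap_apply, mat_apply]
  have key : ∀ i j : Fin (toepRows N).length, i.1 < j.1 → entry (toepRows N) i j =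
      toepl (fN N i) (fN N j) := by
    intro i j h
    have hi : i.1 < 2 * N + 1 := lt_of_lt_of_eq i.2 (toepRows_length N)
    have hj : j.1 < 2 * N + 1 := lt_of_lt_of_eq j.2 (toepRows_length N)
    rw [entry_toepRows hi hj, toepl_apply]
    have hne : ¬ (fN N i = fN N j) := by
      intro h1
      have := (fN N).injective h1
      rw [this] at h
      omega
    rw [if_neg hne]
    congr 1
    change _ = ((i.1 : ℤ) - (j.1 : ℤ)).natAbs
    omega
  by_cases h : i = j
  · subst h
    rw [if_pos rfl, toepl.diagonal]
  · rw [if_neg h]
    rcases Nat.lt_or_gt_of_ne (fun h' => h (Fin.ext h')) with h1 | h1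
    · rw [min_eq_left h1.le, max_eq_right h1.le]
      exact key i j h1
    · rw [min_eq_right (le_of_lt h1), max_eq_left (le_of_lt h1), toepl.symmetric]
      exact key j i h1

lemma valueZ_eq_one_iff (N : ℕ) (w : List (ℕ × Bool)) (hw : ∀ p ∈ w, p.1 ≤ 2 * N) :
    valueZ w = 1 ↔ wordValue (toepRows N) w = 1 := by
  let γ : Artin (mat (toepRows N)) →* Artin toepl :=
    Artin.lift (fun i => Artin.gen toepl (fN N i)) fun i j => by
      rw [mat_toepRows N]
      exact Artin.rel _ _
  have hγ : ∀ a, γ (Artin.gen (mat (toepRows N)) a) = Artin.gen toepl (fN N a) :=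
    fun a => Artin.lift_gen _ _ a
  have hinj := injective_of_eq (mat_toepRows N) γ hγ
  have hval : γ (wordValue (toepRows N) w) = valueZ w := by
    induction w with
    | nil => simp [wordValue, valueZ]
    | cons p w ih =>
      have e1 : wordValue (toepRows N) (p :: w) = wordValue (toepRows N) [p] *
          wordValue (toepRows N) w := by simp [wordValue]
      have e2 : valueZ (p :: w) = valueZ [p] * valueZ w := by rw [← valueZ_append]; rfl
      rw [e1, e2, map_mul, ih fun q hq => hw q (by simp [hq])]
      congr 1
      have hp : p.1 < (toepRows N).length := by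
        rw [toepRows_length]
        have := hw p (by simp)
        omega
      simp only [wordValue, valueZ, List.map_cons, List.map_nil, List.prod_cons, List.prod_nil,
        mul_one]
      rw [dif_pos hp]
      split_ifs
      · rw [hγ]; rfl
      · rw [map_inv, hγ]; rfl
  rw [← hval, ← map_one γ]
  exact ⟨fun h => hinj h, fun h => by rw [h]⟩

/-- The second reduction. -/
def red₂ (v : List (Bool × Bool)) : List (List ℕ) × List (ℕ × Bool) :=
  if (v.foldl stp (v.length, [])).1 = v.length then
    (toepRows v.length, (v.foldl stp (v.length, [])).2) else ([[]], [(0, true)])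

lemma not_UWP : ¬ UWP ([[]], [(0, true)]) := by
  intro h
  unfold UWP wordValue at h
  simp only [List.map_cons, List.map_nil, List.prod_cons, List.prod_nil, mul_one] at h
  rw [dif_pos (by simp)] at h
  simp only [if_true] at h
  have h1 := lenHom_eq_zero (M := mat [[]]) (s := ⟨0, by simp⟩) (a := 1) (by rw [zpow_one]; exact h)
  omega

lemma red₂_spec (v : List (Bool × Bool)) : WPG v ↔ UWP (red₂ v) := by
  obtain ⟨b, out', h1, h2, h3⟩ := foldl_stp v v.length [] le_rfl
  rw [List.nil_append] at h1
  have hiff : WPG v ↔ valueZ out' = 1 ∧ (b : ℤ) = (v.length : ℤ) := by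
    rw [← psi_mul_eq_iff, h3]
    unfold WPG
    constructor
    · intro h; rw [h, mul_one]
    · intro h; exact mul_eq_left.mp h
  unfold red₂
  rw [h1]
  simp only
  by_cases hb : b = v.length
  · rw [if_pos hb, hiff]
    change _ ↔ wordValue (toepRows v.length) out' = 1
    rw [← valueZ_eq_one_iff v.length out' (fun p hp => by have := h2 p hp; omega)]
    simp [hb]
  · rw [if_neg hb, hiff]
    constructor
    · rintro ⟨-, h4⟩
      exact absurd (by exact_mod_cast h4) hb
    · intro h4
      exact absurd h4 not_UWP

/-! ### Computability -/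

lemma primrec_pow : Primrec₂ (fun a b : ℕ => a ^ b) :=
  Primrec₂.unpaired'.1 Nat.Primrec.pow

lemma primrec_entry : Primrec fun x : List (List ℕ) × ℕ × ℕ => entry x.1 x.2.1 x.2.2 := by
  have h : Primrec fun x : List (List ℕ) × ℕ × ℕ => (x.1.getD x.2.1 []).getD x.2.2 0 :=
    (Primrec.list_getD 0).comp
      ((Primrec.list_getD []).comp Primrec.fst (Primrec.fst.comp Primrec.snd))
      (Primrec.snd.comp Primrec.snd)
  exact Primrec.ite (Primrec.eq.comp h (Primrec.const 1)) (Primrec.const 0) h

lemma primrec_nu : Primrec₂ nu := by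
  have ha : Primrec fun x : ℕ × ℕ => Nat.unpair x.1 := Primrec.unpair.comp Primrec.fst
  have hb : Primrec fun x : ℕ × ℕ => Nat.unpair x.2 := Primrec.unpair.comp Primrec.snd
  refine Primrec.ite (Primrec.eq.comp (Primrec.fst.comp ha) (Primrec.fst.comp hb)) ?_
    (Primrec.const 0)
  exact primrec_entry.comp (Primrec.pair ((Primrec.ofNat (List (List ℕ))).comp (Primrec.fst.comp ha))
    (Primrec.pair (Primrec.snd.comp ha) (Primrec.snd.comp hb)))

lemma primrec_rel : PrimrecRel fun d k : ℕ => (2 : ℕ) ^ (Nat.unpair k).2 = d + 2 ^ (Nat.unpair k).1 := by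
  have hk : Primrec fun x : ℕ × ℕ => Nat.unpair x.2 := Primrec.unpair.comp Primrec.snd
  exact Primrec.eq.comp (primrec_pow.comp (Primrec.const 2) (Primrec.snd.comp hk))
    (Primrec.nat_add.comp Primrec.fst (primrec_pow.comp (Primrec.const 2) (Primrec.fst.comp hk)))

lemma primrec_idx : Primrec idx :=
  Primrec.nat_findGreatest (primrec_pow.comp (Primrec.succ) (Primrec.const 2)) primrec_rel

lemma primrec_mu : Primrec mu := by
  have hu : Primrec fun d => Nat.unpair (idx d) := Primrec.unpair.comp primrec_idx
  refine Primrec.ite (primrec_rel.comp Primrec.id primrec_idx) ?_ (Primrec.const 0)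
  exact primrec_nu.comp (Primrec.fst.comp hu) (Primrec.snd.comp hu)

lemma primrec_pos : Primrec₂ pos :=
  primrec_pow.comp (Primrec.const 2)
    (Primrec₂.natPair.comp (Primrec.encode.comp Primrec.fst) Primrec.snd)

lemma primrec_rep (p : Bool × Bool) : Primrec fun n => rep n p :=
  Primrec.list_map Primrec.list_range (Primrec₂.const p)

lemma primrec_letter : Primrec₂ letter := by
  have hpos : Primrec fun x : List (List ℕ) × ℕ × Bool => pos x.1 x.2.1 :=
    primrec_pos.comp Primrec.fst (Primrec.fst.comp Primrec.snd)
  refine Primrec.ite (Primrec.nat_lt.comp (Primrec.fst.comp Primrec.snd)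
    (Primrec.list_length.comp Primrec.fst)) ?_ (Primrec.const [])
  exact Primrec.list_append.comp ((primrec_rep _).comp hpos)
    (Primrec.list_cons.comp (Primrec.pair (Primrec.const true) (Primrec.snd.comp Primrec.snd))
      ((primrec_rep _).comp hpos))

lemma primrec_red₁ : Primrec red₁ :=
  Primrec.list_flatMap Primrec.snd (primrec_letter.comp (Primrec.fst.comp Primrec.fst) Primrec.snd)

lemma primrec_stp : Primrec₂ stp := by
  have hσ : Primrec fun x : (ℕ × List (ℕ × Bool)) × Bool × Bool => x.1.1 :=
    Primrec.fst.comp Primrec.fst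
  have hout : Primrec fun x : (ℕ × List (ℕ × Bool)) × Bool × Bool => x.1.2 :=
    Primrec.snd.comp Primrec.fst
  have hp1 : Primrec fun x : (ℕ × List (ℕ × Bool)) × Bool × Bool => x.2.1 :=
    Primrec.fst.comp Primrec.snd
  have hp2 : Primrec fun x : (ℕ × List (ℕ × Bool)) × Bool × Bool => x.2.2 :=
    Primrec.snd.comp Primrec.snd
  refine Primrec.ite (Primrec.eq.comp hp1 (Primrec.const true)) ?_ ?_
  · exact Primrec.pair hσ (Primrec.list_append.comp hout
      (Primrec.list_cons.comp (Primrec.pair hσ hp2) (Primrec.const [])))
  · exact Primrec.pair (Primrec.ite (Primrec.eq.comp hp2 (Primrec.const true))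
      (Primrec.succ.comp hσ) (Primrec.nat_sub.comp hσ (Primrec.const 1))) hout

lemma primrec_fold : Primrec fun v : List (Bool × Bool) => v.foldl stp (v.length, []) :=
  Primrec.list_foldl Primrec.id (Primrec.pair Primrec.list_length (Primrec.const []))
    (primrec_stp.comp₂ (Primrec.fst.comp Primrec.snd).to₂ (Primrec.snd.comp Primrec.snd).to₂)

lemma primrec_toepRows : Primrec toepRows := by
  have hlen : Primrec fun N : ℕ => List.range (2 * N + 1) :=
    Primrec.list_range.comp (Primrec.succ.comp (Primrec.nat_mul.comp (Primrec.const 2) Primrec.id))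
  refine Primrec.list_map hlen ?_
  refine Primrec.list_map (hlen.comp Primrec.fst) ?_
  exact primrec_mu.comp (Primrec.nat_sub.comp Primrec.snd (Primrec.snd.comp Primrec.fst))

lemma primrec_red₂ : Primrec red₂ :=
  Primrec.ite (Primrec.eq.comp (Primrec.fst.comp primrec_fold) Primrec.list_length)
    (Primrec.pair (primrec_toepRows.comp Primrec.list_length) (Primrec.snd.comp primrec_fold))
    (Primrec.const _)

/-- **The uniform word problem for all Artin groups is equivalent to the word problem of one
explicit group with two generators.** -/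
theorem manyOneEquiv : ManyOneEquiv UWP WPG :=
  ⟨⟨red₁, primrec_red₁.to_comp, red₁_spec⟩, ⟨red₂, primrec_red₂.to_comp, red₂_spec⟩⟩

end Pool.Agent.Q220.VL
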