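import Pool.Agent.Q220.VL.Transv

set_option autoImplicit false
set_option linter.unusedSectionVars false
set_option linter.unusedSimpArgs false
set_option linter.unusedVariables false

/-!
# Words with at most eight syllables in Artin groups
-/

namespace Pool.Agent.Q220.VL

open Pool.Agent.Helper741 CoxeterSystem

variable {B : Type*} [Fintype B] [DecidableEq B]

/-- One step of the rewriting. -/
inductive Step (M : CoxeterMatrix B) : List (B × ℤ) → List (B × ℤ) → Prop
  | zero (u v : List (B × ℤ)) (s : B) : Step M (u ++ (s, 0) :: v) (u ++ v)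
  | merge (u v : List (B × ℤ)) (s : B) (a b : ℤ) :
      Step M (u ++ (s, a) :: (s, b) :: v) (u ++ (s, a + b) :: v)
  | swap (u v : List (B × ℤ)) (s t : B) (a b : ℤ) (h : M s t = 2) :
      Step M (u ++ (s, a) :: (t, b) :: v) (u ++ (t, b) :: (s, a) :: v)
  | two (u v : List (B × ℤ)) (s t : B) (as : List ℤ) (k : ℕ) (hk : k = 1 ∨ k = 2)
      (h : M s t = k + 2) (hl : 2 * (k + 2) ≤ as.length)
      (hv : value (CoxeterMatrix.I k) (aw 0 1 as) = 1) : Step M (u ++ (aw s t as ++ v)) (u ++ v)

variable {M : CoxeterMatrix B}

/-- The embedding of `Fin 2`. -/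
def twoF {s t : B} (hst : s ≠ t) : Fin 2 ↪ B :=
  ⟨![s, t], by
    intro a b h
    fin_cases a <;> fin_cases b <;> simp_all⟩

lemma comap_twoF {s t : B} (hst : s ≠ t) {k : ℕ} (h : M s t = k + 2) :
    comap M (twoF hst) = CoxeterMatrix.I k := by
  have e : ∀ i j : Fin 2, comap M (twoF hst) i j = CoxeterMatrix.I k i j := by
    intro i j
    rw [comap_apply]
    have h' : M t s = k + 2 := by rw [M.symmetric]; exact h
    fin_cases i <;> fin_cases j
    · exact M.diagonal s
    · exact h
    · exact h'
    · exact M.diagonal t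
  apply CoxeterMatrix.ext
  ext i j
  exact e i j

lemma par_valueF (f : Fin 2 ↪ B) (as : List ℤ) (b c : Fin 2) :
    par M f (value (comap M f) (aw b c as)) = value M (aw (f b) (f c) as) := by
  induction as generalizing b c with
  | nil => simp [aw]
  | cons a as ih => rw [aw, value_cons, map_mul, ih, map_zpow, par_gen, aw, value_cons]

lemma two_iff {s t : B} (hst : s ≠ t) {k : ℕ} (h : M s t = k + 2) (as : List ℤ) :
    value (CoxeterMatrix.I k) (aw 0 1 as) = 1 ↔ value M (aw s t as) = 1 := by
  rw [← comap_twoF hst h]
  have h1 := par_valueF (M := M) (twoF hst) as 0 1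
  have e0 : twoF hst 0 = s := rfl
  have e1 : twoF hst 1 = t := rfl
  rw [e0, e1] at h1
  rw [← h1]
  constructor
  · intro h2
    rw [h2, map_one]
  · intro h2
    exact par_injective M (twoF hst) (h2.trans (map_one _).symm)

lemma Step.value_eq {w w' : List (B × ℤ)} (h : Step M w w') : value M w = value M w' := by
  cases h with
  | zero u v s => simp
  | merge u v s a b => simp [zpow_add, mul_assoc]
  | swap u v s t a b h =>
    have hc := ((gen_comm_of_two h).zpow_zpow a b).eq
    simp only [value_append, value_cons]
    rw [← mul_assoc (Artin.gen M s ^ a), hc, mul_assoc]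
  | two u v s t as k hk h hl hv =>
    have hst : s ≠ t := by
      rintro rfl
      rw [M.diagonal] at h
      omega
    rw [two_iff hst h] at hv
    simp [hv]

/-- The rewriting. -/
def RW (M : CoxeterMatrix B) : List (B × ℤ) → List (B × ℤ) → Prop :=
  Relation.ReflTransGen (Step M)

lemma RW.value_eq {w w' : List (B × ℤ)} (h : RW M w w') : value M w = value M w' := by
  unfold RW at h
  induction h with
  | refl => rfl
  | tail _ h ih => rw [ih, h.value_eq]

lemma Step.ctx {w w' : List (B × ℤ)} (h : Step M w w') (u v : List (B × ℤ)) :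
    Step M (u ++ (w ++ v)) (u ++ (w' ++ v)) := by
  cases h with
  | zero u' v' s =>
    have := Step.zero (M := M) (u ++ u') (v' ++ v) s
    simpa using this
  | merge u' v' s a b =>
    have := Step.merge (M := M) (u ++ u') (v' ++ v) s a b
    simpa using this
  | swap u' v' s t a b h =>
    have := Step.swap (M := M) (u ++ u') (v' ++ v) s t a b h
    simpa using this
  | two u' v' s t as k hk h hl hv =>
    have := Step.two (M := M) (u ++ u') (v' ++ v) s t as k hk h hl hv
    simpa using this

lemma RW.ctx {w w' : List (B × ℤ)} (h : RW M w w') (u v : List (B × ℤ)) :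
    RW M (u ++ (w ++ v)) (u ++ (w' ++ v)) := by
  unfold RW at h ⊢
  induction h with
  | refl => exact Relation.ReflTransGen.refl
  | tail _ h ih => exact ih.tail (h.ctx u v)

lemma RW.single {w w' : List (B × ℤ)} (h : Step M w w') : RW M w w' := Relation.ReflTransGen.single h

lemma RW.refl (w : List (B × ℤ)) : RW M w w := Relation.ReflTransGen.refl

lemma RW.trans {w w' w'' : List (B × ℤ)} (h : RW M w w') (h' : RW M w' w'') : RW M w w'' :=
  Relation.ReflTransGen.trans h h'

lemma rw_right {s : B} {a : ℤ} {X : List (B × ℤ)} (h : ∀ p ∈ X, M s p.1 = 2) (u v : List (B × ℤ)) :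
    RW M (u ++ (s, a) :: (X ++ v)) (u ++ (X ++ (s, a) :: v)) := by
  induction X generalizing u with
  | nil => exact RW.refl _
  | cons p X ih =>
    have h1 : Step M (u ++ (s, a) :: (p.1, p.2) :: (X ++ v)) (u ++ (p.1, p.2) :: (s, a) :: (X ++ v)) :=
      Step.swap u (X ++ v) s p.1 a p.2 (h p (by simp))
    have h2 := ih (fun q hq => h q (by simp [hq])) (u ++ [p])
    refine (RW.single h1).trans ?_
    simpa using h2

lemma rw_left {s : B} {a : ℤ} {X : List (B × ℤ)} (h : ∀ p ∈ X, M s p.1 = 2) (u v : List (B × ℤ)) :
    RW M (u ++ (X ++ (s, a) :: v)) (u ++ (s, a) :: (X ++ v)) := by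
  induction X generalizing u with
  | nil => exact RW.refl _
  | cons p X ih =>
    have h2 := ih (fun q hq => h q (by simp [hq])) (u ++ [p])
    have h1 : Step M (u ++ (p.1, p.2) :: (s, a) :: (X ++ v)) (u ++ (s, a) :: (p.1, p.2) :: (X ++ v)) :=
      Step.swap u (X ++ v) p.1 s p.2 a (by rw [M.symmetric]; exact h p (by simp))
    refine RW.trans ?_ (RW.single h1)
    simpa using h2

lemma rw_cancel (s : B) {a b : ℤ} (h : a + b = 0) (u v : List (B × ℤ)) :
    RW M (u ++ (s, a) :: (s, b) :: v) (u ++ v) := by
  refine (RW.single (Step.merge u v s a b)).trans ?_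
  rw [h]
  exact RW.single (Step.zero u v s)

/-- The number of the syllables of `s`. -/
def cnt (w : List (B × ℤ)) (s : B) : ℕ := (w.filter fun p => decide (p.1 = s)).length

lemma cnt_nil (s : B) : cnt ([] : List (B × ℤ)) s = 0 := rfl

lemma cnt_cons (p : B × ℤ) (w : List (B × ℤ)) (s : B) :
    cnt (p :: w) s = (if p.1 = s then 1 else 0) + cnt w s := by
  by_cases h : p.1 = s
  · simp [cnt, h, add_comm]
  · simp [cnt, h]

lemma cnt_append (w w' : List (B × ℤ)) (s : B) : cnt (w ++ w') s = cnt w s + cnt w' s := by
  simp [cnt]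

lemma cnt_three {s t u : B} (hst : s ≠ t) (hsu : s ≠ u) (htu : t ≠ u) (w : List (B × ℤ)) :
    cnt w s + cnt w t + cnt w u ≤ w.length := by
  induction w with
  | nil => simp [cnt]
  | cons p w ih =>
    rw [cnt_cons, cnt_cons, cnt_cons, List.length_cons]
    by_cases h1 : p.1 = s
    · rw [if_pos h1, if_neg (by rw [h1]; exact hst), if_neg (by rw [h1]; exact hsu)]
      omega
    · by_cases h2 : p.1 = t
      · rw [if_neg h1, if_pos h2, if_neg (by rw [h2]; exact htu)]
        omega
      · by_cases h3 : p.1 = u
        · rw [if_neg h1, if_neg h2, if_pos h3]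
          omega
        · rw [if_neg h1, if_neg h2, if_neg h3]
          omega

lemma cnt_two {s t : B} (hst : s ≠ t) (w : List (B × ℤ)) :
    cnt w s + cnt w t ≤ w.length := by
  induction w with
  | nil => simp [cnt]
  | cons p w ih =>
    rw [cnt_cons, cnt_cons, List.length_cons]
    by_cases h1 : p.1 = s
    · rw [if_pos h1, if_neg (by rw [h1]; exact hst)]
      omega
    · by_cases h2 : p.1 = t
      · rw [if_neg h1, if_pos h2]
        omega
      · rw [if_neg h1, if_neg h2]
        omega

/-- No exponent zero and no equal neighbours. -/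
def Red : List (B × ℤ) → Prop
  | [] => True
  | [p] => p.2 ≠ 0
  | p :: q :: w => p.2 ≠ 0 ∧ p.1 ≠ q.1 ∧ Red (q :: w)

lemma exists_of_not_red (w : List (B × ℤ)) (h : ¬ Red w) :
    (∃ u v s, w = u ++ (s, (0 : ℤ)) :: v) ∨ ∃ u v s a b, w = u ++ (s, a) :: (s, b) :: v := by
  induction w with
  | nil => exact absurd trivial h
  | cons p w ih =>
    by_cases hp : p.2 = 0
    · left
      exact ⟨[], w, p.1, by rw [← hp]; rfl⟩
    · match w, ih, h with
      | [], _, h => exact absurd hp h
      | q :: w, ih, h =>
        by_cases hpq : p.1 = q.1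
        · right
          refine ⟨[], w, p.1, p.2, q.2, ?_⟩
          simp only [List.nil_append]
          conv_rhs => rw [show (p.1, q.2) = (q.1, q.2) by rw [hpq]]
        · have h1 : ¬ Red (q :: w) := fun h2 => h ⟨hp, hpq, h2⟩
          rcases ih h1 with ⟨u, v, s, e⟩ | ⟨u, v, s, a, b, e⟩
          · left; exact ⟨p :: u, v, s, by rw [e]; rfl⟩
          · right; exact ⟨p :: u, v, s, a, b, by rw [e]; rfl⟩

lemma Red.tail {p : B × ℤ} {w : List (B × ℤ)} (h : Red (p :: w)) : Red w := by
  match w, h with
  | [], _ => trivial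
  | q :: w, h => exact h.2.2

lemma Red.ne_zero {w : List (B × ℤ)} (h : Red w) : ∀ p ∈ w, p.2 ≠ 0 := by
  induction w with
  | nil => simp
  | cons p w ih =>
    intro q hq
    rcases List.mem_cons.mp hq with rfl | hq
    · match w, h with
      | [], h => exact h
      | r :: w, h => exact h.1
    · exact ih h.tail q hq

lemma Red.right {u v : List (B × ℤ)} (h : Red (u ++ v)) : Red v := by
  induction u with
  | nil => exact h
  | cons p u ih => exact ih h.tail

lemma Red.left {u v : List (B × ℤ)} (h : Red (u ++ v)) : Red u := by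
  induction u with
  | nil => trivial
  | cons p u ih =>
    match u, ih, h with
    | [], _, h => exact h.ne_zero p (by simp)
    | q :: u, ih, h => exact ⟨h.1, h.2.1, ih h.2.2⟩

lemma eq_aw {s t : B} {w : List (B × ℤ)} (h : Red w) (hl : ∀ p ∈ w, p.1 = s ∨ p.1 = t)
    (hf : ∀ p w', w = p :: w' → p.1 = s) : w = aw s t (w.map Prod.snd) := by
  induction w generalizing s t with
  | nil => rfl
  | cons p w ih =>
    rw [List.map_cons, aw]
    have hp : p.1 = s := hf p w rfl
    have h1 : p = (s, p.2) := by rw [← hp]
    rw [← h1]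
    congr 1
    apply ih h.tail
    · intro q hq
      exact (hl q (by simp [hq])).symm
    · rintro q w' rfl
      rcases hl q (by simp) with h2 | h2
      · exact absurd (hp.trans h2.symm) h.2.1
      · exact h2

lemma comm_one {s t : B} {a c : ℤ} (ha : a ≠ 0) (hc : c ≠ 0) (hst : s ≠ t)
    (h : Commute (Artin.gen M s ^ a) (Artin.gen M t ^ c)) : M s t = 2 := by
  by_contra h2
  have := not_commute (M := M) hst h2 (one_mem _) (one_mem _) ha hc
  rw [one_mul, mul_one] at this
  exact this h

lemma gen_zpow_mem_two {s t u : B} (h : u ≠ s) (h' : u ≠ t) (c : ℤ) :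
    Artin.gen M u ^ c ∈ sub M {b | b ≠ s ∧ b ≠ t} :=
  zpow_mem (gen_mem_sub (show u ∈ ({b | b ≠ s ∧ b ≠ t} : Set B) from ⟨h, h'⟩)) _

/-- Reduced words with two different letters. -/
lemma comm_two {s t u : B} {a c d : ℤ} (ha : a ≠ 0) (hc : c ≠ 0) (hd : d ≠ 0) (hst : s ≠ t)
    (hsu : s ≠ u) (htu : t ≠ u)
    (h : Commute (Artin.gen M s ^ a) (Artin.gen M t ^ c * Artin.gen M u ^ d)) :
    M s t = 2 ∧ M s u = 2 := by
  constructor
  · by_contra h2
    have h1 : Artin.gen M u ^ d ∈ sub M {b | b ≠ s ∧ b ≠ t} :=
      gen_zpow_mem_two (Ne.symm hsu) (Ne.symm htu) _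
    have := not_commute (M := M) hst h2 (one_mem _) h1 ha hc
    rw [one_mul] at this
    exact this h
  · by_contra h2
    have h1 : Artin.gen M t ^ c ∈ sub M {b | b ≠ s ∧ b ≠ u} :=
      gen_zpow_mem_two (Ne.symm hst) htu _
    have := not_commute (M := M) hsu h2 h1 (one_mem _) ha hd
    rw [mul_one] at this
    exact this h

/-- Words with at most two syllables. -/
lemma comm_le_two {s : B} {a : ℤ} (ha : a ≠ 0) {X : List (B × ℤ)} (hX : ∀ p ∈ X, p.1 ≠ s)
    (hr : Red X) (hl : X.length ≤ 2) (h : Commute (Artin.gen M s ^ a) (value M X)) :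
    ∀ p ∈ X, M s p.1 = 2 := by
  match X, hX, hr, hl, h with
  | [], _, _, _, _ => simp
  | [p], hX, hr, _, h =>
    have h1 := comm_one (s := s) (t := p.1) ha hr (Ne.symm (hX p (by simp))) (by simpa using h)
    intro q hq
    rw [List.mem_singleton] at hq
    rw [hq]; exact h1
  | [p, q], hX, hr, _, h =>
    have h1 := comm_two (s := s) (t := p.1) (u := q.1) ha hr.1 hr.2.2
      (Ne.symm (hX p (by simp))) (Ne.symm (hX q (by simp))) hr.2.1 (by simpa using h)
    intro x hx
    simp only [List.mem_cons, List.not_mem_nil, or_false] at hx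
    rcases hx with rfl | rfl
    · exact h1.1
    · exact h1.2
  | _ :: _ :: _ :: _, _, _, hl, _ => simp at hl

/-- Words with three syllables. -/
lemma comm_three {s : B} {a : ℤ} (ha : a ≠ 0) {p q r : B × ℤ} (hp : p.1 ≠ s) (hq : q.1 ≠ s)
    (hr' : r.1 ≠ s) (hr : Red [p, q, r]) (h : Commute (Artin.gen M s ^ a) (value M [p, q, r])) :
    (M s p.1 = 2 ∧ M s q.1 = 2 ∧ M s r.1 = 2) ∨ (p.1 = r.1 ∧ M q.1 p.1 = 2) := by
  have h' : Commute (Artin.gen M s ^ a)
      (Artin.gen M p.1 ^ p.2 * (Artin.gen M q.1 ^ q.2 * Artin.gen M r.1 ^ r.2)) := by simpa using h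
  have hpq : p.1 ≠ q.1 := hr.2.1
  have hqr : q.1 ≠ r.1 := hr.2.2.2.1
  have p0 : p.2 ≠ 0 := hr.1
  have q0 : q.2 ≠ 0 := hr.2.2.1
  have r0 : r.2 ≠ 0 := hr.2.2.2.2
  have hq2 : M s q.1 = 2 := by
    by_contra h2
    have h1 : Artin.gen M p.1 ^ p.2 ∈ sub M {b | b ≠ s ∧ b ≠ q.1} :=
      gen_zpow_mem_two hp hpq _
    have h3 : Artin.gen M r.1 ^ r.2 ∈ sub M {b | b ≠ s ∧ b ≠ q.1} :=
      gen_zpow_mem_two hr' (Ne.symm hqr) _
    apply not_commute (M := M) (Ne.symm hq) h2 h1 h3 ha q0
    rw [mul_assoc]
    exact h'
  by_cases hpr : p.1 = r.1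
  · by_cases h2 : M s p.1 = 2
    · left
      exact ⟨h2, hq2, by rw [← hpr]; exact h2⟩
    · right
      refine ⟨hpr, ?_⟩
      by_contra h3
      rw [← hpr] at h'
      exact not_commute_three (Ne.symm hp) (Ne.symm hq) hpq h2 h3 hq2 ha q0 r0 h'
  · left
    refine ⟨?_, hq2, ?_⟩
    · by_contra h2
      have h1 : Artin.gen M q.1 ^ q.2 * Artin.gen M r.1 ^ r.2 ∈ sub M {b | b ≠ s ∧ b ≠ p.1} :=
        mul_mem (gen_zpow_mem_two hq (Ne.symm hpq) _)
          (gen_zpow_mem_two hr' (Ne.symm hpr) _)
      apply not_commute (M := M) (Ne.symm hp) h2 (one_mem _) h1 ha p0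
      rw [one_mul]
      exact h'
    · by_contra h2
      have h1 : Artin.gen M p.1 ^ p.2 * Artin.gen M q.1 ^ q.2 ∈ sub M {b | b ≠ s ∧ b ≠ r.1} :=
        mul_mem (gen_zpow_mem_two hp hpr _)
          (gen_zpow_mem_two hq hqr _)
      apply not_commute (M := M) (Ne.symm hr') h2 h1 (one_mem _) ha r0
      rw [mul_one, mul_assoc]
      exact h'

/-- Seven alternating syllables. -/
lemma aw_seven {s t : B} (hst : s ≠ t) {as : List ℤ} (hne : ∀ a ∈ as, a ≠ 0)
    (hl : as.length = 7) (h : M s t = 0 ∨ 4 ≤ M s t) : value M (aw s t as) ≠ 1 := by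
  intro hv
  match as, hl, hne, hv with
  | [a₁, a₂, a₃, a₄, a₅, a₆, a₇], _, hne, hv =>
    simp only [aw, value_cons, value_nil, mul_one] at hv
    have n1 := hne a₁ (by simp)
    have n2 := hne a₂ (by simp)
    have n3 := hne a₃ (by simp)
    have n4 := hne a₄ (by simp)
    have n5 := hne a₅ (by simp)
    have n6 := hne a₆ (by simp)
    have n7 := hne a₇ (by simp)
    set σ := Artin.gen M s with hσ
    set τ := Artin.gen M t with hτ
    have h1 : σ ^ (a₇ + a₁) * (τ ^ a₂ * (σ ^ a₃ * (τ ^ a₄ * (σ ^ a₅ * τ ^ a₆)))) = 1 := by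
      have h2 : σ ^ a₇ * (σ ^ a₁ * (τ ^ a₂ * (σ ^ a₃ * (τ ^ a₄ * (σ ^ a₅ * (τ ^ a₆ * σ ^ a₇)))))) *
          (σ ^ a₇)⁻¹ = 1 := by rw [hv]; group
      rw [← h2, zpow_add]
      group
    by_cases h0 : a₇ + a₁ = 0
    · rw [h0, zpow_zero, one_mul] at h1
      have h2 : σ ^ a₃ * τ ^ a₄ * σ ^ a₅ = (τ ^ a₂)⁻¹ * (τ ^ a₆)⁻¹ := by
        have : τ ^ a₂ * (σ ^ a₃ * τ ^ a₄ * σ ^ a₅) * τ ^ a₆ = 1 := by
          rw [← h1]; group
        calc σ ^ a₃ * τ ^ a₄ * σ ^ a₅ =
            (τ ^ a₂)⁻¹ * (τ ^ a₂ * (σ ^ a₃ * τ ^ a₄ * σ ^ a₅) * τ ^ a₆) * (τ ^ a₆)⁻¹ := by group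
          _ = _ := by rw [this, mul_one]
      have ht : ∀ c : ℤ, τ ^ c ∈ sub M {y | y ≠ s} := fun c =>
        zpow_mem (gen_mem_sub (Ne.symm hst)) _
      have h3 := (two_all (s := s) (ht a₄) (by
        rw [← hσ, h2]
        exact mul_mem (inv_mem (ht _)) (inv_mem (ht _)))).2
      have h4 := comm_one n3 n4 hst h3
      omega
    · have h2 : value M (aw s t [a₇ + a₁, a₂, a₃, a₄, a₅, a₆]) = 1 := by
        simp only [aw, value_cons, value_nil, mul_one]
        exact h1
      refine aw_ne_one hst ?_ (Or.inl ⟨rfl, h⟩) h2
      intro a ha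
      simp only [List.mem_cons, List.not_mem_nil, or_false] at ha
      rcases ha with rfl | rfl | rfl | rfl | rfl | rfl <;> assumption

/-- The syllables of one generator. -/
lemma cases_cnt (w : List (B × ℤ)) (s : B) (h : ∃ p ∈ w, p.1 = s) :
    (∃ L a R, w = L ++ (s, a) :: R ∧ (∀ p ∈ L, p.1 ≠ s) ∧ ∀ p ∈ R, p.1 ≠ s) ∨
    (∃ L a X b R, w = L ++ (s, a) :: (X ++ (s, b) :: R) ∧ (∀ p ∈ L, p.1 ≠ s) ∧
      (∀ p ∈ X, p.1 ≠ s) ∧ ∀ p ∈ R, p.1 ≠ s) ∨ 3 ≤ cnt w s := by
  obtain ⟨L, a, R, rfl, hL⟩ := exists_split h
  by_cases h1 : ∃ p ∈ R, p.1 = s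
  · obtain ⟨X, b, R, rfl, hX⟩ := exists_split h1
    by_cases h2 : ∃ p ∈ R, p.1 = s
    · obtain ⟨Y, c, R, rfl, hY⟩ := exists_split h2
      right; right
      rw [cnt_append, cnt_cons, cnt_append, cnt_cons, cnt_append, cnt_cons]
      simp only [if_pos]
      omega
    · right; left
      push Not at h2
      exact ⟨L, a, X, b, R, rfl, hL, hX, h2⟩
  · left
    push Not at h1
    exact ⟨L, a, R, rfl, hL, h1⟩

/-- **Words with at most eight syllables.** -/
theorem rw_nil (n : ℕ) : n ≤ 8 → ∀ w : List (B × ℤ), w.length = n → value M w = 1 →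
    RW M w [] := by
  induction n using Nat.strong_induction_on with
  | _ n ih =>
  intro hn w hw hv
  -- one step to a shorter word is enough
  have short : ∀ w', RW M w w' → w'.length < n → RW M w [] := by
    intro w' h1 h2
    refine h1.trans (ih w'.length h2 (by omega) w' rfl ?_)
    rw [← h1.value_eq, hv]
  by_cases hred : Red w
  · match w, hw, hv, hred, short with
    | [], _, _, _, _ => exact RW.refl _
    | (s₀, a₀) :: w₀, hw, hv, hred, short =>
    -- generators with one or two syllables
    by_cases hcase : ∃ s, (∃ p ∈ (s₀, a₀) :: w₀, p.1 = s) ∧ cnt ((s₀, a₀) :: w₀) s < 3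
    · obtain ⟨s, hs, hcs⟩ := hcase
      generalize ((s₀, a₀) :: w₀) = w at hs hcs hw hv hred short ⊢
      rcases cases_cnt w s hs with ⟨L, a, R, rfl, hL, hR⟩ | ⟨L, a, X, b, R, rfl, hL, hX, hR⟩ | h3
      · -- one syllable
        exfalso
        rw [value_append, value_cons] at hv
        simp only at hv
        have h1 : Artin.gen M s ^ a = (value M L)⁻¹ * (value M R)⁻¹ := by
          calc Artin.gen M s ^ a = (value M L)⁻¹ *
              (value M L * (Artin.gen M s ^ a * value M R)) * (value M R)⁻¹ := by group
            _ = _ := by rw [hv, mul_one]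
        have h2 : Artin.gen M s ^ a ∈ sub M {b | b ≠ s} := by
          rw [h1]
          exact mul_mem (inv_mem (value_mem hL)) (inv_mem (value_mem hR))
        exact hred.ne_zero (s, a) (by simp) (pow_mem_sub h2)
      · -- two syllables
        have ha : a ≠ 0 := hred.ne_zero (s, a) (by simp)
        rw [value_append, value_cons, value_append, value_cons] at hv
        simp only at hv
        have h1 : Artin.gen M s ^ a * value M X * Artin.gen M s ^ b =
            (value M L)⁻¹ * (value M R)⁻¹ := by
          calc Artin.gen M s ^ a * value M X * Artin.gen M s ^ b = (value M L)⁻¹ *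
              (value M L * (Artin.gen M s ^ a * (value M X * (Artin.gen M s ^ b * value M R)))) *
              (value M R)⁻¹ := by group
            _ = _ := by rw [hv, mul_one]
        obtain ⟨hab, hcomm⟩ := two_all (value_mem hX) (by
          rw [h1]
          exact mul_mem (inv_mem (value_mem hL)) (inv_mem (value_mem hR)))
        have hXv : value M X = (value M L)⁻¹ * (value M R)⁻¹ := by
          rw [← h1, hcomm.eq, mul_assoc, ← zpow_add, hab, zpow_zero, mul_one]
        have hLXR : value M (L ++ (X ++ R)) = 1 := by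
          rw [value_append, value_append, hXv]; group
        have hredX : Red X := (hred.right.tail).left
        have hlen : L.length + X.length + R.length + 2 = n := by
          rw [← hw]
          simp only [List.length_append, List.length_cons]
          omega
        have ihw : RW M (L ++ (X ++ R)) [] :=
          ih (L.length + X.length + R.length) (by omega) (by omega) _
            (by simp only [List.length_append]; omega) hLXR
        -- all letters of `X` commute with `s`
        have caseX : (∀ p ∈ X, M s p.1 = 2) →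
            RW M (L ++ (s, a) :: (X ++ (s, b) :: R)) [] := by
          intro h2
          refine (rw_right h2 L ((s, b) :: R)).trans ?_
          have h3 := rw_cancel (M := M) s hab (L ++ X) R
          rw [List.append_assoc, List.append_assoc] at h3
          exact h3.trans ihw
        -- all letters of `L` and `R` commute with `s`
        have caseLR : (∀ p ∈ L, M s p.1 = 2) → (∀ p ∈ R, M s p.1 = 2) →
            RW M (L ++ (s, a) :: (X ++ (s, b) :: R)) [] := by
          intro h2 h3
          have g1 := rw_left (M := M) (a := a) h2 [] (X ++ (s, b) :: R)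
          simp only [List.nil_append] at g1
          refine g1.trans ?_
          have g2 := rw_right (M := M) (a := b) h3 ((s, a) :: (L ++ X)) []
          have g3 : ((s, a) :: (L ++ X)) ++ (s, b) :: (R ++ []) =
              (s, a) :: (L ++ (X ++ (s, b) :: R)) := by simp
          rw [g3] at g2
          refine g2.trans ?_
          have g4 := ihw.ctx [(s, a)] [(s, b)]
          have g5 : [(s, a)] ++ (L ++ (X ++ R) ++ [(s, b)]) =
              (s, a) :: (L ++ X) ++ (R ++ [(s, b)]) := by simp
          rw [g5] at g4
          refine g4.trans ?_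
          simpa using rw_cancel (M := M) s hab [] []
        -- `X` is trivial
        have caseT : value M X = 1 → RW M (L ++ (s, a) :: (X ++ (s, b) :: R)) [] := by
          intro h2
          have g1 := ih X.length (by omega) (by omega) X rfl h2
          have g2 := g1.ctx (L ++ [(s, a)]) ((s, b) :: R)
          have g3 : L ++ [(s, a)] ++ (X ++ (s, b) :: R) = L ++ (s, a) :: (X ++ (s, b) :: R) := by
            simp
          rw [g3] at g2
          refine g2.trans ?_
          have g4 := rw_cancel (M := M) s hab L R
          have g5 : L ++ [(s, a)] ++ ([] ++ (s, b) :: R) = L ++ (s, a) :: (s, b) :: R := by simp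
          rw [g5]
          refine g4.trans ?_
          apply ih (L ++ R).length (by simp only [List.length_append]; omega)
            (by simp only [List.length_append]; omega) _ rfl
          rw [value_append, value_append, h2, one_mul, ← value_append] at hLXR
          exact hLXR
        by_cases hX3 : X.length ≤ 3
        · by_cases hX2 : X.length ≤ 2
          · exact caseX (comm_le_two ha hX hredX hX2 hcomm)
          · match X, hX, hX3, hX2, hredX, hcomm, short, caseX with
            | [p, q, r], hX, _, _, hredX, hcomm, short, caseX =>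
              rcases comm_three ha (hX p (by simp)) (hX q (by simp)) (hX r (by simp)) hredX
                hcomm with ⟨c1, c2, c3⟩ | ⟨c1, c2⟩
              · apply caseX
                intro x hx
                simp only [List.mem_cons, List.not_mem_nil, or_false] at hx
                rcases hx with rfl | rfl | rfl <;> assumption
              · -- shorten `X`
                have g1 : Step M (L ++ (s, a) :: ([p, q, r] ++ (s, b) :: R))
                    (L ++ (s, a) :: ([q, p, r] ++ (s, b) :: R)) := by
                  have := Step.swap (M := M) (L ++ [(s, a)]) (r :: (s, b) :: R) p.1 q.1 p.2 q.2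
                    (by rw [M.symmetric]; exact c2)
                  simpa using this
                have g2 : Step M (L ++ (s, a) :: ([q, p, r] ++ (s, b) :: R))
                    (L ++ (s, a) :: ([q, (p.1, p.2 + r.2)] ++ (s, b) :: R)) := by
                  have := Step.merge (M := M) (L ++ [(s, a), q]) ((s, b) :: R) p.1 p.2 r.2
                  have e : r = (p.1, r.2) := by rw [c1]
                  rw [e]
                  simpa using this
                apply short _ ((RW.single g1).trans (RW.single g2))
                simp only [List.length_append, List.length_cons, List.length_nil] at hlen ⊢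
                omega
            | [], _, _, hX2, _, _, _, _ => simp at hX2
            | [_], _, _, hX2, _, _, _, _ => simp at hX2
            | [_, _], _, _, hX2, _, _, _, _ => simp at hX2
            | _ :: _ :: _ :: _ :: _, _, hX3, _, _, _, _, _ =>
              simp only [List.length_cons] at hX3
              omega
        · -- the outer part is short
          have hLR : L.length + R.length ≤ 2 := by omega
          have hcomm' : Commute (Artin.gen M s ^ a) (value M R * value M L) := by
            have h2 : value M R * value M L = (value M X)⁻¹ := by rw [hXv]; group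
            rw [h2]
            exact hcomm.inv_right
          have hredL : Red L := hred.left
          have hredR : Red R := ((hred.right.tail).right).tail
          match L, R, hLR, hL, hR, hredL, hredR, hcomm', hXv, caseLR, caseT with
          | [], R, hLR, _, hR, _, hredR, hcomm', _, caseLR, _ =>
            apply caseLR (by simp)
            apply comm_le_two ha hR hredR (by simpa using hLR)
            simpa using hcomm'
          | L, [], hLR, hL, _, hredL, _, hcomm', _, caseLR, _ =>
            refine caseLR ?_ (by simp)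
            apply comm_le_two ha hL hredL (by simpa using hLR)
            simpa using hcomm'
          | [p], [q], _, hL, hR, hredL, hredR, hcomm', hXv, caseLR, caseT =>
            have hp : p.1 ≠ s := hL p (by simp)
            have hq : q.1 ≠ s := hR q (by simp)
            have hp0 : p.2 ≠ 0 := hredL
            have hq0 : q.2 ≠ 0 := hredR
            simp only [value_cons, value_nil, mul_one] at hcomm' hXv
            by_cases hpq : p.1 = q.1
            · rw [hpq, ← zpow_add] at hcomm'
              by_cases h0 : q.2 + p.2 = 0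
              · apply caseT
                rw [hXv, hpq, ← mul_inv_rev, ← zpow_add, h0, zpow_zero, inv_one]
              · have h2 := comm_one ha h0 (Ne.symm hq) hcomm'
                apply caseLR
                · intro x hx
                  rw [List.mem_singleton] at hx
                  rw [hx, hpq]; exact h2
                · intro x hx
                  rw [List.mem_singleton] at hx
                  rw [hx]; exact h2
            · obtain ⟨h2, h3⟩ := comm_two ha hq0 hp0 (Ne.symm hq) (Ne.symm hp) (Ne.symm hpq) hcomm'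
              apply caseLR
              · intro x hx
                rw [List.mem_singleton] at hx
                rw [hx]; exact h3
              · intro x hx
                rw [List.mem_singleton] at hx
                rw [hx]; exact h2
          | _ :: _ :: _, _ :: _, hLR, _, _, _, _, _, _, _, _ =>
            simp only [List.length_cons] at hLR
            omega
          | _ :: _, _ :: _ :: _, hLR, _, _, _, _, _, _, _, _ =>
            simp only [List.length_cons] at hLR
            omega
      · omega
    · -- every generator has at least three syllables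
      push Not at hcase
      have hs0 : 3 ≤ cnt ((s₀, a₀) :: w₀) s₀ := hcase s₀ ⟨(s₀, a₀), by simp, rfl⟩
      have hne : w₀ ≠ [] := by
        rintro rfl
        simp [cnt] at hs0
      obtain ⟨⟨t₀, b₀⟩, w₁, rfl⟩ : ∃ q w₁, w₀ = q :: w₁ := List.exists_cons_of_ne_nil hne
      have hst : s₀ ≠ t₀ := hred.2.1
      have ht0 : 3 ≤ cnt ((s₀, a₀) :: (t₀, b₀) :: w₁) t₀ := hcase t₀ ⟨(t₀, b₀), by simp, rfl⟩
      have hl : ∀ p ∈ (s₀, a₀) :: (t₀, b₀) :: w₁, p.1 = s₀ ∨ p.1 = t₀ := by
        intro p hp
        by_contra hcon
        push Not at hcon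
        have h1 := hcase p.1 ⟨p, hp, rfl⟩
        have h2 := cnt_three hst (Ne.symm hcon.1) (Ne.symm hcon.2) ((s₀, a₀) :: (t₀, b₀) :: w₁)
        omega
      have h6 := cnt_two hst ((s₀, a₀) :: (t₀, b₀) :: w₁)
      rw [hw] at h6
      have e := eq_aw hred hl (by rintro p w' h; exact (congrArg Prod.fst (List.head_eq_of_cons_eq h)).symm)
      have hnz := hred.ne_zero
      have hlen' : (((s₀, a₀) :: (t₀, b₀) :: w₁).map Prod.snd).length = n := by
        rw [List.length_map, hw]
      have hnz' : ∀ a ∈ ((s₀, a₀) :: (t₀, b₀) :: w₁).map Prod.snd, a ≠ 0 := by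
        intro a ha
        rw [List.mem_map] at ha
        obtain ⟨p, hp, rfl⟩ := ha
        exact hnz p hp
      have hv' := hv
      rw [e] at hv'
      have m1 : M s₀ t₀ ≠ 1 := M.off_diagonal _ _ hst
      have stepTwo : ∀ k, (k = 1 ∨ k = 2) → M s₀ t₀ = k + 2 → 2 * (k + 2) ≤ n →
          RW M ((s₀, a₀) :: (t₀, b₀) :: w₁) [] := by
        intro k hk h2 h3
        rw [e]
        have h4 := Step.two (M := M) [] [] s₀ t₀
          (((s₀, a₀) :: (t₀, b₀) :: w₁).map Prod.snd) k hk h2 (by rw [hlen']; exact h3)
          ((two_iff hst h2 _).mpr hv')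
        simp only [List.nil_append, List.append_nil] at h4
        exact RW.single h4
      by_cases m2 : M s₀ t₀ = 2
      · -- a shorter word
        match w₁, hred, hw, hl, short, h6 with
        | [], _, hw, _, _, h6 => simp at hw; omega
        | r :: w₂, hred, hw, hl, short, h6 =>
          have hr : r.1 = s₀ := by
            rcases hl r (by simp) with h2 | h2
            · exact h2
            · exact absurd h2.symm hred.2.2.2.1
          have g1 : Step M ((s₀, a₀) :: (t₀, b₀) :: r :: w₂) ((t₀, b₀) :: (s₀, a₀) :: r :: w₂) :=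
            Step.swap [] (r :: w₂) s₀ t₀ a₀ b₀ m2
          have g2 : Step M ((t₀, b₀) :: (s₀, a₀) :: r :: w₂)
              ((t₀, b₀) :: (s₀, a₀ + r.2) :: w₂) := by
            have := Step.merge (M := M) [(t₀, b₀)] w₂ s₀ a₀ r.2
            have e : r = (s₀, r.2) := by rw [← hr]
            rw [e]
            simpa using this
          apply short _ ((RW.single g1).trans (RW.single g2))
          simp only [List.length_cons] at hw ⊢
          omega
      · by_cases m3 : M s₀ t₀ = 3
        · exact stepTwo 1 (Or.inl rfl) m3 (by omega)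
        · by_cases m4 : M s₀ t₀ = 4 ∧ n = 8
          · exact stepTwo 2 (Or.inr rfl) m4.1 (by omega)
          · exfalso
            have hn678 : n = 6 ∨ n = 7 ∨ n = 8 := by omega
            rcases hn678 with h7 | h7 | h7
            · exact aw_ne_one hst hnz' (Or.inl ⟨by rw [hlen', h7], by omega⟩) hv'
            · exact aw_seven hst hnz' (by rw [hlen', h7]) (by omega) hv'
            · exact aw_ne_one hst hnz' (Or.inr ⟨by rw [hlen', h7], by omega⟩) hv'
  · rcases exists_of_not_red w hred with ⟨u, v, s, rfl⟩ | ⟨u, v, s, a, b, rfl⟩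
    · apply short _ (RW.single (Step.zero u v s))
      simp only [List.length_append, List.length_cons] at hw ⊢
      omega
    · apply short _ (RW.single (Step.merge u v s a b))
      simp only [List.length_append, List.length_cons] at hw ⊢
      omega

/-- The word problem for words with at most eight syllables. -/
theorem value_eq_one_iff_rw {w : List (B × ℤ)} (hw : w.length ≤ 8) :
    value M w = 1 ↔ Relation.ReflTransGen (Step M) w [] :=
  ⟨fun h => rw_nil w.length hw w rfl h, fun h => RW.value_eq h⟩

end Pool.Agent.Q220.VL
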