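import Pool.Agent.Q220.VL.Deform

set_option autoImplicit false
set_option linter.unusedSectionVars false
set_option linter.unusedSimpArgs false
set_option linter.unusedVariables false

/-!
# Words with at most two syllables of every generator
-/

namespace Pool.Agent.Q220.VL

open Pool.Agent.Helper741 CoxeterSystem

variable {B : Type*} [Fintype B] [DecidableEq B]

/-- The element of the Artin group of the word with the syllables `(s, a)`, that is `s ^ a`. -/
def value (M : CoxeterMatrix B) (w : List (B × ℤ)) : Artin M :=
  (w.map fun p => Artin.gen M p.1 ^ p.2).prod

/-- The sum of the exponents of the generator `s`. -/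
def exponentSum (w : List (B × ℤ)) (s : B) : ℤ :=
  ((w.filter fun p => decide (p.1 = s)).map Prod.snd).sum

/-- The syllables of `s` and `t` are two of each and alternate, beginning with `s`. -/
def Interleaved (w : List (B × ℤ)) (s t : B) : Prop :=
  (w.filter fun p => decide (p.1 = s ∨ p.1 = t)).map Prod.fst = [s, t, s, t]

/-- All exponents are different from zero, and every generator has at most two syllables. -/
def Thin (w : List (B × ℤ)) : Prop :=
  (∀ p ∈ w, p.2 ≠ 0) ∧ ∀ s, (w.filter fun p => decide (p.1 = s)).length ≤ 2

variable {M : CoxeterMatrix B}

@[simp] lemma value_nil : value M [] = 1 := rfl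

@[simp] lemma value_cons (p : B × ℤ) (w : List (B × ℤ)) :
    value M (p :: w) = Artin.gen M p.1 ^ p.2 * value M w := by simp [value]

@[simp] lemma value_append (w w' : List (B × ℤ)) :
    value M (w ++ w') = value M w * value M w' := by simp [value]

lemma value_mem {U : Set B} {w : List (B × ℤ)} (h : ∀ p ∈ w, p.1 ∈ U) : value M w ∈ sub M U := by
  induction w with
  | nil => rw [value_nil]; exact one_mem _
  | cons p w ih =>
    rw [value_cons]
    exact mul_mem (zpow_mem (gen_mem_sub (h p (by simp))) _) (ih fun q hq => h q (by simp [hq]))

lemma Thin.sublist {w w' : List (B × ℤ)} (h : Thin w) (hs : w'.Sublist w) : Thin w' :=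
  ⟨fun p hp => h.1 p (hs.subset hp), fun s => ((hs.filter _).length_le).trans (h.2 s)⟩

lemma filter_eq_nil_of {w : List (B × ℤ)} {s : B} (h : ∀ p ∈ w, p.1 ≠ s) :
    (w.filter fun p => decide (p.1 = s)) = [] := by
  rw [List.filter_eq_nil_iff]
  intro p hp
  simpa using h p hp

lemma two_all {s : B} {x : Artin M} {a b : ℤ}
    (hx : x ∈ sub M {t | t ≠ s}) (h : Artin.gen M s ^ a * x * Artin.gen M s ^ b ∈
      sub M {t | t ≠ s}) : a + b = 0 ∧ Commute (Artin.gen M s ^ a) x := by
  by_cases hab : Even a ∧ Even b
  · exact two_even hab.1 hab.2 hx h
  · obtain ⟨h1, h2⟩ := two_odd hab hx h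
    exact ⟨h1, (commute_of_mem_sub_lk h2).zpow_left a⟩

/-- Splitting a word at the first syllable of a generator. -/
lemma exists_split {w : List (B × ℤ)} {s : B} (h : ∃ p ∈ w, p.1 = s) :
    ∃ (X : List (B × ℤ)) (b : ℤ) (R : List (B × ℤ)), w = X ++ (s, b) :: R ∧ ∀ p ∈ X, p.1 ≠ s := by
  induction w with
  | nil => simp at h
  | cons q w ih =>
    by_cases hq : q.1 = s
    · exact ⟨[], q.2, w, by rw [← hq]; rfl, by simp⟩
    · obtain ⟨p, hp, hps⟩ := h
      have hp' : p ∈ w := by
        rcases List.mem_cons.mp hp with rfl | h1
        · exact absurd hps hq
        · exact h1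
      obtain ⟨X, b, R, e, hX⟩ := ih ⟨p, hp', hps⟩
      refine ⟨q :: X, b, R, by rw [e]; rfl, ?_⟩
      intro p hp
      rcases List.mem_cons.mp hp with rfl | h1
      · exact hq
      · exact hX p h1

lemma exponentSum_append (w w' : List (B × ℤ)) (s : B) :
    exponentSum (w ++ w') s = exponentSum w s + exponentSum w' s := by
  simp [exponentSum]

lemma exponentSum_cons (p : B × ℤ) (w : List (B × ℤ)) (s : B) :
    exponentSum (p :: w) s = (if p.1 = s then p.2 else 0) + exponentSum w s := by
  by_cases h : p.1 = s <;> simp [exponentSum, h]

lemma exponentSum_of_not {w : List (B × ℤ)} {s : B} (h : ∀ p ∈ w, p.1 ≠ s) :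
    exponentSum w s = 0 := by
  rw [exponentSum, filter_eq_nil_of h]
  rfl

lemma length_eq_one_of_append {F G : List B} {u v : B} (huv : u ≠ v) (hF : ∀ x ∈ F, x = v)
    (h : F ++ u :: G = [v, u, v]) : F.length = 1 := by
  match F, hF, h with
  | [], _, h =>
    rw [List.nil_append] at h
    exact absurd (List.head_eq_of_cons_eq h) huv
  | [x], _, _ => rfl
  | x :: y :: F', hF, h =>
    exfalso
    have hy : y = v := hF y (by simp)
    rw [List.cons_append, List.cons_append] at h
    have h7 := List.head_eq_of_cons_eq (List.tail_eq_of_cons_eq h)
    exact huv (h7.symm.trans hy)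

/-- The two conditions. -/
def Good (M : CoxeterMatrix B) (w : List (B × ℤ)) : Prop :=
  (∀ s, exponentSum w s = 0) ∧ ∀ s t, s ≠ t → Interleaved w s t → M s t = 2

theorem good_of_value (n : ℕ) : ∀ (w : List (B × ℤ)), w.length ≤ n → Thin w → value M w = 1 →
    Good M w := by
  induction n with
  | zero =>
    intro w hw _ _
    have : w = [] := List.length_eq_zero_iff.mp (by omega)
    subst this
    exact ⟨fun s => rfl, fun s t _ h => by simp [Interleaved] at h⟩
  | succ n ih =>
    intro w hw hthin hval
    match w with
    | [] => exact ⟨fun s => rfl, fun s t _ h => by simp [Interleaved] at h⟩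
    | (s, a) :: w₁ =>
      have ha : a ≠ 0 := hthin.1 (s, a) (by simp)
      rw [value_cons] at hval
      simp only at hval
      have hex : ∃ p ∈ w₁, p.1 = s := by
        by_contra hcon
        push Not at hcon
        have h1 : value M w₁ ∈ sub M {b | b ≠ s} := value_mem hcon
        have h2 : Artin.gen M s ^ a ∈ sub M {b | b ≠ s} := by
          rw [eq_inv_of_mul_eq_one_left hval]
          exact inv_mem h1
        exact ha (pow_mem_sub h2)
      obtain ⟨X, b, R, rfl, hX⟩ := exists_split hex
      have hR : ∀ p ∈ R, p.1 ≠ s := by
        intro p hp hps
        have h1 := hthin.2 s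
        rw [List.filter_cons_of_pos (by simp), List.filter_append, filter_eq_nil_of hX,
          List.nil_append, List.filter_cons_of_pos (by simp)] at h1
        have h2 : p ∈ R.filter fun p => decide (p.1 = s) := by
          rw [List.mem_filter]; exact ⟨hp, by simp [hps]⟩
        have h3 := List.length_pos_of_mem h2
        simp only [List.length_cons] at h1
        omega
      have hXm : value M X ∈ sub M {b | b ≠ s} := value_mem hX
      have hRm : value M R ∈ sub M {b | b ≠ s} := value_mem hR
      rw [value_append, value_cons] at hval
      simp only at hval
      have h3 : Artin.gen M s ^ a * value M X * Artin.gen M s ^ b = (value M R)⁻¹ := by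
        apply eq_inv_of_mul_eq_one_left
        rw [← hval]
        simp only [mul_assoc]
      obtain ⟨hab, hcomm⟩ := two_all hXm (by rw [h3]; exact inv_mem hRm)
      have hval' : value M (X ++ R) = 1 := by
        rw [value_append]
        have h4 : Artin.gen M s ^ a * value M X * Artin.gen M s ^ b = value M X := by
          rw [hcomm.eq, mul_assoc, ← zpow_add, hab, zpow_zero, mul_one]
        rw [h4] at h3
        rw [h3, inv_mul_cancel]
      have hsub : (X ++ R).Sublist ((s, a) :: (X ++ (s, b) :: R)) := by
        apply List.Sublist.cons
        exact List.Sublist.append (List.Sublist.refl _) (List.sublist_cons_self _ _)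
      have hlen : (X ++ R).length ≤ n := by
        simp only [List.length_cons, List.length_append] at hw ⊢
        omega
      obtain ⟨g1, g2⟩ := ih (X ++ R) hlen (hthin.sublist hsub) hval'
      refine ⟨?_, ?_⟩
      · intro u
        rw [exponentSum_cons, exponentSum_append, exponentSum_cons]
        simp only
        by_cases hu : s = u
        · subst hu
          rw [exponentSum_of_not hX, exponentSum_of_not hR]
          simp only [if_pos]
          omega
        · simp only [if_neg hu]
          have := g1 u
          rw [exponentSum_append] at this
          omega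
      · intro u v huv hint
        by_cases hu : u = s
        · subst hu
          by_contra h2
          -- `v` occurs exactly once in `X`
          have e1 : (X.filter fun p => decide (p.1 = u ∨ p.1 = v)) =
              X.filter fun p => decide (p.1 = v) := by
            apply List.filter_congr
            intro p hp
            simp [hX p hp]
          have e2 : (R.filter fun p => decide (p.1 = u ∨ p.1 = v)) =
              R.filter fun p => decide (p.1 = v) := by
            apply List.filter_congr
            intro p hp
            simp [hR p hp]
          rw [Interleaved, List.filter_cons_of_pos (by simp), List.filter_append,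
            List.filter_cons_of_pos (by simp), e1, e2, List.map_cons, List.map_append,
            List.map_cons] at hint
          have h5 : (X.filter fun p => decide (p.1 = v)).length = 1 := by
            have h6 := List.tail_eq_of_cons_eq hint
            have h7 := length_eq_one_of_append huv (by
              intro x hx
              rw [List.mem_map] at hx
              obtain ⟨p, hp, rfl⟩ := hx
              rw [List.mem_filter] at hp
              simpa using hp.2) h6
            rwa [List.length_map] at h7
          have hexv : ∃ p ∈ X, p.1 = v := by
            have : 0 < (X.filter fun p => decide (p.1 = v)).length := by omega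
            obtain ⟨p, hp⟩ := List.exists_mem_of_length_pos this
            rw [List.mem_filter] at hp
            exact ⟨p, hp.1, by simpa using hp.2⟩
          obtain ⟨Y₀, c, Y₁, rfl, hY₀⟩ := exists_split hexv
          have hY₁ : ∀ p ∈ Y₁, p.1 ≠ v := by
            intro p hp hpv
            rw [List.filter_append, filter_eq_nil_of hY₀, List.nil_append,
              List.filter_cons_of_pos (by simp), List.length_cons] at h5
            have h7 : p ∈ Y₁.filter fun p => decide (p.1 = v) := by
              rw [List.mem_filter]; exact ⟨hp, by simp [hpv]⟩
            have h8 := List.length_pos_of_mem h7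
            omega
          have hc : c ≠ 0 := hthin.1 (v, c) (by simp)
          rw [value_append, value_cons] at hcomm
          simp only at hcomm
          rw [← mul_assoc] at hcomm
          exact not_commute huv h2 (value_mem fun p hp => ⟨hX p (by simp [hp]), hY₀ p hp⟩)
            (value_mem fun p hp => ⟨hX p (by simp [hp]), hY₁ p hp⟩) ha hc hcomm
        · by_cases hv : v = s
          · exfalso
            subst hv
            rw [Interleaved, List.filter_cons_of_pos (by simp), List.map_cons] at hint
            exact hu (List.head_eq_of_cons_eq hint).symm
          · apply g2 u v huv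
            rw [Interleaved, List.filter_cons_of_neg (by simp [Ne.symm hu, Ne.symm hv]),
              List.filter_append, List.filter_cons_of_neg (by simp [Ne.symm hu, Ne.symm hv]),
              ← List.filter_append] at hint
            exact hint

/-- A word in which a generator is repeated has a first repetition. -/
lemma exists_first_repetition (w : List (B × ℤ)) (h : ¬ (w.map Prod.fst).Nodup) :
    ∃ (L : List (B × ℤ)) (s : B) (a : ℤ) (X : List (B × ℤ)) (b : ℤ) (R : List (B × ℤ)),
      w = L ++ (s, a) :: (X ++ (s, b) :: R) ∧ ((L ++ (s, a) :: X).map Prod.fst).Nodup := by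
  induction w using List.reverseRecOn with
  | nil => simp at h
  | append_singleton w q ih =>
    by_cases hw : (w.map Prod.fst).Nodup
    · have hq : q.1 ∈ w.map Prod.fst := by
        by_contra hq
        apply h
        rw [List.map_append, List.map_cons, List.map_nil, List.nodup_append]
        refine ⟨hw, by simp, ?_⟩
        intro x hx y hy
        rw [List.mem_singleton] at hy
        subst hy
        rintro rfl
        exact hq hx
      obtain ⟨p, hp, hpq⟩ := List.mem_map.mp hq
      obtain ⟨L, a, X, rfl, -⟩ := exists_split ⟨p, hp, hpq⟩
      exact ⟨L, q.1, a, X, q.2, [], by simp, hw⟩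
    · obtain ⟨L, s, a, X, b, R, rfl, hn⟩ := ih hw
      exact ⟨L, s, a, X, b, R ++ [q], by simp, hn⟩

theorem value_of_good (n : ℕ) : ∀ (w : List (B × ℤ)), w.length ≤ n → Thin w → Good M w →
    value M w = 1 := by
  induction n with
  | zero =>
    intro w hw _ _
    have : w = [] := List.length_eq_zero_iff.mp (by omega)
    subst this
    rfl
  | succ n ih =>
    intro w hw hthin hgood
    by_cases hnd : (w.map Prod.fst).Nodup
    · match w with
      | [] => rfl
      | (s, a) :: w₁ =>
        exfalso
        have ha : a ≠ 0 := hthin.1 (s, a) (by simp)
        have h1 := hgood.1 s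
        rw [exponentSum_cons] at h1
        simp only [if_pos] at h1
        rw [List.map_cons, List.nodup_cons] at hnd
        rw [exponentSum_of_not, add_zero] at h1
        · exact ha h1
        · intro p hp hps
          exact hnd.1 (List.mem_map.mpr ⟨p, hp, hps⟩)
    · obtain ⟨L, s, a, X, b, R, rfl, hn⟩ := exists_first_repetition w hnd
      rw [List.map_append, List.map_cons, List.nodup_append, List.nodup_cons] at hn
      obtain ⟨nL, ⟨nsX, nX⟩, nd⟩ := hn
      simp only at nsX
      have hX : ∀ p ∈ X, p.1 ≠ s := fun p hp hps => nsX (List.mem_map.mpr ⟨p, hp, hps⟩)
      have hL : ∀ p ∈ L, p.1 ≠ s := fun p hp hps =>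
        nd _ (List.mem_map.mpr ⟨p, hp, rfl⟩) s (by simp) hps
      have hLX : ∀ p ∈ L, ∀ q ∈ X, p.1 ≠ q.1 := fun p hp q hq =>
        nd _ (List.mem_map.mpr ⟨p, hp, rfl⟩) _ (List.mem_cons_of_mem _ (List.mem_map.mpr ⟨q, hq, rfl⟩))
      have hR : ∀ p ∈ R, p.1 ≠ s := by
        intro p hp hps
        have h1 := hthin.2 s
        rw [List.filter_append, List.filter_cons_of_pos (by simp), List.filter_append,
          List.filter_cons_of_pos (by simp), List.length_append, List.length_cons,
          List.length_append, List.length_cons] at h1
        have h2 : p ∈ R.filter fun p => decide (p.1 = s) := by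
          rw [List.mem_filter]; exact ⟨hp, by simp [hps]⟩
        have h3 := List.length_pos_of_mem h2
        omega
      -- the exponents
      have hab : a + b = 0 := by
        have h1 := hgood.1 s
        rw [exponentSum_append, exponentSum_cons, exponentSum_append, exponentSum_cons,
          exponentSum_of_not hX, exponentSum_of_not hR, exponentSum_of_not hL] at h1
        simp only [if_pos] at h1
        omega
      -- the letters between commute with `s`
      have hcomm : Commute (Artin.gen M s) (value M X) := by
        apply commute_of_mem_sub_lk
        apply value_mem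
        rintro ⟨t, c⟩ hp
        change M s t = 2
        have hts : t ≠ s := hX _ hp
        apply hgood.2 s t (Ne.symm hts)
        have hc : c ≠ 0 := hthin.1 (t, c) (by simp [hp])
        obtain ⟨Y₀, c', Y₁, rfl, hY₀⟩ := exists_split ⟨(t, c), hp, rfl⟩
        have hY₁ : ∀ p ∈ Y₁, p.1 ≠ t := by
          intro p hp' hpt
          rw [List.map_append, List.map_cons, List.nodup_append, List.nodup_cons] at nX
          exact nX.2.1.1 (List.mem_map.mpr ⟨p, hp', hpt⟩)
        have hLt : ∀ p ∈ L, p.1 ≠ t := fun p hp' => hLX p hp' (t, c) hp
        have hcc : c' ≠ 0 := hthin.1 (t, c') (by simp)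
        have hex : ∃ p ∈ R, p.1 = t := by
          by_contra hcon
          push Not at hcon
          have h1 := hgood.1 t
          rw [exponentSum_append, exponentSum_cons, exponentSum_append, exponentSum_append,
            exponentSum_cons, exponentSum_cons, exponentSum_of_not hLt, exponentSum_of_not hY₀,
            exponentSum_of_not hY₁, exponentSum_of_not hcon] at h1
          simp only [if_neg (Ne.symm hts), if_pos] at h1
          omega
        obtain ⟨Z₀, c₂, Z₁, rfl, hZ₀⟩ := exists_split hex
        have hZ₁ : ∀ p ∈ Z₁, p.1 ≠ t := by
          intro p hp' hpt
          have h1 := hthin.2 t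
          simp only [List.filter_append, List.filter_cons, List.length_append] at h1
          have h2 : p ∈ Z₁.filter fun p => decide (p.1 = t) := by
            rw [List.mem_filter]; exact ⟨hp', by simp [hpt]⟩
          have h3 := List.length_pos_of_mem h2
          simp [Ne.symm hts] at h1
          omega
        have nil2 : ∀ Y : List (B × ℤ), (∀ p ∈ Y, p.1 ≠ s) → (∀ p ∈ Y, p.1 ≠ t) →
            (Y.filter fun p => decide (p.1 = s ∨ p.1 = t)) = [] := by
          intro Y h1 h2
          rw [List.filter_eq_nil_iff]
          intro p hp
          simp [h1 p hp, h2 p hp]
        rw [Interleaved, List.filter_append, List.filter_cons_of_pos (by simp),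
          List.filter_append, List.filter_append, List.filter_cons_of_pos (by simp),
          List.filter_cons_of_pos (by simp), List.filter_append,
          List.filter_cons_of_pos (by simp), nil2 L hL hLt,
          nil2 Y₀ (fun p hp => hX p (by simp [hp])) hY₀,
          nil2 Y₁ (fun p hp => hX p (by simp [hp])) hY₁,
          nil2 Z₀ (fun p hp => hR p (by simp [hp])) hZ₀,
          nil2 Z₁ (fun p hp => hR p (by simp [hp])) hZ₁]
        rfl
      have hsub : (L ++ (X ++ R)).Sublist (L ++ (s, a) :: (X ++ (s, b) :: R)) := by
        apply List.Sublist.append (List.Sublist.refl _)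
        apply List.Sublist.cons
        exact List.Sublist.append (List.Sublist.refl _) (List.sublist_cons_self _ _)
      have hlen : (L ++ (X ++ R)).length ≤ n := by
        simp only [List.length_cons, List.length_append] at hw ⊢
        omega
      have hgood' : Good M (L ++ (X ++ R)) := by
        refine ⟨?_, ?_⟩
        · intro u
          have h1 := hgood.1 u
          rw [exponentSum_append, exponentSum_cons, exponentSum_append, exponentSum_cons] at h1
          rw [exponentSum_append, exponentSum_append]
          by_cases hu : s = u
          · subst hu
            rw [exponentSum_of_not hX, exponentSum_of_not hR, exponentSum_of_not hL]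
            rfl
          · simp only [if_neg hu] at h1
            omega
        · intro u v huv hint
          have hnot : ∀ x, (x = u ∨ x = v) → x ≠ s := by
            intro x hx hxs
            subst hxs
            have h1 : x ∈ ((L ++ (X ++ R)).filter fun p => decide (p.1 = u ∨ p.1 = v)).map
                Prod.fst := by
              rw [hint]
              rcases hx with rfl | rfl <;> simp
            rw [List.mem_map] at h1
            obtain ⟨p, hp, hps⟩ := h1
            rw [List.mem_filter] at hp
            have h2 := hp.1
            simp only [List.mem_append] at h2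
            rcases h2 with h2 | h2 | h2
            · exact hL p h2 hps
            · exact hX p h2 hps
            · exact hR p h2 hps
          apply hgood.2 u v huv
          have hu := hnot u (Or.inl rfl)
          have hv := hnot v (Or.inr rfl)
          rw [Interleaved] at hint ⊢
          rw [List.filter_append, List.filter_cons_of_neg (by simp [Ne.symm hu, Ne.symm hv]),
            List.filter_append, List.filter_cons_of_neg (by simp [Ne.symm hu, Ne.symm hv]),
            ← List.filter_append, ← List.filter_append]
          exact hint
      have h5 := ih _ hlen (hthin.sublist hsub) hgood'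
      rw [value_append, value_append] at h5
      rw [value_append, value_cons, value_append, value_cons]
      simp only
      have h6 : b = -a := by omega
      rw [← h5, h6, zpow_neg, ← mul_assoc (Artin.gen M s ^ a), (hcomm.zpow_left a).eq]
      group

/-- The word problem for the words with at most two syllables of every generator. -/
theorem value_eq_one_iff {w : List (B × ℤ)} (hw : Thin w) : value M w = 1 ↔ Good M w :=
  ⟨good_of_value w.length w le_rfl hw, value_of_good w.length w le_rfl hw⟩

end Pool.Agent.Q220.VL
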