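import Pool.Agent.Q220.VL.Thin

set_option autoImplicit false
set_option linter.unusedSectionVars false
set_option linter.unusedSimpArgs false
set_option linter.unusedVariables false

/-!
# Short words in Artin groups with two generators
-/

namespace Pool.Agent.Q220.VL

open Pool.Agent.Helper741 CoxeterSystem Real

/-- The matrix `(1 x; 0 1)`. -/
def um (x : ℝ) : Matrix.SpecialLinearGroup (Fin 2) ℝ :=
  ⟨!![1, x; 0, 1], by simp [Matrix.det_fin_two]⟩

/-- The matrix `(0 1; -1 0)`. -/
def dm : Matrix.SpecialLinearGroup (Fin 2) ℝ :=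
  ⟨!![0, 1; -1, 0], by simp [Matrix.det_fin_two]⟩

lemma um_mul (x y : ℝ) : um x * um y = um (x + y) := by
  apply Subtype.ext
  rw [Matrix.SpecialLinearGroup.coe_mul]
  simp [um, Matrix.mul_fin_two, add_comm]

lemma um_zero : um 0 = 1 := by
  apply Subtype.ext
  rw [Matrix.SpecialLinearGroup.coe_one]
  ext i j
  fin_cases i <;> fin_cases j <;> simp [um]

lemma um_zpow (x : ℝ) (a : ℤ) : um x ^ a = um (a * x) := by
  induction a using Int.induction_on with
  | zero => simp [um_zero]
  | succ k ih =>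
    rw [zpow_add_one, ih, um_mul]
    congr 1
    push_cast
    ring
  | pred k ih =>
    rw [zpow_sub_one, ih]
    have h : (um x)⁻¹ = um (-x) := by
      apply inv_eq_of_mul_eq_one_right
      rw [um_mul, add_neg_cancel, um_zero]
    rw [h, um_mul]
    congr 1
    push_cast
    ring

lemma dm_sq_coe : ((dm ^ 2 : Matrix.SpecialLinearGroup (Fin 2) ℝ) : Matrix (Fin 2) (Fin 2) ℝ) =
    !![-1, 0; 0, -1] := by
  rw [pow_two, Matrix.SpecialLinearGroup.coe_mul]
  simp [dm, Matrix.mul_fin_two]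

lemma dm_sq_comm (x : Matrix.SpecialLinearGroup (Fin 2) ℝ) : Commute (dm ^ 2) x := by
  apply Subtype.ext
  rw [Matrix.SpecialLinearGroup.coe_mul, Matrix.SpecialLinearGroup.coe_mul, dm_sq_coe]
  ext i j
  fin_cases i <;> fin_cases j <;>
    simp [Matrix.mul_apply, Fin.sum_univ_two]

/-- The second transvection. -/
noncomputable def vm (x : ℝ) : Matrix.SpecialLinearGroup (Fin 2) ℝ := dm⁻¹ * um x * dm

lemma dm_pow_mul (x : ℝ) (k : ℕ) :
    dm ^ k * (if Even k then um x else vm x) = um x * dm ^ k := by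
  by_cases hk : Even k
  · rw [if_pos hk]
    obtain ⟨j, rfl⟩ := hk
    rw [← two_mul, pow_mul]
    exact ((dm_sq_comm (um x)).pow_left j).eq
  · rw [if_neg hk]
    obtain ⟨j, rfl⟩ := Nat.not_even_iff_odd.mp hk
    have h := ((dm_sq_comm (um x)).pow_left j).eq
    rw [vm, pow_succ, pow_mul]
    calc (dm ^ 2) ^ j * dm * (dm⁻¹ * um x * dm) = ((dm ^ 2) ^ j * um x) * dm := by group
      _ = _ := by rw [h, mul_assoc]

lemma alt_um (x : ℝ) (k : ℕ) : alt (um x) (vm x) k = (um x * dm⁻¹) ^ k * dm ^ k := by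
  induction k with
  | zero => simp
  | succ k ih =>
    rw [alt_succ', ih, mul_assoc, dm_pow_mul, pow_succ, pow_succ']
    group

/-- The sequence `sin (k θ) / sin θ`, where `l = 2 cos θ`. -/
noncomputable def ss (l : ℝ) : ℕ → ℝ
  | 0 => 0
  | 1 => 1
  | k + 2 => l * ss l (k + 1) - ss l k

lemma ss_sin (θ : ℝ) (k : ℕ) :
    sin θ * ss (2 * cos θ) k = sin (k * θ) ∧ sin θ * ss (2 * cos θ) (k + 1) = sin ((k + 1) * θ) := by
  induction k with
  | zero => simp [ss]
  | succ k ih =>
    refine ⟨by push_cast; exact ih.2, ?_⟩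
    rw [ss, mul_sub, ih.1]
    have h1 : sin θ * (2 * cos θ * ss (2 * cos θ) (k + 1)) =
        2 * cos θ * sin ((k + 1) * θ) := by rw [← ih.2]; ring
    rw [h1]
    push_cast
    have h2 : sin ((k + 1 + 1 : ℝ) * θ) = sin ((k + 1 : ℝ) * θ) * cos θ +
        cos ((k + 1 : ℝ) * θ) * sin θ := by rw [← sin_add]; congr 1; ring
    have h3 : sin ((k : ℝ) * θ) = sin ((k + 1 : ℝ) * θ) * cos θ -
        cos ((k + 1 : ℝ) * θ) * sin θ := by rw [← sin_sub]; congr 1; ring
    rw [h2, h3]
    ring

lemma xm_pow (x : ℝ) (k : ℕ) : (((um x * dm⁻¹) ^ (k + 1) : Matrix.SpecialLinearGroup (Fin 2) ℝ) :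
    Matrix (Fin 2) (Fin 2) ℝ) = !![ss x (k + 2), -ss x (k + 1); ss x (k + 1), -ss x k] := by
  have h0 : (((um x * dm⁻¹) : Matrix.SpecialLinearGroup (Fin 2) ℝ) :
      Matrix (Fin 2) (Fin 2) ℝ) = !![x, -1; 1, 0] := by
    rw [Matrix.SpecialLinearGroup.coe_mul, Matrix.SpecialLinearGroup.coe_inv]
    simp [um, dm, Matrix.adjugate_fin_two, Matrix.mul_fin_two]
  induction k with
  | zero =>
    rw [zero_add, pow_one, h0]
    simp [ss]
  | succ k ih =>
    rw [pow_succ', Matrix.SpecialLinearGroup.coe_mul, ih, h0, Matrix.mul_fin_two]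
    have e1 : ss x (k + 1 + 2) = x * ss x (k + 2) - ss x (k + 1) := by rw [ss]
    have e2 : ss x (k + 1 + 1) = x * ss x (k + 1) - ss x k := by rw [ss]
    rw [e1]
    ext i j
    fin_cases i <;> fin_cases j <;> simp [e2]
    all_goals ring

lemma alt_um_comm {x : ℝ} {m : ℕ} (h : m ≠ 0 → ss x m = 0) :
    alt (um x) (vm x) m = alt (vm x) (um x) m := by
  rcases Nat.eq_zero_or_pos m with rfl | hm
  · simp
  obtain ⟨k, rfl⟩ : ∃ k, m = k + 1 := ⟨m - 1, by omega⟩
  have h0 : ss x (k + 1) = 0 := h (by omega)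
  have h1 : ss x (k + 2) = -ss x k := by rw [ss, h0]; ring
  have hX := xm_pow x k
  rw [h0, h1] at hX
  have hc : ∀ y : Matrix.SpecialLinearGroup (Fin 2) ℝ, Commute ((um x * dm⁻¹) ^ (k + 1)) y := by
    intro y
    apply Subtype.ext
    rw [Matrix.SpecialLinearGroup.coe_mul, Matrix.SpecialLinearGroup.coe_mul, hX]
    ext i j
    fin_cases i <;> fin_cases j <;>
      simp [Matrix.mul_apply, Fin.sum_univ_two, mul_comm]
  have h2 : alt (vm x) (um x) (k + 1) = dm⁻¹ * alt (um x) (vm x) (k + 1) * dm := by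
    have h3 := map_alt (MulAut.conj (dm⁻¹)).toMonoidHom (um x) (vm x) (k + 1)
    have e1 : (MulAut.conj (dm⁻¹)).toMonoidHom (um x) = vm x := by
      simp [MulAut.conj_apply, vm]
    have e2 : (MulAut.conj (dm⁻¹)).toMonoidHom (vm x) = um x := by
      have h4 := (dm_sq_comm (um x)).eq
      simp only [MulEquiv.coe_toMonoidHom, MulAut.conj_apply, vm, inv_inv]
      calc dm⁻¹ * (dm⁻¹ * um x * dm) * dm = (dm ^ 2)⁻¹ * (um x * dm ^ 2) := by
            rw [pow_two]; group
        _ = um x := by rw [← h4]; group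
    rw [e1, e2] at h3
    rw [← h3]
    simp [MulAut.conj_apply]
  rw [h2, alt_um, ← mul_assoc, ← (hc dm⁻¹).eq]
  have h5 : (um x * dm⁻¹) ^ (k + 1) * dm⁻¹ * dm ^ (k + 1) * dm =
      (um x * dm⁻¹) ^ (k + 1) * (dm⁻¹ * (dm ^ (k + 1) * dm)) := by simp only [mul_assoc]
  rw [h5, ← pow_succ, pow_succ' dm (k + 1), inv_mul_cancel_left]

/-- `2 cos (π / m)`, and `2` for `m = 0`. -/
noncomputable def lam (m : ℕ) : ℝ := 2 * cos (π / m)

lemma ss_lam {m : ℕ} (h : 2 ≤ m) : ss (lam m) m = 0 := by
  have hm : (0 : ℝ) < m := by exact_mod_cast (by omega : 0 < m)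
  have h1 := (ss_sin (π / m) m).1
  have h2 : (m : ℝ) * (π / m) = π := by field_simp
  rw [h2, sin_pi] at h1
  have h3 : sin (π / m) ≠ 0 := by
    apply ne_of_gt
    apply sin_pos_of_pos_of_lt_pi
    · positivity
    · rw [div_lt_iff₀ hm]
      have : (2 : ℝ) ≤ m := by exact_mod_cast h
      nlinarith [pi_pos]
  exact (mul_eq_zero.mp h1).resolve_left h3

/-- The representation by transvections. -/
noncomputable def tv (N : CoxeterMatrix Bool) : Artin N →* Matrix.SpecialLinearGroup (Fin 2) ℝ :=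
  Artin.lift (fun b => if b then vm (lam (N false true)) else um (lam (N false true))) fun i j => by
    have h : alt (um (lam (N false true))) (vm (lam (N false true))) (N false true) =
        alt (vm (lam (N false true))) (um (lam (N false true))) (N false true) := by
      apply alt_um_comm
      intro h0
      apply ss_lam
      have := N.off_diagonal false true (by simp)
      omega
    cases i <;> cases j
    · rfl
    · simpa using h
    · rw [N.symmetric true false]
      simpa using h.symm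
    · rfl

lemma tv_false (N : CoxeterMatrix Bool) : tv N (Artin.gen N false) = um (lam (N false true)) := by
  rw [tv, Artin.lift_gen]; rfl

lemma tv_true (N : CoxeterMatrix Bool) : tv N (Artin.gen N true) = vm (lam (N false true)) := by
  rw [tv, Artin.lift_gen]; rfl

/-- The alternating words. -/
def aw {B : Type*} (s t : B) : List ℤ → List (B × ℤ)
  | [] => []
  | a :: as => (s, a) :: aw t s as

/-- The product of the matrices `(a l, -1; 1, 0)`. -/
noncomputable def pm (l : ℝ) (as : List ℤ) : Matrix.SpecialLinearGroup (Fin 2) ℝ :=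
  (as.map fun a => um l ^ a * dm⁻¹).prod

lemma pm_cons (l : ℝ) (a : ℤ) (as : List ℤ) :
    pm l (a :: as) = um l ^ a * dm⁻¹ * pm l as := by
  rw [pm, List.map_cons, List.prod_cons]
  rfl

lemma tv_value (N : CoxeterMatrix Bool) (as : List ℤ) :
    tv N (value N (aw false true as)) = pm (lam (N false true)) as * dm ^ as.length ∧
    tv N (value N (aw true false as)) =
      dm⁻¹ * (pm (lam (N false true)) as * dm ^ as.length) * dm := by
  induction as with
  | nil => simp [aw, pm]
  | cons a as ih =>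
    constructor
    · rw [aw, value_cons, map_mul, ih.2, map_zpow, tv_false, pm_cons, List.length_cons, pow_succ]
      simp only
      group
    · rw [aw, value_cons, map_mul, ih.1, map_zpow, tv_true, pm_cons, List.length_cons]
      have hv : vm (lam (N false true)) ^ a = dm⁻¹ * um (lam (N false true)) ^ a * dm := by
        have : vm (lam (N false true)) = dm⁻¹ * um (lam (N false true)) * (dm⁻¹)⁻¹ := by
          rw [inv_inv, vm]
        rw [this, conj_zpow, inv_inv]
      have h := (dm_sq_comm (pm (lam (N false true)) as * dm ^ as.length)).eq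
      rw [hv]
      calc dm⁻¹ * um (lam (N false true)) ^ a * dm * (pm (lam (N false true)) as * dm ^ as.length)
          = dm⁻¹ * um (lam (N false true)) ^ a * dm⁻¹ *
            (dm ^ 2 * (pm (lam (N false true)) as * dm ^ as.length)) := by rw [pow_two]; group
        _ = _ := by rw [h]; simp only [pow_succ, pow_zero, one_mul, mul_assoc]

/-- One step of the continuant. -/
noncomputable def stp (l : ℝ) (p : ℝ × ℝ) (a : ℤ) : ℝ × ℝ := (p.2, l * a * p.2 - p.1)

lemma pm_row (l : ℝ) (as : List ℤ) (p : ℝ × ℝ) :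
    p.2 * (pm l as : Matrix (Fin 2) (Fin 2) ℝ) 0 0 - p.1 * (pm l as : Matrix (Fin 2) (Fin 2) ℝ) 1 0 =
      (as.foldl (stp l) p).2 ∧
    p.2 * (pm l as : Matrix (Fin 2) (Fin 2) ℝ) 0 1 - p.1 * (pm l as : Matrix (Fin 2) (Fin 2) ℝ) 1 1 =
      -(as.foldl (stp l) p).1 := by
  induction as generalizing p with
  | nil => simp [pm]
  | cons a as ih =>
    have h0 : ((um l ^ a * dm⁻¹ : Matrix.SpecialLinearGroup (Fin 2) ℝ) :
        Matrix (Fin 2) (Fin 2) ℝ) = !![a * l, -1; 1, 0] := by
      rw [um_zpow, Matrix.SpecialLinearGroup.coe_mul, Matrix.SpecialLinearGroup.coe_inv]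
      simp [um, dm, Matrix.adjugate_fin_two, Matrix.mul_fin_two]
    have h1 : (pm l (a :: as) : Matrix (Fin 2) (Fin 2) ℝ) = !![a * l, -1; 1, 0] *
        (pm l as : Matrix (Fin 2) (Fin 2) ℝ) := by
      rw [pm, List.map_cons, List.prod_cons, Matrix.SpecialLinearGroup.coe_mul, h0]
      rfl
    have h2 := ih (stp l p a)
    rw [List.foldl_cons, ← h2.1, ← h2.2, h1]
    simp only [Matrix.mul_apply, Fin.sum_univ_two, stp]
    constructor
    · simp
      ring
    · simp
      ring

/-- The sign of an integer. -/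
def sgnb (a : ℤ) : Bool := decide (0 < a)

/-- The sign as a number. -/
def sv (e : Bool) : ℝ := if e then 1 else -1

lemma one_le_sv {a : ℤ} (h : a ≠ 0) : (1 : ℝ) ≤ sv (sgnb a) * a := by
  by_cases h0 : 0 < a
  · have : (1 : ℝ) ≤ a := by exact_mod_cast h0
    simpa [sv, sgnb, h0] using this
  · have h1 : a ≤ -1 := by omega
    have : (a : ℝ) ≤ -1 := by exact_mod_cast h1
    simp only [sv, sgnb, h0, decide_false, Bool.false_eq_true, if_false]
    linarith

lemma sv_sq (e : Bool) : sv e * sv e = 1 := by cases e <;> simp [sv]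

/-- The invariant. -/
def Inv (l : ℝ) (j : ℕ) (e : Bool) (p : ℝ × ℝ) : Prop :=
  p ≠ 0 ∧ ss l (j + 1) * p.1 ^ 2 ≤ sv e * p.1 * p.2 * ss l j

lemma stp_ne {l : ℝ} {p : ℝ × ℝ} (hp : p ≠ 0) (a : ℤ) : stp l p a ≠ 0 := by
  intro h
  have h1 := congrArg Prod.fst h
  have h2 := congrArg Prod.snd h
  simp only [stp, Prod.fst_zero, Prod.snd_zero] at h1 h2
  rw [h1] at h2
  apply hp
  ext
  · simp only [Prod.fst_zero]; linarith
  · exact h1

lemma inv_same {l : ℝ} (hl : 0 ≤ l) {j : ℕ} {p : ℝ × ℝ} {a : ℤ} (ha : a ≠ 0)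
    (hj : 0 < ss l j) (hj' : 0 < ss l (j + 1)) (h : Inv l j (sgnb a) p) :
    Inv l (j + 1) (sgnb a) (stp l p a) := by
  refine ⟨stp_ne h.1 a, ?_⟩
  have h1 := h.2
  have h2 := one_le_sv ha
  set e := sv (sgnb a) with he
  simp only [stp]
  rw [ss]
  set P := e * p.1 * p.2 with hP
  have h3 : P * ss l (j + 1) ≤ ss l j * p.2 ^ 2 := by
    by_cases hP0 : P ≤ 0
    · have : P * ss l (j + 1) ≤ 0 := mul_nonpos_of_nonpos_of_nonneg hP0 hj'.le
      have h4 : 0 ≤ ss l j * p.2 ^ 2 := by positivity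
      linarith
    · push Not at hP0
      have h4 : P * P = p.1 ^ 2 * p.2 ^ 2 := by
        have := sv_sq (sgnb a)
        rw [← he] at this
        rw [hP]
        calc e * p.1 * p.2 * (e * p.1 * p.2) = (e * e) * (p.1 ^ 2 * p.2 ^ 2) := by ring
          _ = _ := by rw [this, one_mul]
      have h5 : P * (P * ss l (j + 1)) ≤ P * (ss l j * p.2 ^ 2) := by
        calc P * (P * ss l (j + 1)) = (P * P) * ss l (j + 1) := by ring
          _ = p.2 ^ 2 * (ss l (j + 1) * p.1 ^ 2) := by rw [h4]; ring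
          _ ≤ p.2 ^ 2 * (P * ss l j) := by
            apply mul_le_mul_of_nonneg_left h1 (by positivity)
          _ = _ := by ring
      exact le_of_mul_le_mul_left h5 hP0
  have h6 : e * p.2 * (l * a * p.2 - p.1) * ss l (j + 1) =
      l * (e * a) * p.2 ^ 2 * ss l (j + 1) - P * ss l (j + 1) := by rw [hP]; ring
  rw [h6]
  have h7 : l * 1 * p.2 ^ 2 * ss l (j + 1) ≤ l * (e * a) * p.2 ^ 2 * ss l (j + 1) := by
    gcongr
  nlinarith

lemma inv_change {l : ℝ} (hl : 0 ≤ l) {j : ℕ} {e : Bool} {p : ℝ × ℝ} {a : ℤ} (ha : a ≠ 0)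
    (hj : 0 < ss l j) (hj' : 0 ≤ ss l (j + 1)) (h : Inv l j e p) (hne : sgnb a ≠ e) :
    Inv l 1 (sgnb a) (stp l p a) := by
  refine ⟨stp_ne h.1 a, ?_⟩
  have h1 := h.2
  have h2 := one_le_sv ha
  have h3 : sv e = -sv (sgnb a) := by
    cases e <;> cases h : sgnb a <;> simp_all [sv]
  rw [h3] at h1
  set f := sv (sgnb a) with hf
  have h4 : 0 ≤ -f * p.1 * p.2 := by
    have h5 : 0 ≤ ss l (j + 1) * p.1 ^ 2 := by positivity
    have h6 : 0 ≤ -f * p.1 * p.2 * ss l j := h5.trans h1
    exact nonneg_of_mul_nonneg_left h6 hj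
  have e1 : ss l (1 + 1) = l := by simp [ss]
  have e2 : ss l 1 = 1 := by simp [ss]
  simp only [stp]
  rw [e1, e2, mul_one]
  have h7 : l * 1 * p.2 ^ 2 ≤ l * (f * a) * p.2 ^ 2 := by gcongr
  nlinarith

lemma inv_start {l : ℝ} (hl : 0 ≤ l) {a : ℤ} (ha : a ≠ 0) :
    Inv l 1 (sgnb a) (stp l (0, 1) a) := by
  refine ⟨stp_ne (by simp) a, ?_⟩
  have h2 := one_le_sv ha
  have e1 : ss l (1 + 1) = l := by simp [ss]
  have e2 : ss l 1 = 1 := by simp [ss]
  simp only [stp]
  rw [e1, e2]
  have h7 : l * 1 ≤ l * (sv (sgnb a) * a) := by gcongr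
  nlinarith

/-- The runs of equal signs have length at most `k`, the last one less than `k`; the current run
has length `j` and the sign `e`. -/
def ok (k : ℕ) : ℕ → Bool → List Bool → Bool
  | j, _, [] => decide (j + 1 ≤ k)
  | j, e, f :: l => if f = e then decide (j + 1 ≤ k) && ok k (j + 1) e l else ok k 1 f l

lemma runs_ne {l : ℝ} (hl : 0 ≤ l) {k : ℕ} (hk1 : 1 ≤ k) (hpos : ∀ i, 1 ≤ i → i ≤ k → 0 < ss l i)
    (hk : 0 ≤ ss l (k + 1)) : ∀ (as : List ℤ), (∀ a ∈ as, a ≠ 0) → ∀ (j : ℕ) (e : Bool)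
    (p : ℝ × ℝ), 1 ≤ j → j ≤ k → Inv l j e p → ok k j e (as.map sgnb) = true →
    (as.foldl (stp l) p).2 ≠ 0 := by
  intro as
  induction as with
  | nil =>
    intro _ j e p h1 h2 hinv hok h0
    simp only [List.map_nil, ok, decide_eq_true_eq] at hok
    simp only [List.foldl_nil] at h0
    have h3 := hpos (j + 1) (by omega) hok
    have h4 := hinv.2
    rw [h0, mul_zero, zero_mul] at h4
    have h5 : p.1 ^ 2 ≤ 0 := by
      by_contra hcon
      push Not at hcon
      have := mul_pos h3 hcon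
      linarith
    have h6 : p.1 = 0 := by
      have := sq_nonneg p.1
      exact pow_eq_zero_iff (two_ne_zero) |>.mp (le_antisymm h5 this)
    exact hinv.1 (Prod.ext h6 h0)
  | cons a as ih =>
    intro hne j e p h1 h2 hinv hok
    rw [List.foldl_cons]
    have ha : a ≠ 0 := hne a (by simp)
    have hne' : ∀ b ∈ as, b ≠ 0 := fun b hb => hne b (by simp [hb])
    rw [List.map_cons, ok] at hok
    by_cases hs : sgnb a = e
    · rw [if_pos hs, Bool.and_eq_true, decide_eq_true_eq] at hok
      subst hs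
      exact ih hne' (j + 1) _ _ (by omega) hok.1
        (inv_same hl ha (hpos j h1 h2) (hpos (j + 1) (by omega) hok.1) hinv) hok.2
    · rw [if_neg hs] at hok
      have h5 : 0 ≤ ss l (j + 1) := by
        rcases Nat.lt_or_ge j k with h6 | h6
        · exact (hpos (j + 1) (by omega) (by omega)).le
        · have : j = k := by omega
          rw [this]; exact hk
      exact ih hne' 1 _ _ le_rfl hk1 (inv_change hl ha (hpos j h1 h2) h5 hinv hs) hok

/-- The runs of a list of signs. -/
def okk (k : ℕ) : List Bool → Bool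
  | [] => false
  | f :: l => ok k 1 f l

lemma runs_ne' {l : ℝ} (hl : 0 ≤ l) {k : ℕ} (hk1 : 1 ≤ k) (hpos : ∀ i, 1 ≤ i → i ≤ k → 0 < ss l i)
    (hk : 0 ≤ ss l (k + 1)) (as : List ℤ) (hne : ∀ a ∈ as, a ≠ 0)
    (hok : okk k (as.dropLast.map sgnb) = true) :
    ((pm l as : Matrix.SpecialLinearGroup (Fin 2) ℝ) : Matrix (Fin 2) (Fin 2) ℝ) 0 1 ≠ 0 := by
  have h0 : as ≠ [] := by
    rintro rfl
    simp [okk] at hok
  obtain ⟨bs, b, rfl⟩ : ∃ bs b, as = bs ++ [b] := ⟨as.dropLast, as.getLast h0,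
    (List.dropLast_concat_getLast h0).symm⟩
  rw [List.dropLast_concat] at hok
  have h1 := (pm_row l (bs ++ [b]) (0, 1)).2
  simp only [one_mul, zero_mul, sub_zero] at h1
  rw [h1, List.foldl_append]
  simp only [List.foldl_cons, List.foldl_nil, stp]
  rw [neg_ne_zero]
  match bs, hok, hne with
  | [], hok, _ => simp [okk] at hok
  | c :: bs, hok, hne =>
    rw [List.map_cons, okk] at hok
    rw [List.foldl_cons]
    exact runs_ne hl hk1 hpos hk bs (fun a ha => hne a (by simp [ha])) 1 _ _ le_rfl hk1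
      (inv_start hl (hne c (by simp))) hok

lemma pm_rotate {l : ℝ} {as : List ℤ} {z : Matrix.SpecialLinearGroup (Fin 2) ℝ}
    (hz : ∀ x, Commute z x) (h : pm l as = z) (r : ℕ) : pm l (as.rotate r) = z := by
  induction r with
  | zero => simpa using h
  | succ r ih =>
    rw [← List.rotate_rotate]
    match as.rotate r, ih with
    | [], ih => simpa using ih
    | a :: bs, ih =>
      rw [List.rotate_cons_succ, List.rotate_zero]
      rw [pm, List.map_cons, List.prod_cons] at ih
      rw [pm, List.map_append, List.prod_append, List.map_cons, List.map_nil, List.prod_singleton]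
      have h1 : (bs.map fun a => um l ^ a * dm⁻¹).prod = (um l ^ a * dm⁻¹)⁻¹ * z := by
        rw [← ih]; group
      rw [h1, mul_assoc, (hz _).eq, inv_mul_cancel_left]

lemma signs6 : ∀ a b c d e f : Bool, ¬ (a = b ∧ b = c ∧ c = d ∧ d = e ∧ e = f) →
    ∃ r : Fin 6, okk 3 ((List.rotate [a, b, c, d, e, f] r).dropLast) = true := by decide

lemma signs8 : ∀ a b c d e f g h : Bool,
    ([b, c, d, e, f, g, h].all (fun x => x == a) || (List.range 8).any fun r =>
      okk 4 ((List.rotate [a, b, c, d, e, f, g, h] r).dropLast)) = true := by decide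

lemma dm_four : dm ^ 2 * dm ^ 2 = 1 := by
  apply Subtype.ext
  rw [Matrix.SpecialLinearGroup.coe_mul, dm_sq_coe, Matrix.SpecialLinearGroup.coe_one]
  ext i j
  fin_cases i <;> fin_cases j <;>
    simp [Matrix.mul_apply, Fin.sum_univ_two]

lemma lam_four {m : ℕ} (h : m = 0 ∨ 4 ≤ m) : 0 ≤ lam m ∧ 2 ≤ lam m ^ 2 := by
  rcases h with rfl | h
  · simp [lam]; norm_num
  · have h4 : (4 : ℝ) ≤ m := by exact_mod_cast h
    have h1 : cos (π / 4) ≤ cos (π / m) := by
      apply cos_le_cos_of_nonneg_of_le_pi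
      · positivity
      · linarith [pi_pos]
      · exact div_le_div_of_nonneg_left pi_pos.le (by norm_num) h4
    rw [cos_pi_div_four] at h1
    have h2 : 0 < √2 := by positivity
    have h3 : √2 ^ 2 = 2 := Real.sq_sqrt (by norm_num)
    have h5 : √2 ≤ lam m := by rw [lam]; linarith
    exact ⟨by linarith, by nlinarith⟩

lemma lam_five {m : ℕ} (h : m = 0 ∨ 5 ≤ m) : 0 ≤ lam m ∧ lam m + 1 ≤ lam m ^ 2 := by
  rcases h with rfl | h
  · simp [lam]; norm_num
  · have h4 : (5 : ℝ) ≤ m := by exact_mod_cast h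
    have h1 : cos (π / 5) ≤ cos (π / m) := by
      apply cos_le_cos_of_nonneg_of_le_pi
      · positivity
      · linarith [pi_pos]
      · exact div_le_div_of_nonneg_left pi_pos.le (by norm_num) h4
    rw [cos_pi_div_five] at h1
    have h2 : 0 < √5 := by positivity
    have h3 : √5 ^ 2 = 5 := Real.sq_sqrt (by norm_num)
    have h5 : (1 + √5) / 2 ≤ lam m := by rw [lam]; linarith
    exact ⟨by linarith, by nlinarith⟩

lemma ss_four {l : ℝ} (h0 : 0 ≤ l) (h : 2 ≤ l ^ 2) :
    (∀ i, 1 ≤ i → i ≤ 3 → 0 < ss l i) ∧ 0 ≤ ss l (3 + 1) := by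
  have hl : 0 < l := by nlinarith
  have e4 : ss l (3 + 1) = l * (l ^ 2 - 2) := by simp only [ss]; ring
  refine ⟨?_, ?_⟩
  · intro i h1 h3
    interval_cases i
    · simp [ss]
    · simp only [ss]; linarith
    · simp only [ss]; nlinarith
  · rw [e4]
    exact mul_nonneg h0 (by linarith)

lemma ss_five {l : ℝ} (h0 : 0 ≤ l) (h : l + 1 ≤ l ^ 2) :
    (∀ i, 1 ≤ i → i ≤ 4 → 0 < ss l i) ∧ 0 ≤ ss l (4 + 1) := by
  have hl : 1 ≤ l := by nlinarith
  have h2 : 2 < l ^ 2 := by nlinarith
  have e5 : ss l (4 + 1) = (l ^ 2 - l - 1) * (l ^ 2 + l - 1) := by simp only [ss]; ring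
  refine ⟨?_, ?_⟩
  · intro i h1 h3
    interval_cases i
    · simp [ss]
    · simp only [ss]; linarith
    · simp only [ss]; nlinarith
    · have e4 : ss l 4 = l * (l ^ 2 - 2) := by simp only [ss]; ring
      rw [e4]
      exact mul_pos (by linarith) (by linarith)
  · rw [e5]
    exact mul_nonneg (by linarith) (by linarith)

variable {B : Type*} [Fintype B] [DecidableEq B] {M : CoxeterMatrix B}

lemma lenHom_aw (s t : B) (as : List ℤ) :
    lenHom M (value M (aw s t as)) = Multiplicative.ofAdd as.sum := by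
  induction as generalizing s t with
  | nil => simp [aw]
  | cons a as ih =>
    rw [aw, value_cons, map_mul, ih, map_zpow, lenHom_gen, List.sum_cons, ofAdd_add]
    congr 1
    rw [← ofAdd_zsmul]
    simp

lemma sum_of_value {s t : B} {as : List ℤ} (h : value M (aw s t as) = 1) : as.sum = 0 := by
  have h1 := lenHom_aw (M := M) s t as
  rw [h, map_one] at h1
  exact (Multiplicative.ofAdd.injective (h1.trans rfl)).symm

/-- The embedding of two elements. -/
def two {s t : B} (hst : s ≠ t) : Bool ↪ B :=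
  ⟨fun b => if b then t else s, by
    intro a b h
    cases a <;> cases b <;> simp_all⟩

lemma par_value (f : Bool ↪ B) (as : List ℤ) (b c : Bool) :
    par M f (value (comap M f) (aw b c as)) = value M (aw (f b) (f c) as) := by
  induction as generalizing b c with
  | nil => simp [aw]
  | cons a as ih => rw [aw, value_cons, map_mul, ih, map_zpow, par_gen, aw, value_cons]

lemma pm_of_value {s t : B} (hst : s ≠ t) {as : List ℤ} (h : value M (aw s t as) = 1) :
    pm (lam (M s t)) as * dm ^ as.length = 1 := by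
  have h1 : par M (two hst) (value (comap M (two hst)) (aw false true as)) = 1 := by
    rw [par_value]
    exact h
  have h2 : value (comap M (two hst)) (aw false true as) = 1 :=
    par_injective M (two hst) (h1.trans (map_one _).symm)
  have h3 := (tv_value (comap M (two hst)) as).1
  rw [h2, map_one] at h3
  exact h3.symm

/-- **Short alternating words.** -/
theorem aw_ne_one {s t : B} (hst : s ≠ t) {as : List ℤ} (hne : ∀ a ∈ as, a ≠ 0)
    (h : (as.length = 6 ∧ (M s t = 0 ∨ 4 ≤ M s t)) ∨ (as.length = 8 ∧ (M s t = 0 ∨ 5 ≤ M s t))) :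
    value M (aw s t as) ≠ 1 := by
  intro hv
  have hsum := sum_of_value hv
  have hp := pm_of_value hst hv
  have hne' : ∀ r, ∀ a ∈ as.rotate r, a ≠ 0 := fun r a ha => hne a (List.mem_rotate.mp ha)
  rcases h with ⟨hlen, hm⟩ | ⟨hlen, hm⟩
  · have hz : pm (lam (M s t)) as = dm ^ 2 := by
      rw [hlen] at hp
      have h6 : dm ^ 6 = dm ^ 2 := by
        calc dm ^ 6 = dm ^ 2 * dm ^ 2 * dm ^ 2 := by group
          _ = dm ^ 2 := by rw [dm_four, one_mul]
      rw [h6] at hp
      rw [eq_inv_of_mul_eq_one_left hp]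
      exact inv_eq_of_mul_eq_one_right dm_four
    obtain ⟨r, hr⟩ : ∃ r : ℕ, okk 3 ((as.rotate r).dropLast.map sgnb) = true := by
      match as, hlen, hsum, hne with
      | [a, b, c, d, e, f], _, hsum, hne =>
        obtain ⟨r, hr⟩ := signs6 (sgnb a) (sgnb b) (sgnb c) (sgnb d) (sgnb e) (sgnb f) (by
          rintro ⟨h1, h2, h3, h4, h5⟩
          simp only [sgnb, decide_eq_decide] at h1 h2 h3 h4 h5
          simp only [List.sum_cons, List.sum_nil] at hsum
          have ha := hne a (by simp)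
          have hb := hne b (by simp)
          have hc := hne c (by simp)
          have hd := hne d (by simp)
          have he := hne e (by simp)
          have hf := hne f (by simp)
          omega)
        refine ⟨r, ?_⟩
        rw [List.map_dropLast, List.map_rotate]
        exact hr
    obtain ⟨l0, l2⟩ := lam_four hm
    obtain ⟨p1, p2⟩ := ss_four l0 l2
    apply runs_ne' l0 (by norm_num) p1 p2 (as.rotate r) (hne' r) hr
    rw [pm_rotate dm_sq_comm hz, dm_sq_coe]
    simp
  · have hz : pm (lam (M s t)) as = 1 := by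
      rw [hlen] at hp
      have h8 : dm ^ 8 = 1 := by
        calc dm ^ 8 = (dm ^ 2 * dm ^ 2) * (dm ^ 2 * dm ^ 2) := by group
          _ = 1 := by rw [dm_four, one_mul]
      rwa [h8, mul_one] at hp
    obtain ⟨r, hr⟩ : ∃ r : ℕ, okk 4 ((as.rotate r).dropLast.map sgnb) = true := by
      match as, hlen, hsum, hne with
      | [a, b, c, d, e, f, g, h], _, hsum, hne =>
        have hS := signs8 (sgnb a) (sgnb b) (sgnb c) (sgnb d) (sgnb e) (sgnb f) (sgnb g) (sgnb h)
        rw [Bool.or_eq_true] at hS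
        rcases hS with hS | hS
        · exfalso
          simp only [List.all_cons, List.all_nil, Bool.and_true, Bool.and_eq_true, beq_iff_eq,
            sgnb, decide_eq_decide] at hS
          obtain ⟨h1, h2, h3, h4, h5, h6, h7⟩ := hS
          simp only [List.sum_cons, List.sum_nil] at hsum
          have ha := hne a (by simp)
          have hb := hne b (by simp)
          have hc := hne c (by simp)
          have hd := hne d (by simp)
          have he := hne e (by simp)
          have hf := hne f (by simp)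
          have hg := hne g (by simp)
          have hh := hne h (by simp)
          omega
        · rw [List.any_eq_true] at hS
          obtain ⟨r, -, hr⟩ := hS
          refine ⟨r, ?_⟩
          rw [List.map_dropLast, List.map_rotate]
          exact hr
    obtain ⟨l0, l2⟩ := lam_five hm
    obtain ⟨p1, p2⟩ := ss_five l0 l2
    apply runs_ne' l0 (by norm_num) p1 p2 (as.rotate r) (hne' r) hr
    rw [pm_rotate (fun x => Commute.one_left x) hz]
    simp

/-- The commutator of a power of `s` with `t ^ b u ^ c t ^ d`. -/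
theorem not_commute_three {s t u : B} (hst : s ≠ t) (hsu : s ≠ u) (htu : t ≠ u)
    (h2 : M s t ≠ 2) (h2' : M u t ≠ 2) (h2u : M s u = 2) {a b c d : ℤ} (ha : a ≠ 0) (hc : c ≠ 0)
    (hd : d ≠ 0) : ¬ Commute (Artin.gen M s ^ a)
      (Artin.gen M t ^ b * (Artin.gen M u ^ c * Artin.gen M t ^ d)) := by
  intro hcomm
  have hr : (1 : ℝ) ≠ 0 := one_ne_zero
  have hpos : (1 + exp (1 : ℝ) ^ 2) ≠ 0 := by positivity
  have hμ : (-exp (1 : ℝ) ^ 2) ≠ 0 := by
    have : 0 < exp (1 : ℝ) ^ 2 := by positivity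
    linarith
  set x := ap M 1 (Artin.gen M t ^ b * (Artin.gen M u ^ c * Artin.gen M t ^ d)) (ee s) with hx
  have e1 : ap M 1 (Artin.gen M s ^ a) x = (-exp (1 : ℝ) ^ 2) ^ a • x := by
    rw [hx, ← ap_mul, hcomm.eq, ap_mul, ap_zpow 1 _ hμ (by rw [ap_gen, df_ee_self]) a, ap_smul]
  rw [ap_gen_zpow] at e1
  have e2 : x u = 0 := by
    have h3 := congrFun e1 u
    simp only [Pi.add_apply, Pi.smul_apply, ee, Pi.single_apply, (Ne.symm hsu), if_false,
      smul_eq_mul, mul_zero, add_zero] at h3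
    have h4 := neg_zpow_ne_one hr ha
    have h5 : (1 - (-exp (1 : ℝ) ^ 2) ^ a) * x u = 0 := by
      rw [sub_mul, one_mul]
      exact sub_eq_zero.mpr h3
    exact (mul_eq_zero.mp h5).resolve_left (sub_ne_zero.mpr (Ne.symm h4))
  have ht : Artin.gen M t ^ b ∈ sub M {y | y ≠ u} := zpow_mem (gen_mem_sub htu) _
  rw [hx, ap_mul, ap_coord 1 ht, ap_mul, ap_gen_zpow, ap_gen_zpow] at e2
  have hcu : cc M s u = 0 := by
    simp [cc, h2u]
  have hcst : cc M t s ≠ 0 := cc_ne_zero (M := M) (Ne.symm hst) (by rw [M.symmetric]; exact h2)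
  have hcut : cc M u t ≠ 0 := cc_ne_zero (M := M) (Ne.symm htu) h2'
  simp only [Pi.add_apply, Pi.smul_apply, ee, Pi.single_apply, Ne.symm hsu, Ne.symm htu, if_false,
    smul_eq_mul, mul_zero, add_zero, zero_add, if_true, mul_one] at e2
  have e3 : pcr M 1 u (Pi.single s 1) = 0 := by
    have := pcr_ne M 1 (Ne.symm hsu)
    rw [ee] at this
    rw [this, cc_symm, hcu, mul_zero]
  have e4 : pcr M 1 u (Pi.single t 1) = -2 * exp 1 * cc M u t := pcr_ne M 1 (Ne.symm htu)
  have e5 : pcr M 1 t (Pi.single s 1) = -2 * exp 1 * cc M t s := pcr_ne M 1 (Ne.symm hst)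
  have h4 := neg_zpow_ne_one hr hc
  have h5 := neg_zpow_ne_one hr hd
  rw [map_add, map_smul, e3, e4, e5, zero_add, smul_eq_mul] at e2
  have hE : exp (1 : ℝ) ≠ 0 := (exp_pos 1).ne'
  have : (-2 * exp 1 * cc M t s / (1 + exp 1 ^ 2) * ((-exp 1 ^ 2) ^ d - 1) *
      (-2 * exp 1 * cc M u t)) / (1 + exp 1 ^ 2) * ((-exp 1 ^ 2) ^ c - 1) ≠ 0 := by
    apply mul_ne_zero
    · apply div_ne_zero _ hpos
      apply mul_ne_zero
      · apply mul_ne_zero
        · apply div_ne_zero _ hpos
          exact mul_ne_zero (mul_ne_zero (by norm_num) hE) hcst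
        · exact sub_ne_zero.mpr h5
      · exact mul_ne_zero (mul_ne_zero (by norm_num) hE) hcut
    · exact sub_ne_zero.mpr h4
  exact this e2

end Pool.Agent.Q220.VL
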