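import Pool.Agent.Q220.VL.Inf

set_option autoImplicit false
set_option linter.unusedSectionVars false
set_option linter.unusedSimpArgs false
set_option linter.unusedVariables false

/-!
# A two-generator group which contains all Artin groups
-/

namespace Pool.Agent.Q220.VL

open Pool.Agent.Helper741 CoxeterSystem

/-- The label of two generators `i < j`, read from a list of rows; `0` (and also `1`) stands for
infinity. -/
def entry (L : List (List ℕ)) (i j : ℕ) : ℕ :=
  if (L.getD i []).getD j 0 = 1 then 0 else (L.getD i []).getD j 0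

lemma entry_ne_one (L : List (List ℕ)) (i j : ℕ) : entry L i j ≠ 1 := by
  unfold entry
  split_ifs with h
  · omega
  · exact h

/-- The Coxeter matrix which is given by a list of rows. -/
def mat (L : List (List ℕ)) : CoxeterMatrix (Fin L.length) where
  M := Matrix.of fun i j => if i = j then 1 else entry L (min i.1 j.1) (max i.1 j.1)
  isSymm := by
    ext i j
    change (if j = i then 1 else entry L (min j.1 i.1) (max j.1 i.1)) =
      (if i = j then 1 else entry L (min i.1 j.1) (max i.1 j.1))
    rw [min_comm, max_comm]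
    by_cases h : i = j
    · simp [h]
    · simp [h, Ne.symm h]
  diagonal i := by
    change (if i = i then 1 else _) = 1
    simp
  off_diagonal i j h := by
    change (if i = j then 1 else entry L (min i.1 j.1) (max i.1 j.1)) ≠ 1
    rw [if_neg h]
    exact entry_ne_one _ _ _

lemma mat_apply (L : List (List ℕ)) (i j : Fin L.length) :
    mat L i j = if i = j then 1 else entry L (min i.1 j.1) (max i.1 j.1) := rfl

/-- The position of the generator number `i` of the matrix with the rows `L`. -/
def pos (L : List (List ℕ)) (i : ℕ) : ℕ := 2 ^ Nat.pair (Encodable.encode L) i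

/-- The conjugate `t ^ k s t ^ (-k)` in the free group on `s = true` and `t = false`. -/
def conj (k : ℕ) : FreeGroup Bool :=
  FreeGroup.of false ^ k * FreeGroup.of true * (FreeGroup.of false ^ k)⁻¹

/-- The relators of the group with two generators. -/
def relators : Set (FreeGroup Bool) :=
  {r | ∃ (L : List (List ℕ)) (i j : ℕ), i < j ∧
    r = alt (conj (pos L i)) (conj (pos L j)) (entry L i j) *
      (alt (conj (pos L j)) (conj (pos L i)) (entry L i j))⁻¹}

/-- The group with two generators. -/
abbrev GG : Type := PresentedGroup relators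

/-- The Toeplitz label. -/
def nu (a b : ℕ) : ℕ :=
  if (Nat.unpair a).1 = (Nat.unpair b).1 then
    entry (Denumerable.ofNat (List (List ℕ)) (Nat.unpair a).1) (Nat.unpair a).2 (Nat.unpair b).2
  else 0

lemma nu_ne_one (a b : ℕ) : nu a b ≠ 1 := by
  unfold nu
  split_ifs
  · exact entry_ne_one _ _ _
  · omega

/-- The index of the difference. -/
def idx (d : ℕ) : ℕ :=
  Nat.findGreatest (fun k => 2 ^ (Nat.unpair k).2 = d + 2 ^ (Nat.unpair k).1) ((d + 1) ^ 2)

/-- The label of two integers with the distance `d`. -/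
def mu (d : ℕ) : ℕ :=
  if 2 ^ (Nat.unpair (idx d)).2 = d + 2 ^ (Nat.unpair (idx d)).1 then
    nu (Nat.unpair (idx d)).1 (Nat.unpair (idx d)).2 else 0

lemma mu_ne_one (d : ℕ) : mu d ≠ 1 := by
  unfold mu
  split_ifs
  · exact nu_ne_one _ _
  · omega

lemma pow_diff_unique {a b a' b' : ℕ} (h : a < b) (h' : a' < b')
    (e : (2 : ℕ) ^ b + 2 ^ a' = 2 ^ b' + 2 ^ a) : a = a' ∧ b = b' := by
  have key : ∀ a b a' b' : ℕ, a < b → a' < b' → (2 : ℕ) ^ b + 2 ^ a' = 2 ^ b' + 2 ^ a →
      b ≤ b' := by
    intro a b a' b' h h' e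
    by_contra hcon
    have h1 : b' + 1 ≤ b := by omega
    have h2 : (2 : ℕ) ^ (b' + 1) ≤ 2 ^ b := Nat.pow_le_pow_right (by norm_num) h1
    have h3 : (2 : ℕ) ^ (a + 1) ≤ 2 ^ b := Nat.pow_le_pow_right (by norm_num) h
    have h4 : 0 < (2 : ℕ) ^ a' := by positivity
    rw [pow_succ] at h2 h3
    omega
  have h1 : b = b' := le_antisymm (key a b a' b' h h' e) (key a' b' a b h' h e.symm)
  subst h1
  have h2 : (2 : ℕ) ^ a' = 2 ^ a := by omega
  exact ⟨(Nat.pow_right_injective le_rfl h2).symm, rfl⟩

lemma idx_spec {a b d : ℕ} (hd : 0 < d) (h : (2 : ℕ) ^ b = d + 2 ^ a) :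
    (Nat.unpair (idx d)).1 = a ∧ (Nat.unpair (idx d)).2 = b := by
  have hab : a < b := by
    by_contra hcon
    have : (2 : ℕ) ^ b ≤ 2 ^ a := Nat.pow_le_pow_right (by norm_num) (by omega)
    omega
  have hbd : b ≤ d := by
    have h1 : (2 : ℕ) ^ (a + 1) ≤ 2 ^ b := Nat.pow_le_pow_right (by norm_num) hab
    rw [pow_succ] at h1
    have h2 : (2 : ℕ) ^ b ≤ 2 * d := by omega
    have h3 : (2 : ℕ) ^ (b - 1) ≤ d := by
      obtain ⟨c, rfl⟩ : ∃ c, b = c + 1 := ⟨b - 1, by omega⟩
      rw [pow_succ] at h2
      simpa using by omega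
    have h4 : b - 1 < 2 ^ (b - 1) := Nat.lt_two_pow_self
    omega
  have hle : Nat.pair a b ≤ (d + 1) ^ 2 := by
    have h1 := Nat.pair_lt_max_add_one_sq a b
    have h2 : max a b + 1 ≤ d + 1 := by omega
    exact h1.le.trans (Nat.pow_le_pow_left h2 2)
  have hP : (fun k => (2 : ℕ) ^ (Nat.unpair k).2 = d + 2 ^ (Nat.unpair k).1) (Nat.pair a b) := by
    simp only [Nat.unpair_pair]
    exact h
  have hspec : (2 : ℕ) ^ (Nat.unpair (idx d)).2 = d + 2 ^ (Nat.unpair (idx d)).1 :=
    Nat.findGreatest_spec (P := fun k => (2 : ℕ) ^ (Nat.unpair k).2 = d + 2 ^ (Nat.unpair k).1)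
      hle hP
  have hlt : (Nat.unpair (idx d)).1 < (Nat.unpair (idx d)).2 := by
    by_contra hcon
    have : (2 : ℕ) ^ (Nat.unpair (idx d)).2 ≤ 2 ^ (Nat.unpair (idx d)).1 :=
      Nat.pow_le_pow_right (by norm_num) (by omega)
    omega
  have := pow_diff_unique hlt hab (by omega)
  exact this

lemma pos_lt (L : List (List ℕ)) {i j : ℕ} (h : i < j) : pos L i < pos L j :=
  Nat.pow_lt_pow_right (by norm_num) (Nat.pair_lt_pair_right _ h)

lemma pos_inj (L : List (List ℕ)) {i j : ℕ} (h : pos L i = pos L j) : i = j := by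
  rcases lt_trichotomy i j with h1 | h1 | h1
  · exact absurd h (pos_lt L h1).ne
  · exact h1
  · exact absurd h (pos_lt L h1).ne'

lemma mu_pos (L : List (List ℕ)) {i j : ℕ} (h : i < j) : mu (pos L j - pos L i) = entry L i j := by
  have hlt := pos_lt L h
  have h1 := idx_spec (a := Nat.pair (Encodable.encode L) i) (b := Nat.pair (Encodable.encode L) j)
    (d := pos L j - pos L i) (by omega) (by
      change pos L j = pos L j - pos L i + pos L i
      omega)
  have h2 : 2 ^ Nat.pair (Encodable.encode L) j =
      pos L j - pos L i + 2 ^ Nat.pair (Encodable.encode L) i := by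
    change pos L j = pos L j - pos L i + pos L i
    omega
  unfold mu
  rw [h1.1, h1.2]
  rw [if_pos h2]
  unfold nu
  simp only [Nat.unpair_pair, if_true, Denumerable.ofNat_encode]

lemma exists_of_mu {d : ℕ} (hd : 0 < d) (h : mu d ≠ 0) :
    ∃ (L : List (List ℕ)) (i j : ℕ), i < j ∧ pos L j = d + pos L i ∧ mu d = entry L i j := by
  unfold mu at h
  by_cases h1 : (2 : ℕ) ^ (Nat.unpair (idx d)).2 = d + 2 ^ (Nat.unpair (idx d)).1
  · rw [if_pos h1] at h
    unfold nu at h
    by_cases h2 : (Nat.unpair (Nat.unpair (idx d)).1).1 = (Nat.unpair (Nat.unpair (idx d)).2).1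
    · rw [if_pos h2] at h
      set a := (Nat.unpair (idx d)).1 with ha
      set b := (Nat.unpair (idx d)).2 with hb
      set c := (Nat.unpair a).1 with hc
      set L : List (List ℕ) := Denumerable.ofNat (List (List ℕ)) c with hL
      have hLc : Encodable.encode L = c := Denumerable.encode_ofNat c
      have e1 : pos L (Nat.unpair a).2 = 2 ^ a := by
        rw [pos, hLc, hc, Nat.pair_unpair]
      have e2 : pos L (Nat.unpair b).2 = 2 ^ b := by
        rw [pos, hLc, h2, Nat.pair_unpair]
      refine ⟨L, (Nat.unpair a).2, (Nat.unpair b).2, ?_, ?_, ?_⟩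
      · by_contra hcon
        rcases Nat.lt_or_eq_of_le (not_lt.mp hcon) with h3 | h3
        · have := pos_lt L h3
          omega
        · rw [h3] at e2
          omega
      · rw [e1, e2]; exact h1
      · unfold mu nu
        rw [← ha, ← hb, if_pos h1, ← hc, if_pos h2]
    · rw [if_neg h2] at h
      exact absurd rfl h
  · rw [if_neg h1] at h
    exact absurd rfl h

/-- The Toeplitz matrix on the integers. -/
def toepl : CoxeterMatrix ℤ where
  M := Matrix.of fun x y => if x = y then 1 else mu (x - y).natAbs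
  isSymm := by
    ext x y
    change (if y = x then 1 else mu (y - x).natAbs) = (if x = y then 1 else mu (x - y).natAbs)
    rw [← Int.natAbs_neg, neg_sub]
    by_cases h : x = y
    · simp [h]
    · simp [h, Ne.symm h]
  diagonal x := by
    change (if x = x then 1 else _) = 1
    simp
  off_diagonal x y h := by
    change (if x = y then 1 else mu (x - y).natAbs) ≠ 1
    rw [if_neg h]
    exact mu_ne_one _

lemma toepl_apply (x y : ℤ) : toepl x y = if x = y then 1 else mu (x - y).natAbs := rfl

lemma toepl_add (x y z : ℤ) : toepl (x + z) (y + z) = toepl x y := by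
  rw [toepl_apply, toepl_apply, add_sub_add_right_eq_sub]
  by_cases h : x = y
  · simp [h]
  · simp [h]

/-- The shift. -/
def shiftHom (z : ℤ) : Artin toepl →* Artin toepl :=
  Artin.lift (fun x => Artin.gen toepl (x + z)) fun x y => by
    rw [← toepl_add x y z]
    exact Artin.rel (x + z) (y + z)

lemma shiftHom_gen (z x : ℤ) : shiftHom z (Artin.gen toepl x) = Artin.gen toepl (x + z) :=
  Artin.lift_gen _ _ x

/-- The shift as an automorphism. -/
def shift : MulAut (Artin toepl) where
  toFun := shiftHom 1
  invFun := shiftHom (-1)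
  left_inv x := by
    have h : (shiftHom (-1)).comp (shiftHom 1) = MonoidHom.id _ := by
      apply Artin.hom_ext
      intro i
      simp [shiftHom_gen]
    exact DFunLike.congr_fun h x
  right_inv x := by
    have h : (shiftHom 1).comp (shiftHom (-1)) = MonoidHom.id _ := by
      apply Artin.hom_ext
      intro i
      simp [shiftHom_gen]
    exact DFunLike.congr_fun h x
  map_mul' := map_mul _

lemma shift_gen (x : ℤ) : shift (Artin.gen toepl x) = Artin.gen toepl (x + 1) := shiftHom_gen 1 x

lemma shift_zpow_gen (k x : ℤ) : (shift ^ k) (Artin.gen toepl x) = Artin.gen toepl (x + k) := by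
  induction k using Int.induction_on generalizing x with
  | zero => simp
  | succ k ih => rw [zpow_add_one, MulAut.mul_apply, shift_gen, ih]; congr 1; ring
  | pred k ih =>
    have h : shift⁻¹ (Artin.gen toepl x) = Artin.gen toepl (x - 1) := by
      rw [MulAut.inv_apply, MulEquiv.symm_apply_eq, shift_gen]
      congr 1; ring
    rw [zpow_sub_one, MulAut.mul_apply, h, ih]; congr 1; ring

/-- The action of the integers. -/
def phi : Multiplicative ℤ →* MulAut (Artin toepl) := zpowersHom _ shift

lemma phi_gen (k x : ℤ) :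
    phi (Multiplicative.ofAdd k) (Artin.gen toepl x) = Artin.gen toepl (x + k) := by
  rw [phi, zpowersHom_apply, toAdd_ofAdd, shift_zpow_gen]

/-- The semidirect product. -/
abbrev SS : Type := SemidirectProduct (Artin toepl) (Multiplicative ℤ) phi

open SemidirectProduct in
lemma conj_inr (k x : ℤ) :
    (inr (Multiplicative.ofAdd k) : SS) * inl (Artin.gen toepl x) *
      (inr (Multiplicative.ofAdd k))⁻¹ = inl (Artin.gen toepl (x + k)) := by
  rw [← map_inv, ← inl_aut, phi_gen]

/-- The images of the generators. -/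
def im : Bool → SS
  | true => SemidirectProduct.inl (Artin.gen toepl 0)
  | false => SemidirectProduct.inr (Multiplicative.ofAdd 1)

open SemidirectProduct in
lemma lift_im_pow (k : ℕ) : FreeGroup.lift im (FreeGroup.of false ^ k) =
    inr (Multiplicative.ofAdd (k : ℤ)) := by
  rw [map_pow, FreeGroup.lift_apply_of]
  change (inr (Multiplicative.ofAdd (1 : ℤ)) : SS) ^ k = _
  rw [← map_pow, ← ofAdd_nsmul]
  simp

open SemidirectProduct in
lemma lift_im_conj (k : ℕ) : FreeGroup.lift im (conj k) = inl (Artin.gen toepl (k : ℤ)) := by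
  rw [conj, map_mul, map_mul, map_inv, lift_im_pow, FreeGroup.lift_apply_of]
  change (inr _ : SS) * inl (Artin.gen toepl 0) * (inr _)⁻¹ = _
  rw [conj_inr, zero_add]

lemma toepl_pos (L : List (List ℕ)) {i j : ℕ} (h : i < j) :
    toepl (pos L i : ℤ) (pos L j : ℤ) = entry L i j := by
  have hlt := pos_lt L h
  have hne : ¬ ((pos L i : ℤ) = (pos L j : ℤ)) := by
    intro h1
    have : pos L i = pos L j := by exact_mod_cast h1
    omega
  rw [toepl_apply, if_neg hne]
  have : ((pos L i : ℤ) - (pos L j : ℤ)).natAbs = pos L j - pos L i := by omega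
  rw [this, mu_pos L h]

open SemidirectProduct in
/-- The homomorphism to the semidirect product. -/
def alpha : GG →* SS :=
  PresentedGroup.toGroup (f := im) (by
    rintro _ ⟨L, i, j, hij, rfl⟩
    rw [map_mul, map_inv, map_alt, map_alt, lift_im_conj, lift_im_conj, ← map_alt, ← map_alt,
      mul_inv_eq_one]
    congr 1
    rw [← toepl_pos L hij]
    exact Artin.rel _ _)

lemma alpha_mk (w : FreeGroup Bool) :
    alpha (PresentedGroup.mk relators w) = FreeGroup.lift im w := rfl

/-- The generators of `GG`. -/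
def sG : GG := PresentedGroup.of true
/-- The generators of `GG`. -/
def tG : GG := PresentedGroup.of false

lemma mk_conj (k : ℕ) :
    PresentedGroup.mk relators (conj k) = tG ^ k * sG * (tG ^ k)⁻¹ := by
  rw [conj, map_mul, map_mul, map_inv, map_pow]
  rfl

lemma relG (L : List (List ℕ)) {i j : ℕ} (h : i < j) :
    alt (tG ^ pos L i * sG * (tG ^ pos L i)⁻¹) (tG ^ pos L j * sG * (tG ^ pos L j)⁻¹)
      (entry L i j) =
    alt (tG ^ pos L j * sG * (tG ^ pos L j)⁻¹) (tG ^ pos L i * sG * (tG ^ pos L i)⁻¹)
      (entry L i j) := by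
  have h1 : (PresentedGroup.mk relators
      (alt (conj (pos L i)) (conj (pos L j)) (entry L i j) *
      (alt (conj (pos L j)) (conj (pos L i)) (entry L i j))⁻¹)) = 1 :=
    PresentedGroup.one_of_mem ⟨L, i, j, h, rfl⟩
  rw [map_mul, map_inv, map_alt, map_alt, mk_conj, mk_conj, mul_inv_eq_one] at h1
  exact h1

/-- The embedding of the Artin group of the rows `L`. -/
def beta (L : List (List ℕ)) : Artin (mat L) →* GG :=
  Artin.lift (fun i => tG ^ pos L i * sG * (tG ^ pos L i)⁻¹) fun i j => by
    rw [mat_apply]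
    by_cases h : i = j
    · subst h; rfl
    · rw [if_neg h]
      rcases Nat.lt_or_gt_of_ne (fun h' => h (Fin.ext h')) with h1 | h1
      · rw [min_eq_left h1.le, max_eq_right h1.le]
        exact relG L h1
      · rw [min_eq_right (le_of_lt h1), max_eq_left (le_of_lt h1)]
        exact (relG L h1).symm

lemma beta_gen (L : List (List ℕ)) (i : Fin L.length) :
    beta L (Artin.gen (mat L) i) = tG ^ pos L i * sG * (tG ^ pos L i)⁻¹ := Artin.lift_gen _ _ i

/-- A homomorphism along an embedding. -/
lemma injective_of_eq {A : Type} [Fintype A] [DecidableEq A] {N : CoxeterMatrix A} {f : A ↪ ℤ}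
    (h : N = comap toepl f) (γ : Artin N →* Artin toepl)
    (hγ : ∀ a, γ (Artin.gen N a) = Artin.gen toepl (f a)) : Function.Injective γ := by
  subst h
  have : γ = par toepl f := by
    apply Artin.hom_ext
    intro a
    rw [hγ, par_gen]
  rw [this]
  exact par_injective' toepl f

lemma ext_matrix {A : Type} {N N' : CoxeterMatrix A} (h : ∀ i j, N i j = N' i j) : N = N' := by
  cases N with
  | mk M1 a1 b1 c1 =>
    cases N' with
    | mk M2 a2 b2 c2 =>
      have : M1 = M2 := by
        ext i j
        exact h i j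
      subst this
      rfl

/-- The embedding of the index set. -/
def fL (L : List (List ℕ)) : Fin L.length ↪ ℤ :=
  ⟨fun i => (pos L i : ℤ), fun i j h => by
    have h' : (pos L i : ℤ) = (pos L j : ℤ) := h
    exact Fin.ext (pos_inj L (by exact_mod_cast h'))⟩

lemma mat_eq_comap (L : List (List ℕ)) : mat L = comap toepl (fL L) := by
  apply ext_matrix
  intro i j
  rw [comap_apply, mat_apply]
  by_cases h : i = j
  · subst h
    rw [if_pos rfl, toepl.diagonal]
  · rw [if_neg h]
    rcases Nat.lt_or_gt_of_ne (fun h' => h (Fin.ext h')) with h1 | h1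
    · rw [min_eq_left h1.le, max_eq_right h1.le]
      exact (toepl_pos L h1).symm
    · rw [min_eq_right (le_of_lt h1), max_eq_left (le_of_lt h1), toepl.symmetric]
      exact (toepl_pos L h1).symm

/-- The Artin groups embed. -/
theorem beta_injective (L : List (List ℕ)) : Function.Injective (beta L) := by
  -- the homomorphism to the Artin group over the integers
  let γ : Artin (mat L) →* Artin toepl :=
    Artin.lift (fun i => Artin.gen toepl (fL L i)) fun i j => by
      rw [mat_eq_comap L]
      exact Artin.rel _ _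
  have hγ : ∀ a, γ (Artin.gen (mat L) a) = Artin.gen toepl (fL L a) := fun a => Artin.lift_gen _ _ a
  have hinj := injective_of_eq (mat_eq_comap L) γ hγ
  have hcomp : alpha.comp (beta L) = (SemidirectProduct.inl : Artin toepl →* SS).comp γ := by
    apply Artin.hom_ext
    intro i
    rw [MonoidHom.comp_apply, MonoidHom.comp_apply, hγ, beta_gen, ← mk_conj, alpha_mk,
      lift_im_conj]
    rfl
  have h2 : Function.Injective (alpha.comp (beta L)) := by
    rw [hcomp]
    exact SemidirectProduct.inl_injective.comp hinj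
  exact Function.Injective.of_comp h2

/-- The homomorphism from the Artin group over the integers. -/
def psi : Artin toepl →* GG :=
  Artin.lift (fun x : ℤ => tG ^ x * sG * (tG ^ x)⁻¹) (by
    have key : ∀ x y : ℤ, x < y → alt (tG ^ x * sG * (tG ^ x)⁻¹) (tG ^ y * sG * (tG ^ y)⁻¹)
        (toepl x y) = alt (tG ^ y * sG * (tG ^ y)⁻¹) (tG ^ x * sG * (tG ^ x)⁻¹) (toepl x y) := by
      intro x y hxy
      by_cases h0 : toepl x y = 0
      · rw [h0, alt_zero, alt_zero]
      have e1 : toepl x y = mu (y - x).natAbs := by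
        rw [toepl_apply, if_neg hxy.ne, ← Int.natAbs_neg, neg_sub]
      rw [e1] at h0
      obtain ⟨L, i, j, hij, hp, hm⟩ := exists_of_mu (d := (y - x).natAbs) (by omega) h0
      have h1 := relG L hij
      have hconj : ∀ (z : ℤ) (k : ℕ) (u : ℤ), z + k = u →
          MulAut.conj (tG ^ z) (tG ^ k * sG * (tG ^ k)⁻¹) = tG ^ u * sG * (tG ^ u)⁻¹ := by
        intro z k u hz
        rw [MulAut.conj_apply, ← hz, zpow_add, zpow_natCast]
        group
      have m1 : ∀ (a b : GG) (n : ℕ), MulAut.conj (tG ^ (x - (pos L i : ℤ))) (alt a b n) =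
          alt (MulAut.conj (tG ^ (x - (pos L i : ℤ))) a)
            (MulAut.conj (tG ^ (x - (pos L i : ℤ))) b) n := fun a b n =>
        map_alt (MulAut.conj (tG ^ (x - (pos L i : ℤ)))).toMonoidHom a b n
      have hc' := congrArg (MulAut.conj (tG ^ (x - (pos L i : ℤ)))) h1
      rw [m1, m1, hconj _ _ x (by ring), hconj _ _ y (by omega)] at hc'
      rw [e1, hm]
      exact hc'
    intro x y
    rcases lt_trichotomy x y with h | h | h
    · exact key x y h
    · subst h; rfl
    · rw [toepl.symmetric x y]
      exact (key y x h).symm)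

lemma psi_gen (x : ℤ) : psi (Artin.gen toepl x) = tG ^ x * sG * (tG ^ x)⁻¹ := Artin.lift_gen _ _ x

open SemidirectProduct in
lemma alpha_tG_zpow (k : ℤ) : alpha (tG ^ k) = inr (Multiplicative.ofAdd k) := by
  have h : alpha tG = (inr (Multiplicative.ofAdd (1 : ℤ)) : SS) := by
    change alpha (PresentedGroup.mk relators (FreeGroup.of false)) = _
    rw [alpha_mk, FreeGroup.lift_apply_of]
    rfl
  rw [map_zpow, h, ← map_zpow, ← ofAdd_zsmul]
  simp

open SemidirectProduct in
lemma alpha_psi (y : Artin toepl) : alpha (psi y) = inl y := by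
  have h : alpha.comp psi = (inl : Artin toepl →* SS) := by
    apply Artin.hom_ext
    intro x
    rw [MonoidHom.comp_apply, psi_gen, map_mul, map_mul, map_inv, alpha_tG_zpow]
    have hs : alpha sG = (inl (Artin.gen toepl 0) : SS) := by
      change alpha (PresentedGroup.mk relators (FreeGroup.of true)) = _
      rw [alpha_mk, FreeGroup.lift_apply_of]
      rfl
    rw [hs, conj_inr, zero_add]
  exact DFunLike.congr_fun h y

open SemidirectProduct in
/-- Normal form. -/
lemma psi_mul_eq_iff (y : Artin toepl) (a b : ℤ) : psi y * tG ^ a = tG ^ b ↔ y = 1 ∧ a = b := by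
  constructor
  · intro h
    have h1 := congrArg alpha h
    rw [map_mul, alpha_psi, alpha_tG_zpow, alpha_tG_zpow] at h1
    have h2 := congrArg SemidirectProduct.right h1
    have h3 := congrArg SemidirectProduct.left h1
    simp at h2 h3
    exact ⟨h3, h2⟩
  · rintro ⟨rfl, rfl⟩
    rw [map_one, one_mul]

end Pool.Agent.Q220.VL
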